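import Pool.Agent.H3.CanHtVal

/-! # Irrational canonical height over `ℂ(t)`: main part (for `MP_2ab887_nt`) -/

open Filter Topology WithZero

namespace Pool.Agent.H3.CanHt

/-! ### Irrationality -/

lemma sg_V (n : ℕ) (a b : ℕ) (h : sg n = (false, a, b)) :
    ∀ i ≤ a, sg (n + i) = (false, a - i, b + i) := by
  intro i
  induction i with
  | zero => intro _; simpa using h
  | succ i ih =>
    intro hi
    rw [← add_assoc, sg_succ, ih (by omega)]
    obtain ⟨c, hc⟩ : ∃ c, a - i = c + 1 := ⟨a - i - 1, by omega⟩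
    rw [hc]
    have : a - (i + 1) = c := by omega
    rw [this]
    rfl

lemma sg_big (M : ℕ) : ∃ n N, M ≤ N ∧ 2 ≤ N ∧ sg n = (false, N, 0) := by
  induction M with
  | zero => exact ⟨0, 2, by omega, le_rfl, rfl⟩
  | succ M ih =>
    obtain ⟨n, N, h1, h2, h3⟩ := ih
    refine ⟨n + N + 1 + 1, N ^ 4, ?_, ?_, ?_⟩
    · have : N < N ^ 4 := by
        calc N = N ^ 1 := (pow_one N).symm
          _ < N ^ 4 := Nat.pow_lt_pow_right (by omega) (by norm_num)
      omega
    · have : N ^ 1 ≤ N ^ 4 := Nat.pow_le_pow_right (by omega) (by norm_num)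
      rw [pow_one] at this
      omega
    · have h := sg_V n N 0 h3 N le_rfl
      rw [Nat.sub_self, zero_add] at h
      rw [sg_succ, sg_succ, h]
      rfl

lemma rr_le (s : Bool × ℕ × ℕ) : rr s ≤ 1 := by
  obtain ⟨s1, s2, s3⟩ := s
  cases s1 <;> cases s2 <;> simp [rr]

lemma mm_V (n : ℕ) (a : ℕ) (h : sg n = (false, a, 0)) :
    ∀ i ≤ a, mm (n + i) = 2 ^ i * mm n := by
  intro i
  induction i with
  | zero => intro _; simp
  | succ i ih =>
    intro hi
    have h1 : mm (n + (i + 1)) = 2 * mm (n + i) + rr (sg (n + i)) := rfl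
    rw [h1, ih (by omega), sg_V n a 0 h i (by omega)]
    obtain ⟨c, hc⟩ : ∃ c, a - i = c + 1 := ⟨a - i - 1, by omega⟩
    rw [hc]
    simp only [rr]
    ring

lemma mm_hit (n : ℕ) (a : ℕ) (h : sg n = (false, a, 0)) :
    mm (n + a + 1) = 2 * (2 ^ a * mm n) + 1 := by
  have h1 : mm (n + a + 1) = 2 * mm (n + a) + rr (sg (n + a)) := rfl
  rw [h1, mm_V n a h a le_rfl, sg_V n a 0 h a le_rfl, Nat.sub_self]
  rfl

lemma mono_aux : Monotone (fun n : ℕ => (mm n : ℝ) / 2 ^ n) := by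
  apply monotone_nat_of_le_succ
  intro n
  have h1 : (mm (n + 1) : ℝ) = 2 * mm n + rr (sg n) := by
    have : mm (n + 1) = 2 * mm n + rr (sg n) := rfl
    rw [this]; push_cast; ring
  rw [h1, div_le_div_iff₀ (by positivity) (by positivity), pow_succ]
  have : (0 : ℝ) ≤ rr (sg n) := Nat.cast_nonneg _
  nlinarith [pow_pos (two_pos (α := ℝ)) n]

lemma anti_aux : Antitone (fun n : ℕ => ((mm n : ℝ) + 1) / 2 ^ n) := by
  apply antitone_nat_of_succ_le
  intro n
  have h1 : (mm (n + 1) : ℝ) = 2 * mm n + rr (sg n) := by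
    have : mm (n + 1) = 2 * mm n + rr (sg n) := rfl
    rw [this]; push_cast; ring
  rw [h1, div_le_div_iff₀ (by positivity) (by positivity), pow_succ]
  have : (rr (sg n) : ℝ) ≤ 1 := by exact_mod_cast rr_le (sg n)
  nlinarith [pow_pos (two_pos (α := ℝ)) n]

theorem irr (q : ℚ) :
    ¬ Tendsto (fun n : ℕ => ((2 : ℝ) ^ n - 1 - mm n) / 2 ^ n) atTop (𝓝 (q : ℝ)) := by
  intro hq
  have hinv : Tendsto (fun n : ℕ => (1 : ℝ) / 2 ^ n) atTop (𝓝 0) := by
    have := tendsto_pow_atTop_nhds_zero_of_lt_one (r := (1 / 2 : ℝ)) (by norm_num) (by norm_num)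
    simpa [one_div] using this
  -- the limit of `mm n / 2^n`
  have hlim : Tendsto (fun n : ℕ => (mm n : ℝ) / 2 ^ n) atTop (𝓝 ((1 - q : ℚ) : ℝ)) := by
    have h := ((tendsto_const_nhds (x := (1 : ℝ))).sub hinv).sub hq
    have e : (fun n : ℕ => (mm n : ℝ) / 2 ^ n) =
        fun n : ℕ => (1 : ℝ) - 1 / 2 ^ n - ((2 : ℝ) ^ n - 1 - mm n) / 2 ^ n := by
      funext n
      field_simp
      ring
    rw [e]
    push_cast
    simpa using h
  obtain ⟨p, hp⟩ : ∃ p : ℚ, p = 1 - q := ⟨_, rfl⟩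
  rw [← hp] at hlim
  have hlow : ∀ n : ℕ, (mm n : ℝ) / 2 ^ n ≤ p := fun n => mono_aux.ge_of_tendsto hlim n
  have hup : ∀ n : ℕ, (p : ℝ) ≤ ((mm n : ℝ) + 1) / 2 ^ n := by
    intro n
    refine anti_aux.le_of_tendsto ?_ n
    have h := hlim.add hinv
    rw [add_zero] at h
    refine h.congr fun n => ?_
    rw [← add_div]
  -- choose a long gap
  obtain ⟨n, N, h1, h2, h3⟩ := sg_big p.den
  have hB : (p.den : ℝ) < 2 ^ N := by
    have : p.den < 2 ^ N := lt_of_le_of_lt h1 Nat.lt_two_pow_self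
    exact_mod_cast this
  have hden : (0 : ℝ) < p.den := by exact_mod_cast p.den_pos
  -- `ε = 2^n p - mm n`
  have e1 : (0 : ℝ) ≤ 2 ^ n * p - mm n := by
    have := hlow n
    rw [div_le_iff₀ (by positivity)] at this
    linarith
  have e2 : (2 : ℝ) ^ N * (2 ^ n * p - mm n) ≤ 1 := by
    have h := hup (n + N)
    rw [mm_V n N h3 N le_rfl, le_div_iff₀ (by positivity), pow_add] at h
    push_cast at h
    nlinarith
  have e3 : (p : ℝ) * p.den = p.num := by
    have := p.mul_den_eq_num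
    exact_mod_cast this
  have e4 : (2 : ℝ) ^ n * p - mm n = 0 := by
    have hz : ((2 ^ n * p.num - mm n * p.den : ℤ) : ℝ) = (2 ^ n * p - mm n) * p.den := by
      push_cast
      rw [← e3]; ring
    have hz0 : (2 ^ n * p.num - mm n * p.den : ℤ) = 0 := by
      have a1 : (0 : ℝ) ≤ ((2 ^ n * p.num - mm n * p.den : ℤ) : ℝ) := by
        rw [hz]; exact mul_nonneg e1 hden.le
      have a2 : ((2 ^ n * p.num - mm n * p.den : ℤ) : ℝ) < 1 := by
        rw [hz]
        rcases eq_or_lt_of_le e1 with h | h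
        · rw [← h]; simp
        · calc (2 ^ n * (p : ℝ) - mm n) * p.den < (2 ^ n * (p : ℝ) - mm n) * 2 ^ N :=
              mul_lt_mul_of_pos_left hB h
            _ ≤ 1 := by rw [mul_comm]; exact e2
      have a3 : (0 : ℤ) ≤ (2 ^ n * p.num - mm n * p.den : ℤ) := by exact_mod_cast a1
      have a4 : (2 ^ n * p.num - mm n * p.den : ℤ) < 1 := by exact_mod_cast a2
      omega
    rw [hz0, Int.cast_zero] at hz
    rcases mul_eq_zero.mp hz.symm with h | h
    · exact h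
    · exact absurd h hden.ne'
  have h5 := hlow (n + N + 1)
  rw [mm_hit n N h3, div_le_iff₀ (by positivity)] at h5
  push_cast at h5
  have e5 : (p : ℝ) * 2 ^ (n + N + 1) = 2 * 2 ^ N * (2 ^ n * p) := by
    rw [pow_add, pow_add]; ring
  rw [e5] at h5
  have e6 : (2 : ℝ) ^ n * p = mm n := by linarith
  rw [e6] at h5
  linarith

/-! ### Valuations on `ℂ(t)` -/

/-- Valuations trivial on constants. -/
def Triv (v : Valuation (RatFunc ℂ) ℤᵐ⁰) : Prop :=
  ∀ c : ℂ, c ≠ 0 → v (algebraMap ℂ (RatFunc ℂ) c) = 1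

lemma Triv.inst {v : Valuation (RatFunc ℂ) ℤᵐ⁰} (h : Triv v) : v.IsTrivialOn ℂ := ⟨h⟩

lemma poly_key (n : ℕ) : ∀ p : Polynomial ℂ, p.natDegree ≤ n → p ≠ 0 →
    ∃ k : ℕ, ∀ v : Valuation (RatFunc ℂ) ℤᵐ⁰, v RatFunc.X < 1 → Triv v →
      v (algebraMap (Polynomial ℂ) (RatFunc ℂ) p) = v RatFunc.X ^ k := by
  induction n with
  | zero =>
    intro p hp hp0
    rw [Polynomial.eq_C_of_natDegree_le_zero hp] at hp0 ⊢
    refine ⟨0, fun v _ ht => ?_⟩
    rw [RatFunc.algebraMap_C, ← RatFunc.algebraMap_eq_C, pow_zero]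
    exact ht _ (fun h => hp0 (by rw [h, Polynomial.C_0]))
  | succ n ih =>
    intro p hp hp0
    have hd := Polynomial.divX_mul_X_add p
    by_cases h0 : p.coeff 0 = 0
    · rw [h0, Polynomial.C_0, add_zero] at hd
      have hq0 : p.divX ≠ 0 := by
        intro h; rw [h, zero_mul] at hd; exact hp0 hd.symm
      obtain ⟨k, hk⟩ := ih p.divX (by rw [Polynomial.natDegree_divX_eq_natDegree_tsub_one]; omega)
        hq0
      refine ⟨k + 1, fun v hv ht => ?_⟩
      rw [← hd, map_mul, map_mul, hk v hv ht, RatFunc.algebraMap_X, pow_succ]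
    · refine ⟨0, fun v hv ht => ?_⟩
      have := ht.inst
      rw [← hd, map_add, map_mul, RatFunc.algebraMap_X, RatFunc.algebraMap_C,
        ← RatFunc.algebraMap_eq_C, pow_zero]
      have h1 : v (algebraMap (Polynomial ℂ) (RatFunc ℂ) p.divX * RatFunc.X) < 1 := by
        rw [map_mul]
        have h2 : v (algebraMap (Polynomial ℂ) (RatFunc ℂ) p.divX) ≤ 1 := by
          have := Polynomial.valuation_le_one_of_valuation_X_le_one (v := v) _ hv.le p.divX
          simpa using this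
        calc v (algebraMap (Polynomial ℂ) (RatFunc ℂ) p.divX) * v RatFunc.X
            ≤ 1 * v RatFunc.X := mul_le_mul_left h2 _
          _ < 1 := by rwa [one_mul]
      have h3 := ht _ h0
      rw [← h3] at h1
      rw [Valuation.map_add_eq_of_lt_right _ h1, h3]

lemma rat_key (f : RatFunc ℂ) (hf : f ≠ 0) :
    ∃ k : ℤ, ∀ v : Valuation (RatFunc ℂ) ℤᵐ⁰, v RatFunc.X < 1 → Triv v →
      v f = v RatFunc.X ^ k := by
  induction f using RatFunc.induction_on with
  | f p q hq =>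
    have hp : p ≠ 0 := by contrapose hf; simp [hf]
    obtain ⟨a, ha⟩ := poly_key _ p le_rfl hp
    obtain ⟨b, hb⟩ := poly_key _ q le_rfl hq
    refine ⟨a - b, fun v hv ht => ?_⟩
    have h0 : v RatFunc.X ≠ 0 := (Valuation.ne_zero_iff v).mpr RatFunc.X_ne_zero
    rw [map_div₀, ha v hv ht, hb v hv ht, zpow_sub₀ h0, zpow_natCast, zpow_natCast]

lemma exp_of_pow {x : ℤᵐ⁰} {k : ℤ} (h : exp 1 = x ^ k) : x = exp 1 ∨ x = exp (-1) := by
  have hx : x ≠ 0 := by
    rintro rfl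
    by_cases hk : k = 0
    · rw [hk, zpow_zero, ← exp_zero] at h
      exact absurd (exp_injective h) one_ne_zero
    · rw [zero_zpow _ hk] at h
      exact exp_ne_zero h
  obtain ⟨m, rfl⟩ : ∃ m, x = exp m := ⟨log x, (exp_log hx).symm⟩
  rw [← exp_zsmul] at h
  have h1 : 1 = k • m := exp_injective h
  rw [smul_eq_mul] at h1
  rcases Int.eq_one_or_neg_one_of_mul_eq_one' h1.symm with h | h
  · left; rw [h.2]
  · right; rw [h.2]

lemma X_zero {v : Valuation (RatFunc ℂ) ℤᵐ⁰} (hs : Function.Surjective v) (ht : Triv v)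
    (hv : v RatFunc.X < 1) : v RatFunc.X = exp (-1) := by
  obtain ⟨f, hf⟩ := hs (exp 1)
  have hf0 : f ≠ 0 := by rintro rfl; rw [map_zero] at hf; exact exp_ne_zero hf.symm
  obtain ⟨k, hk⟩ := rat_key f hf0
  rw [hk v hv ht] at hf
  rcases exp_of_pow hf.symm with h | h
  · rw [h, ← exp_zero, exp_lt_exp] at hv; omega
  · exact h

lemma X_inf {v : Valuation (RatFunc ℂ) ℤᵐ⁰} (hs : Function.Surjective v) (ht : Triv v)
    (hv : 1 < v RatFunc.X) : v RatFunc.X = exp 1 := by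
  obtain ⟨f, hf⟩ := hs (exp 1)
  have hf0 : f ≠ 0 := by rintro rfl; rw [map_zero] at hf; exact exp_ne_zero hf.symm
  have := ht.inst
  rw [RatFunc.valuation_eq_valuation_X_zpow_intDegree_of_one_lt_valuation_X hv hf0] at hf
  rcases exp_of_pow hf.symm with h | h
  · exact h
  · rw [h, ← exp_zero, exp_lt_exp] at hv; omega

lemma ext_zero {v w : Valuation (RatFunc ℂ) ℤᵐ⁰} (hv : v RatFunc.X = exp (-1))
    (hw : w RatFunc.X = exp (-1)) (ht : Triv v) (ht' : Triv w) : v = w := by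
  have hlt : exp (-1 : ℤ) < 1 := by rw [← exp_zero, exp_lt_exp]; norm_num
  ext f
  by_cases hf : f = 0
  · rw [hf, map_zero, map_zero]
  · obtain ⟨k, hk⟩ := rat_key f hf
    rw [hk v (by rw [hv]; exact hlt) ht, hk w (by rw [hw]; exact hlt) ht', hv, hw]

lemma ext_inf {v w : Valuation (RatFunc ℂ) ℤᵐ⁰} (hv : v RatFunc.X = exp 1)
    (hw : w RatFunc.X = exp 1) (ht : Triv v) (ht' : Triv w) : v = w := by
  have hlt : 1 < exp (1 : ℤ) := by rw [← exp_zero, exp_lt_exp]; norm_num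
  have := ht.inst
  have := ht'.inst
  ext f
  by_cases hf : f = 0
  · rw [hf, map_zero, map_zero]
  · rw [RatFunc.valuation_eq_valuation_X_zpow_intDegree_of_one_lt_valuation_X
      (by rw [hv]; exact hlt) hf,
      RatFunc.valuation_eq_valuation_X_zpow_intDegree_of_one_lt_valuation_X
      (by rw [hw]; exact hlt) hf, hv, hw]

/-- The two special places exist. -/
lemma exists_zero : ∃ v : Valuation (RatFunc ℂ) ℤᵐ⁰, v RatFunc.X = exp (-1) ∧ Triv v := by
  refine ⟨(Polynomial.idealX ℂ).valuation (RatFunc ℂ), Polynomial.valuation_X_eq_neg_one ℂ, ?_⟩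
  intro c hc
  have h1 : (Polynomial.idealX ℂ).valuation (RatFunc ℂ)
      (algebraMap (Polynomial ℂ) (RatFunc ℂ) (Polynomial.C c)) = 1 := by
    apply le_antisymm
    · exact (Polynomial.idealX ℂ).valuation_le_one _
    · have h2 : (Polynomial.idealX ℂ).valuation (RatFunc ℂ)
        (algebraMap (Polynomial ℂ) (RatFunc ℂ) (Polynomial.C c⁻¹)) ≤ 1 :=
        (Polynomial.idealX ℂ).valuation_le_one _
      have h3 : (Polynomial.idealX ℂ).valuation (RatFunc ℂ)
          (algebraMap (Polynomial ℂ) (RatFunc ℂ) (Polynomial.C c⁻¹)) *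
          (Polynomial.idealX ℂ).valuation (RatFunc ℂ)
          (algebraMap (Polynomial ℂ) (RatFunc ℂ) (Polynomial.C c)) = 1 := by
        rw [← map_mul, ← map_mul, ← Polynomial.C_mul, inv_mul_cancel₀ hc, Polynomial.C_1,
          map_one, map_one]
      rw [← h3]
      calc _ ≤ 1 * (Polynomial.idealX ℂ).valuation (RatFunc ℂ)
            (algebraMap (Polynomial ℂ) (RatFunc ℂ) (Polynomial.C c)) := mul_le_mul_left h2 _
        _ = _ := one_mul _
  rwa [RatFunc.algebraMap_C, ← RatFunc.algebraMap_eq_C] at h1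

lemma exists_inf : ∃ v : Valuation (RatFunc ℂ) ℤᵐ⁰, v RatFunc.X = exp 1 ∧ Triv v := by
  classical
  refine ⟨RatFunc.inftyValuation ℂ, RatFunc.inftyValuation.X ℂ, ?_⟩
  intro c hc
  rw [RatFunc.algebraMap_eq_C]
  exact RatFunc.inftyValuation.C ℂ hc

lemma surj_of {v : Valuation (RatFunc ℂ) ℤᵐ⁰} {e : ℤ} (he : e = 1 ∨ e = -1)
    (hv : v RatFunc.X = exp e) : Function.Surjective v := by
  intro x
  by_cases hx : x = 0
  · exact ⟨0, by rw [map_zero, hx]⟩
  · obtain ⟨m, rfl⟩ : ∃ m, x = exp m := ⟨log x, (exp_log hx).symm⟩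
    refine ⟨RatFunc.X ^ (m * e), ?_⟩
    rw [map_zpow₀, hv, ← exp_zsmul, smul_eq_mul]
    congr 1
    rcases he with rfl | rfl <;> ring

/-- The total height. -/
lemma total (n : ℕ) (P : Valuation (RatFunc ℂ) ℤᵐ⁰ → Prop)
    (hP : ∀ v, P v ↔ Function.Surjective v ∧ Triv v) :
    (∑ᶠ v : {v : Valuation (RatFunc ℂ) ℤᵐ⁰ // P v},
      ((sInf {m : ℤ | ∀ i, v.1 ((step (RatFunc.X : RatFunc ℂ))^[n] (x0 (RatFunc ℂ)) i) ≤ exp m} :
        ℤ) : ℝ)) = 2 ^ n - 1 - mm n := by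
  classical
  obtain ⟨v0, h0, t0⟩ := exists_zero
  obtain ⟨v1, h1, t1⟩ := exists_inf
  have p0 : P v0 := (hP v0).mpr ⟨surj_of (Or.inr rfl) h0, t0⟩
  have p1 : P v1 := (hP v1).mpr ⟨surj_of (Or.inl rfl) h1, t1⟩
  have hne : (⟨v0, p0⟩ : {v : Valuation (RatFunc ℂ) ℤᵐ⁰ // P v}) ≠ ⟨v1, p1⟩ := by
    intro h
    have h2 : v0 = v1 := congrArg Subtype.val h
    rw [h2, h1] at h0
    have := exp_injective h0
    omega
  have hX : (RatFunc.X : RatFunc ℂ) ≠ 0 := RatFunc.X_ne_zero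
  rw [finsum_eq_sum_of_support_subset (s := {⟨v0, p0⟩, ⟨v1, p1⟩})]
  · rw [Finset.sum_pair hne, sInf_zero h0 hX t0, sInf_inf h1 t1]
    push_cast
    ring
  · intro v hv
    simp only [Finset.coe_insert, Finset.coe_singleton, Set.mem_insert_iff,
      Set.mem_singleton_iff]
    obtain ⟨hs, ht⟩ := (hP v.1).mp v.2
    rcases lt_trichotomy (v.1 RatFunc.X) 1 with h | h | h
    · left
      exact Subtype.ext (ext_zero (X_zero hs ht h) h0 ht t0)
    · exfalso
      apply hv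
      change ((sInf {m : ℤ | ∀ i, v.1 ((step (RatFunc.X : RatFunc ℂ))^[n]
        (x0 (RatFunc ℂ)) i) ≤ exp m} : ℤ) : ℝ) = 0
      rw [sInf_unit h ht, Int.cast_zero]
    · right
      exact Subtype.ext (ext_inf (X_inf hs ht h) h1 ht t1)

/-! ### The polynomial map -/

section Poly

open MvPolynomial

/-- The polynomial map. -/
noncomputable def FF : Fin 6 → MvPolynomial (Fin 6) (RatFunc ℂ) :=
  step (C (RatFunc.X : RatFunc ℂ)) (fun i => X i)

lemma FF_hom (i : Fin 6) : (FF i).IsHomogeneous 2 := by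
  have x (i : Fin 6) : (X i : MvPolynomial (Fin 6) (RatFunc ℂ)).IsHomogeneous 1 :=
    isHomogeneous_X _ _
  have c : (C (RatFunc.X : RatFunc ℂ) : MvPolynomial (Fin 6) (RatFunc ℂ)).IsHomogeneous 0 :=
    isHomogeneous_C _ _
  have q0 : (X 3 * (X 3 - X 5) - X 0 ^ 2 : MvPolynomial (Fin 6) (RatFunc ℂ)).IsHomogeneous 2 :=
    ((x 3).mul ((x 3).sub (x 5))).sub ((x 0).pow 2)
  have q1 : (X 3 * (X 4 + X 5) - X 1 ^ 2 : MvPolynomial (Fin 6) (RatFunc ℂ)).IsHomogeneous 2 :=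
    ((x 3).mul ((x 4).add (x 5))).sub ((x 1).pow 2)
  have q2 : (X 3 * X 5 - X 2 ^ 2 : MvPolynomial (Fin 6) (RatFunc ℂ)).IsHomogeneous 2 :=
    ((x 3).mul (x 5)).sub ((x 2).pow 2)
  revert i
  refine forall6 ?_ ?_ ?_ ?_ ?_ ?_
  · exact c.mul (((x 4).pow 2).sub q0)
  · exact c.mul (((x 3).pow 2).sub q1)
  · exact c.mul (((x 5).pow 2).sub q2)
  · exact q0
  · exact q1
  · exact q2

lemma FF_eval (z : Fin 6 → RatFunc ℂ) (i : Fin 6) :
    MvPolynomial.eval z (FF i) = step RatFunc.X z i := by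
  revert i
  refine forall6 ?_ ?_ ?_ ?_ ?_ ?_ <;> simp [FF]

lemma FF_aeval {L : Type*} [Field L] [Algebra (RatFunc ℂ) L] (z : Fin 6 → L) (i : Fin 6) :
    MvPolynomial.aeval z (FF i) = step (algebraMap (RatFunc ℂ) L RatFunc.X) z i := by
  revert i
  refine forall6 ?_ ?_ ?_ ?_ ?_ ?_ <;> simp [FF]

end Poly

end Pool.Agent.H3.CanHt
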