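import Mathlib

/-! # Irrational canonical height over `ℂ(t)`: local computations (for `MP_2ab887_nt`) -/

namespace Pool.Agent.H3.CanHt

open WithZero

section Ring

variable {K : Type*} [CommRing K]

/-- The degree two map on `P^5`; `t` is a parameter. Coordinates `0,1,2` are the block `u`,
coordinates `3,4,5` the block `(X, W, Z)`. -/
def step (t : K) (y : Fin 6 → K) : Fin 6 → K :=
  ![t * (y 4 ^ 2 - (y 3 * (y 3 - y 5) - y 0 ^ 2)),
    t * (y 3 ^ 2 - (y 3 * (y 4 + y 5) - y 1 ^ 2)),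
    t * (y 5 ^ 2 - (y 3 * y 5 - y 2 ^ 2)),
    y 3 * (y 3 - y 5) - y 0 ^ 2,
    y 3 * (y 4 + y 5) - y 1 ^ 2,
    y 3 * y 5 - y 2 ^ 2]

@[simp] lemma step0 (t : K) (y : Fin 6 → K) :
    step t y 0 = t * (y 4 ^ 2 - (y 3 * (y 3 - y 5) - y 0 ^ 2)) := rfl
@[simp] lemma step1 (t : K) (y : Fin 6 → K) :
    step t y 1 = t * (y 3 ^ 2 - (y 3 * (y 4 + y 5) - y 1 ^ 2)) := rfl
@[simp] lemma step2 (t : K) (y : Fin 6 → K) :
    step t y 2 = t * (y 5 ^ 2 - (y 3 * y 5 - y 2 ^ 2)) := rfl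
@[simp] lemma step3 (t : K) (y : Fin 6 → K) :
    step t y 3 = y 3 * (y 3 - y 5) - y 0 ^ 2 := rfl
@[simp] lemma step4 (t : K) (y : Fin 6 → K) :
    step t y 4 = y 3 * (y 4 + y 5) - y 1 ^ 2 := rfl
@[simp] lemma step5 (t : K) (y : Fin 6 → K) :
    step t y 5 = y 3 * y 5 - y 2 ^ 2 := rfl

lemma forall6 {P : Fin 6 → Prop} (h0 : P 0) (h1 : P 1) (h2 : P 2) (h3 : P 3) (h4 : P 4)
    (h5 : P 5) : ∀ i, P i := by
  intro i
  fin_cases i
  exacts [h0, h1, h2, h3, h4, h5]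

lemma step_smul (t c : K) (y : Fin 6 → K) : step t (c • y) = c ^ 2 • step t y := by
  funext i
  revert i
  apply forall6 <;> simp <;> ring

end Ring

section General

variable {K : Type*} [Field K]

/-- No nontrivial common zero when `t ≠ 0`. -/
lemma step_noZero {t : K} (ht : t ≠ 0) {y : Fin 6 → K} (h : ∀ i, step t y i = 0) : y = 0 := by
  have h0 := h 0
  have h1 := h 1
  have h2 := h 2
  have h3 := h 3
  have h4 := h 4
  have h5 := h 5
  simp only [step0, step1, step2, step3, step4, step5] at h0 h1 h2 h3 h4 h5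
  rw [h3] at h0
  rw [h4] at h1
  rw [h5] at h2
  have w0 : y 4 = 0 := by simpa [ht] using h0
  have x0 : y 3 = 0 := by simpa [ht] using h1
  have z0 : y 5 = 0 := by simpa [ht] using h2
  rw [x0] at h3 h4 h5
  have a0 : y 0 = 0 := by simpa using h3
  have b0 : y 1 = 0 := by simpa using h4
  have c0 : y 2 = 0 := by simpa using h5
  funext i
  revert i
  exact forall6 a0 b0 c0 x0 w0 z0

variable (v : Valuation K ℤᵐ⁰)

/-- `v x ≤ exp m`. -/
def B (m : ℤ) (x : K) : Prop := v x ≤ exp m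

variable {v}

lemma B.mul {m n : ℤ} {x y : K} (hx : B v m x) (hy : B v n y) : B v (m + n) (x * y) := by
  unfold B at *
  rw [map_mul, exp_add]
  exact mul_le_mul' hx hy

lemma B.add {m : ℤ} {x y : K} (hx : B v m x) (hy : B v m y) : B v m (x + y) := by
  unfold B at *
  exact (v.map_add x y).trans (max_le hx hy)

lemma B.neg {m : ℤ} {x : K} (hx : B v m x) : B v m (-x) := by
  unfold B at *
  rwa [Valuation.map_neg]

lemma B.sub {m : ℤ} {x y : K} (hx : B v m x) (hy : B v m y) : B v m (x - y) := by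
  rw [sub_eq_add_neg]; exact hx.add hy.neg

lemma B.mono {m n : ℤ} {x : K} (hx : B v m x) (h : m ≤ n) : B v n x := by
  unfold B at *
  exact hx.trans (exp_le_exp.mpr h)

lemma B.zero (m : ℤ) : B v m 0 := by
  unfold B; simp

lemma B.lt {m n : ℤ} {x : K} (hx : B v m x) (h : m < n) : v x < exp n :=
  lt_of_le_of_lt hx (exp_lt_exp.mpr h)

lemma val_sub_eq {m n : ℤ} {x y : K} (hx : v x = exp n) (hy : B v m y) (h : m < n) :
    v (x - y) = exp n := by
  rw [Valuation.map_sub_eq_of_lt_left]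
  · exact hx
  · rw [hx]; exact hy.lt h

lemma val_sub_eq' {m n : ℤ} {x y : K} (hx : B v m x) (hy : v y = exp n) (h : m < n) :
    v (x - y) = exp n := by
  rw [Valuation.map_sub_eq_of_lt_right]
  · exact hy
  · rw [hy]; exact hx.lt h

lemma sInf_eq {y : Fin 6 → K} {D : ℤ} (h1 : ∀ i, v (y i) ≤ exp D) (h2 : ∃ i, v (y i) = exp D) :
    sInf {m : ℤ | ∀ i, v (y i) ≤ exp m} = D := by
  have : {m : ℤ | ∀ i, v (y i) ≤ exp m} = Set.Ici D := by
    ext m
    simp only [Set.mem_ofPred_eq, Set.mem_Ici]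
    constructor
    · intro h
      obtain ⟨i, hi⟩ := h2
      have := h i
      rw [hi] at this
      exact exp_le_exp.mp this
    · intro h i
      exact (h1 i).trans (exp_le_exp.mpr h)
  rw [this]
  exact csInf_Ici

/-! ### Places with `v t = 1` -/

lemma unit_step {t : K} (ht : v t = 1) {y : Fin 6 → K} (h1 : ∀ i, v (y i) ≤ 1)
    (h2 : ∃ i, v (y i) = 1) : (∀ i, v (step t y i) ≤ 1) ∧ ∃ i, v (step t y i) = 1 := by
  have le_sub : ∀ {a b : K}, v a ≤ 1 → v b ≤ 1 → v (a - b) ≤ 1 := fun ha hb =>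
    (v.map_sub _ _).trans (max_le ha hb)
  have le_add : ∀ {a b : K}, v a ≤ 1 → v b ≤ 1 → v (a + b) ≤ 1 := fun ha hb =>
    (v.map_add _ _).trans (max_le ha hb)
  have le_mul : ∀ {a b : K}, v a ≤ 1 → v b ≤ 1 → v (a * b) ≤ 1 := fun ha hb => by
    rw [map_mul]; exact mul_le_one' ha hb
  have le_sq : ∀ {a : K}, v a ≤ 1 → v (a ^ 2) ≤ 1 := fun ha => by
    rw [map_pow]; exact pow_le_one' ha 2
  have q0 : v (y 3 * (y 3 - y 5) - y 0 ^ 2) ≤ 1 :=
    le_sub (le_mul (h1 3) (le_sub (h1 3) (h1 5))) (le_sq (h1 0))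
  have q1 : v (y 3 * (y 4 + y 5) - y 1 ^ 2) ≤ 1 :=
    le_sub (le_mul (h1 3) (le_add (h1 4) (h1 5))) (le_sq (h1 1))
  have q2 : v (y 3 * y 5 - y 2 ^ 2) ≤ 1 :=
    le_sub (le_mul (h1 3) (h1 5)) (le_sq (h1 2))
  have hle : ∀ i, v (step t y i) ≤ 1 := by
    apply forall6
    · rw [step0, map_mul, ht, one_mul]; exact le_sub (le_sq (h1 4)) q0
    · rw [step1, map_mul, ht, one_mul]; exact le_sub (le_sq (h1 3)) q1
    · rw [step2, map_mul, ht, one_mul]; exact le_sub (le_sq (h1 5)) q2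
    · exact q0
    · exact q1
    · exact q2
  refine ⟨hle, ?_⟩
  by_contra hcon
  push Not at hcon
  have hlt : ∀ i, v (step t y i) < 1 := fun i => lt_of_le_of_ne (hle i) (hcon i)
  have l0 := hlt 0
  have l1 := hlt 1
  have l2 := hlt 2
  have l3 := hlt 3
  have l4 := hlt 4
  have l5 := hlt 5
  rw [step0, map_mul, ht, one_mul] at l0
  rw [step1, map_mul, ht, one_mul] at l1
  rw [step2, map_mul, ht, one_mul] at l2
  rw [step3] at l3
  rw [step4] at l4
  rw [step5] at l5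
  have lt_add : ∀ {a b : K}, v a < 1 → v b < 1 → v (a + b) < 1 := fun ha hb =>
    lt_of_le_of_lt (v.map_add _ _) (max_lt ha hb)
  have lt_sub : ∀ {a b : K}, v a < 1 → v b < 1 → v (a - b) < 1 := fun ha hb =>
    lt_of_le_of_lt (v.map_sub _ _) (max_lt ha hb)
  have lt_of_sq : ∀ {a : K}, v (a ^ 2) < 1 → v a < 1 := fun ha => by
    rw [map_pow] at ha
    by_contra hge
    rw [not_lt] at hge
    exact absurd ha (not_lt.mpr (one_le_pow_of_one_le' hge 2))
  have lt_mul : ∀ {a b : K}, v a < 1 → v b ≤ 1 → v (a * b) < 1 := fun ha hb => by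
    rw [map_mul]; exact mul_lt_one_of_lt_of_le ha hb
  have w1 : v (y 4) < 1 := by
    apply lt_of_sq
    have := lt_add l0 l3
    rwa [sub_add_cancel] at this
  have x1 : v (y 3) < 1 := by
    apply lt_of_sq
    have := lt_add l1 l4
    rwa [sub_add_cancel] at this
  have z1 : v (y 5) < 1 := by
    apply lt_of_sq
    have := lt_add l2 l5
    rwa [sub_add_cancel] at this
  have a1 : v (y 0) < 1 := by
    apply lt_of_sq
    have := lt_sub (lt_mul x1 (le_sub (h1 3) (h1 5))) l3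
    rwa [sub_sub_cancel] at this
  have b1 : v (y 1) < 1 := by
    apply lt_of_sq
    have := lt_sub (lt_mul x1 (le_add (h1 4) (h1 5))) l4
    rwa [sub_sub_cancel] at this
  have c1 : v (y 2) < 1 := by
    apply lt_of_sq
    have := lt_sub (lt_mul x1 (h1 5)) l5
    rwa [sub_sub_cancel] at this
  obtain ⟨i, hi⟩ := h2
  exact absurd hi (ne_of_lt (forall6 (P := fun i => v (y i) < 1) a1 b1 c1 x1 w1 z1 i))

/-! ### The place at infinity: `v t = exp 1` -/

/-- The invariant at infinity. -/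
def InvInf (v : Valuation K ℤᵐ⁰) (D : ℤ) (y : Fin 6 → K) : Prop :=
  B v D (y 0) ∧ B v D (y 1) ∧ B v D (y 2) ∧
    (v (y 0) = exp D ∨ v (y 1) = exp D ∨ v (y 2) = exp D) ∧
    B v (D - 1) (y 3) ∧ B v (D - 1) (y 4) ∧ B v (D - 1) (y 5)

lemma val_sq {x : K} {D : ℤ} (h : v x = exp D) : v (x ^ 2) = exp (2 * D) := by
  rw [map_pow, h, ← exp_nsmul]
  simp

lemma B.sq {m : ℤ} {x : K} (hx : B v m x) : B v (2 * m) (x ^ 2) := by
  have := hx.mul hx
  rwa [← pow_two, ← two_mul] at this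

lemma inf_step {t : K} (ht : v t = exp 1) {D : ℤ} {y : Fin 6 → K} (h : InvInf v D y) :
    InvInf v (2 * D + 1) (step t y) := by
  obtain ⟨h0, h1, h2, h, h3, h4, h5⟩ := h
  have ht' : B v 1 t := ht.le
  have b0 : B v (2 * D - 2) (y 3 * (y 3 - y 5)) := (h3.mul (h3.sub h5)).mono (by omega)
  have b1 : B v (2 * D - 2) (y 3 * (y 4 + y 5)) := (h3.mul (h4.add h5)).mono (by omega)
  have b2 : B v (2 * D - 2) (y 3 * y 5) := (h3.mul h5).mono (by omega)
  have s3 : B v (2 * D - 2) (y 3 ^ 2) := h3.sq.mono (by omega)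
  have s4 : B v (2 * D - 2) (y 4 ^ 2) := h4.sq.mono (by omega)
  have s5 : B v (2 * D - 2) (y 5 ^ 2) := h5.sq.mono (by omega)
  have q0 : B v (2 * D) (y 3 * (y 3 - y 5) - y 0 ^ 2) := (b0.mono (by omega)).sub h0.sq
  have q1 : B v (2 * D) (y 3 * (y 4 + y 5) - y 1 ^ 2) := (b1.mono (by omega)).sub h1.sq
  have q2 : B v (2 * D) (y 3 * y 5 - y 2 ^ 2) := (b2.mono (by omega)).sub h2.sq
  refine ⟨?_, ?_, ?_, ?_, ?_, ?_, ?_⟩
  · rw [step0]; exact (ht'.mul ((s4.mono (by omega)).sub q0)).mono (by omega)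
  · rw [step1]; exact (ht'.mul ((s3.mono (by omega)).sub q1)).mono (by omega)
  · rw [step2]; exact (ht'.mul ((s5.mono (by omega)).sub q2)).mono (by omega)
  · rcases h with h | h | h
    · left
      have e1 : v (y 3 * (y 3 - y 5) - y 0 ^ 2) = exp (2 * D) :=
        val_sub_eq' b0 (val_sq h) (by omega)
      have e2 := val_sub_eq' s4 e1 (by omega)
      rw [step0, map_mul, ht, e2, ← exp_add]; congr 1; ring
    · right; left
      have e1 : v (y 3 * (y 4 + y 5) - y 1 ^ 2) = exp (2 * D) :=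
        val_sub_eq' b1 (val_sq h) (by omega)
      have e2 := val_sub_eq' s3 e1 (by omega)
      rw [step1, map_mul, ht, e2, ← exp_add]; congr 1; ring
    · right; right
      have e1 : v (y 3 * y 5 - y 2 ^ 2) = exp (2 * D) :=
        val_sub_eq' b2 (val_sq h) (by omega)
      have e2 := val_sub_eq' s5 e1 (by omega)
      rw [step2, map_mul, ht, e2, ← exp_add]; congr 1; ring
  · rw [step3]; exact q0.mono (by omega)
  · rw [step4]; exact q1.mono (by omega)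
  · rw [step5]; exact q2.mono (by omega)

lemma InvInf.max {D : ℤ} {y : Fin 6 → K} (h : InvInf v D y) :
    (∀ i, v (y i) ≤ exp D) ∧ ∃ i, v (y i) = exp D := by
  obtain ⟨h0, h1, h2, h, h3, h4, h5⟩ := h
  refine ⟨forall6 h0 h1 h2 (h3.mono (by omega)) (h4.mono (by omega)) (h5.mono (by omega)), ?_⟩
  rcases h with h | h | h
  exacts [⟨0, h⟩, ⟨1, h⟩, ⟨2, h⟩]

/-! ### The place `t = 0`: `v t = exp (-1)` -/

/-- Congruence modulo `t²`. -/
def Cg (v : Valuation K ℤᵐ⁰) (x x0 : K) : Prop := B v (-2) (x - x0)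

lemma Cg.bdd {x x0 : K} (h : Cg v x x0) (h0 : B v 0 x0) : B v 0 x := by
  have := (h.mono (by norm_num : (-2 : ℤ) ≤ 0)).add h0
  rwa [sub_add_cancel] at this

lemma Cg.mul {x x0 y y0 : K} (hx : Cg v x x0) (hy : Cg v y y0) (hx0 : B v 0 x0) (hy0 : B v 0 y0) :
    Cg v (x * y) (x0 * y0) := by
  have e : x * y - x0 * y0 = (x - x0) * y + x0 * (y - y0) := by ring
  unfold Cg
  rw [e]
  exact ((B.mul hx (hy.bdd hy0)).mono (by norm_num)).add ((hx0.mul hy).mono (by norm_num))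

lemma Cg.add {x x0 y y0 : K} (hx : Cg v x x0) (hy : Cg v y y0) : Cg v (x + y) (x0 + y0) := by
  have e : x + y - (x0 + y0) = (x - x0) + (y - y0) := by ring
  unfold Cg
  rw [e]; exact B.add hx hy

lemma Cg.sub {x x0 y y0 : K} (hx : Cg v x x0) (hy : Cg v y y0) : Cg v (x - y) (x0 - y0) := by
  have e : x - y - (x0 - y0) = (x - x0) - (y - y0) := by ring
  unfold Cg
  rw [e]; exact B.sub hx hy

lemma Cg.of_B {x : K} (hx : B v (-2) x) : Cg v x 0 := by
  unfold Cg; rwa [sub_zero]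

lemma Cg.toB {x : K} (hx : Cg v x 0) : B v (-2) x := by
  unfold Cg at hx; rwa [sub_zero] at hx

lemma Cg.zero_sub_sq {x y y0 : K} (hx : B v (-2) x) (hy : Cg v y y0) (hy0 : B v 0 y0) :
    Cg v (x - y ^ 2) (-(y0 ^ 2)) := by
  have h1 : Cg v (y * y) (y0 * y0) := hy.mul hy hy0 hy0
  have h2 := (Cg.of_B hx).sub h1
  rwa [← pow_two, ← pow_two, zero_sub] at h2

end General

section Zero

variable {K : Type*} [Field K] [Algebra ℂ K] {v : Valuation K ℤᵐ⁰}

lemma constB (hc : ∀ c : ℂ, c ≠ 0 → v (algebraMap ℂ K c) = 1) (c : ℂ) :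
    B v 0 (algebraMap ℂ K c) := by
  unfold B
  by_cases h : c = 0
  · simp [h]
  · rw [hc c h, exp_zero]

/-- State `V(a,b)` at `t = 0`. -/
def StV (v : Valuation K ℤᵐ⁰) (y : Fin 6 → K) (k a b : ℂ) : Prop :=
  B v (-1) (y 0) ∧ B v (-1) (y 1) ∧ B v (-1) (y 2) ∧
    Cg v (y 3) (algebraMap ℂ K (k * a)) ∧ Cg v (y 4) (algebraMap ℂ K (k * b)) ∧
    Cg v (y 5) (algebraMap ℂ K k)

/-- State `U(b)` at `t = 0`. -/
def StU (v : Valuation K ℤᵐ⁰) (y : Fin 6 → K) (k b : ℂ) : Prop :=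
  Cg v (y 0) (algebraMap ℂ K (k * b ^ 2)) ∧ B v (-2) (y 1) ∧ Cg v (y 2) (algebraMap ℂ K k) ∧
    B v (-1) (y 3) ∧ B v (-1) (y 4) ∧ B v (-1) (y 5)

lemma cg_q {X Y s : K} {x0 y0 z0 : ℂ} (hc : ∀ c : ℂ, c ≠ 0 → v (algebraMap ℂ K c) = 1)
    (hX : Cg v X (algebraMap ℂ K x0)) (hY : Cg v Y (algebraMap ℂ K y0)) (hs : B v (-1) s)
    (hz : z0 = x0 * y0) :
    Cg v (X * Y - s ^ 2) (algebraMap ℂ K z0) := by
  have h1 := (hX.mul hY (constB hc _) (constB hc _))
  have h2 := h1.sub (Cg.of_B (hs.sq.mono (by norm_num)))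
  rw [sub_zero, ← map_mul] at h2
  rwa [hz]

lemma stV_succ {t : K} (ht : v t = exp (-1))
    (hc : ∀ c : ℂ, c ≠ 0 → v (algebraMap ℂ K c) = 1) {y : Fin 6 → K} {k a b : ℂ}
    (h : StV v y k (a + 1) b) : StV v (step t y) (k ^ 2 * (a + 1)) a (b + 1) := by
  obtain ⟨h0, h1, h2, h3, h4, h5⟩ := h
  have ht' : B v (-1) t := ht.le
  have e35 : Cg v (y 3 - y 5) (algebraMap ℂ K (k * (a + 1) - k)) := by
    rw [map_sub]; exact h3.sub h5
  have e45 : Cg v (y 4 + y 5) (algebraMap ℂ K (k * b + k)) := by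
    rw [map_add]; exact h4.add h5
  have q0 : Cg v (y 3 * (y 3 - y 5) - y 0 ^ 2) (algebraMap ℂ K (k ^ 2 * (a + 1) * a)) :=
    cg_q hc h3 e35 h0 (by ring)
  have q1 : Cg v (y 3 * (y 4 + y 5) - y 1 ^ 2) (algebraMap ℂ K (k ^ 2 * (a + 1) * (b + 1))) :=
    cg_q hc h3 e45 h1 (by ring)
  have q2 : Cg v (y 3 * y 5 - y 2 ^ 2) (algebraMap ℂ K (k ^ 2 * (a + 1))) :=
    cg_q hc h3 h5 h2 (by ring)
  have c3 : B v 0 (y 3) := h3.bdd (constB hc _)
  have c4 : B v 0 (y 4) := h4.bdd (constB hc _)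
  have c5 : B v 0 (y 5) := h5.bdd (constB hc _)
  refine ⟨?_, ?_, ?_, ?_, ?_, ?_⟩
  · rw [step0]; exact (ht'.mul ((c4.sq.mono (by norm_num : 2 * (0:ℤ) ≤ 0)).sub
      (q0.bdd (constB hc _)))).mono (by norm_num)
  · rw [step1]; exact (ht'.mul ((c3.sq.mono (by norm_num : 2 * (0:ℤ) ≤ 0)).sub
      (q1.bdd (constB hc _)))).mono (by norm_num)
  · rw [step2]; exact (ht'.mul ((c5.sq.mono (by norm_num : 2 * (0:ℤ) ≤ 0)).sub
      (q2.bdd (constB hc _)))).mono (by norm_num)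
  · rw [step3]; exact q0
  · rw [step4]; exact q1
  · rw [step5]; exact q2

lemma stV_zero {t : K} (ht : v t = exp (-1)) (ht0 : t ≠ 0)
    (hc : ∀ c : ℂ, c ≠ 0 → v (algebraMap ℂ K c) = 1) {y : Fin 6 → K} {k b : ℂ}
    (h : StV v y k 0 b) : ∃ y', step t y = t • y' ∧ StU v y' (k ^ 2) b := by
  obtain ⟨h0, h1, h2, h3, h4, h5⟩ := h
  rw [mul_zero, map_zero] at h3
  have h3' : B v (-2) (y 3) := h3.toB
  have c3 : B v 0 (y 3) := h3'.mono (by norm_num)
  have c4 : B v 0 (y 4) := h4.bdd (constB hc _)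
  have c5 : B v 0 (y 5) := h5.bdd (constB hc _)
  have q0 : B v (-2) (y 3 * (y 3 - y 5) - y 0 ^ 2) :=
    ((h3'.mul (c3.sub c5)).mono (by norm_num)).sub (h0.sq.mono (by norm_num))
  have q1 : B v (-2) (y 3 * (y 4 + y 5) - y 1 ^ 2) :=
    ((h3'.mul (c4.add c5)).mono (by norm_num)).sub (h1.sq.mono (by norm_num))
  have q2 : B v (-2) (y 3 * y 5 - y 2 ^ 2) :=
    ((h3'.mul c5).mono (by norm_num)).sub (h2.sq.mono (by norm_num))
  have hti : B v 1 t⁻¹ := by
    unfold B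
    rw [map_inv₀, ht, ← exp_neg, neg_neg]
  refine ⟨![y 4 ^ 2 - (y 3 * (y 3 - y 5) - y 0 ^ 2),
    y 3 ^ 2 - (y 3 * (y 4 + y 5) - y 1 ^ 2),
    y 5 ^ 2 - (y 3 * y 5 - y 2 ^ 2),
    t⁻¹ * (y 3 * (y 3 - y 5) - y 0 ^ 2),
    t⁻¹ * (y 3 * (y 4 + y 5) - y 1 ^ 2),
    t⁻¹ * (y 3 * y 5 - y 2 ^ 2)], ?_, ?_, ?_, ?_, ?_, ?_, ?_⟩
  · funext i
    revert i
    apply forall6
    · rfl
    · rfl
    · rfl
    · change _ = t * (t⁻¹ * _); rw [mul_inv_cancel_left₀ ht0]; rfl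
    · change _ = t * (t⁻¹ * _); rw [mul_inv_cancel_left₀ ht0]; rfl
    · change _ = t * (t⁻¹ * _); rw [mul_inv_cancel_left₀ ht0]; rfl
  · change Cg v (y 4 ^ 2 - (y 3 * (y 3 - y 5) - y 0 ^ 2)) _
    have h := (h4.mul h4 (constB hc _) (constB hc _)).sub (Cg.of_B q0)
    rw [sub_zero, ← map_mul, ← pow_two] at h
    have e : k ^ 2 * b ^ 2 = k * b * (k * b) := by ring
    rwa [e]
  · change B v (-2) (y 3 ^ 2 - (y 3 * (y 4 + y 5) - y 1 ^ 2))
    exact (h3'.sq.mono (by norm_num)).sub q1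
  · change Cg v (y 5 ^ 2 - (y 3 * y 5 - y 2 ^ 2)) _
    have h := (h5.mul h5 (constB hc _) (constB hc _)).sub (Cg.of_B q2)
    rw [sub_zero, ← map_mul, ← pow_two] at h
    have e : k ^ 2 = k * k := by ring
    rwa [e]
  · change B v (-1) (t⁻¹ * _)
    exact (hti.mul q0).mono (by norm_num)
  · change B v (-1) (t⁻¹ * _)
    exact (hti.mul q1).mono (by norm_num)
  · change B v (-1) (t⁻¹ * _)
    exact (hti.mul q2).mono (by norm_num)

lemma stU_next {t : K} (ht : v t = exp (-1))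
    (hc : ∀ c : ℂ, c ≠ 0 → v (algebraMap ℂ K c) = 1) {y : Fin 6 → K} {k b : ℂ}
    (h : StU v y k b) : StV v (step t y) (-k ^ 2) (b ^ 4) 0 := by
  obtain ⟨h0, h1, h2, h3, h4, h5⟩ := h
  have ht' : B v (-1) t := ht.le
  have z3 : B v 0 (y 3) := h3.mono (by norm_num)
  have z4 : B v 0 (y 4) := h4.mono (by norm_num)
  have z5 : B v 0 (y 5) := h5.mono (by norm_num)
  have q0 : Cg v (y 3 * (y 3 - y 5) - y 0 ^ 2) (algebraMap ℂ K (-k ^ 2 * b ^ 4)) := by
    have := Cg.zero_sub_sq ((h3.mul (h3.sub h5)).mono (by norm_num)) h0 (constB hc _)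
    rw [← map_pow, ← map_neg] at this
    have e : -k ^ 2 * b ^ 4 = -(k * b ^ 2) ^ 2 := by ring
    rwa [e]
  have q1 : Cg v (y 3 * (y 4 + y 5) - y 1 ^ 2) (algebraMap ℂ K (-k ^ 2 * 0)) := by
    rw [mul_zero, map_zero]
    apply Cg.of_B
    exact ((h3.mul (h4.add h5)).mono (by norm_num)).sub (h1.sq.mono (by norm_num))
  have q2 : Cg v (y 3 * y 5 - y 2 ^ 2) (algebraMap ℂ K (-k ^ 2)) := by
    have := Cg.zero_sub_sq ((h3.mul h5).mono (by norm_num)) h2 (constB hc _)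
    rwa [← map_pow, ← map_neg] at this
  refine ⟨?_, ?_, ?_, ?_, ?_, ?_⟩
  · rw [step0]; exact (ht'.mul ((z4.sq.mono (by norm_num : 2 * (0:ℤ) ≤ 0)).sub
      (q0.bdd (constB hc _)))).mono (by norm_num)
  · rw [step1]; exact (ht'.mul ((z3.sq.mono (by norm_num : 2 * (0:ℤ) ≤ 0)).sub
      (q1.bdd (constB hc _)))).mono (by norm_num)
  · rw [step2]; exact (ht'.mul ((z5.sq.mono (by norm_num : 2 * (0:ℤ) ≤ 0)).sub
      (q2.bdd (constB hc _)))).mono (by norm_num)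
  · rw [step3]; exact q0
  · rw [step4]; exact q1
  · rw [step5]; exact q2

/-- The schedule. -/
def nxt : Bool × ℕ × ℕ → Bool × ℕ × ℕ
  | (false, a + 1, b) => (false, a, b + 1)
  | (false, 0, b) => (true, 0, b)
  | (true, _, b) => (false, b ^ 4, 0)

/-- Extraction of a factor `t`. -/
def rr : Bool × ℕ × ℕ → ℕ
  | (false, 0, _) => 1
  | (false, _ + 1, _) => 0
  | (true, _, _) => 0

/-- The state after `n` steps. -/
def sg (n : ℕ) : Bool × ℕ × ℕ := nxt^[n] (false, 2, 0)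

/-- Total order of vanishing. -/
def mm : ℕ → ℕ
  | 0 => 0
  | n + 1 => 2 * mm n + rr (sg n)

lemma sg_succ (n : ℕ) : sg (n + 1) = nxt (sg n) := Function.iterate_succ_apply' _ _ _

/-- The invariant at `t = 0`. -/
def Inv0 (v : Valuation K ℤᵐ⁰) : Bool × ℕ × ℕ → (Fin 6 → K) → Prop
  | (false, a, b), y => ∃ k : ℂ, k ≠ 0 ∧ StV v y k a b
  | (true, _, b), y => ∃ k : ℂ, k ≠ 0 ∧ StU v y k b

lemma inv0_next {t : K} (ht : v t = exp (-1)) (ht0 : t ≠ 0)
    (hc : ∀ c : ℂ, c ≠ 0 → v (algebraMap ℂ K c) = 1) (s : Bool × ℕ × ℕ) (y : Fin 6 → K)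
    (h : Inv0 v s y) : ∃ y', step t y = t ^ (rr s) • y' ∧ Inv0 v (nxt s) y' := by
  obtain ⟨s1, s2, s3⟩ := s
  cases s1 with
  | false =>
    cases s2 with
    | zero =>
      obtain ⟨k, hk, h⟩ := h
      rw [Nat.cast_zero] at h
      obtain ⟨y', h1, h2⟩ := stV_zero ht ht0 hc h
      exact ⟨y', by rw [h1]; simp [rr], k ^ 2, pow_ne_zero _ hk, h2⟩
    | succ a =>
      obtain ⟨k, hk, h⟩ := h
      rw [Nat.cast_add, Nat.cast_one] at h
      refine ⟨step t y, by simp [rr], k ^ 2 * (a + 1), ?_, ?_⟩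
      · exact mul_ne_zero (pow_ne_zero _ hk) (by exact_mod_cast Nat.succ_ne_zero a)
      · have := stV_succ ht hc h
        rw [Nat.cast_add, Nat.cast_one]
        exact this
  | true =>
    obtain ⟨k, hk, h⟩ := h
    refine ⟨step t y, by simp [rr], -k ^ 2, neg_ne_zero.mpr (pow_ne_zero _ hk), ?_⟩
    have := stU_next ht hc h
    rw [Nat.cast_pow, Nat.cast_zero]
    exact this

lemma val_of_cg (hc : ∀ c : ℂ, c ≠ 0 → v (algebraMap ℂ K c) = 1) {x : K} {k : ℂ} (hk : k ≠ 0)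
    (h : Cg v x (algebraMap ℂ K k)) : v x = 1 := by
  have h1 : v ((algebraMap ℂ K k) - (algebraMap ℂ K k - x)) = exp 0 := by
    refine val_sub_eq (m := -2) (n := 0) ?_ ?_ (by norm_num)
    · rw [hc k hk, exp_zero]
    · have := B.neg h
      rwa [neg_sub] at this
  rwa [sub_sub_cancel, exp_zero] at h1

lemma inv0_max (hc : ∀ c : ℂ, c ≠ 0 → v (algebraMap ℂ K c) = 1) (s : Bool × ℕ × ℕ)
    (y : Fin 6 → K) (h : Inv0 v s y) : (∀ i, v (y i) ≤ 1) ∧ ∃ i, v (y i) = 1 := by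
  obtain ⟨s1, s2, s3⟩ := s
  have key : ∀ {x : K}, B v 0 x → v x ≤ 1 := fun h => by
    unfold B at h; rwa [exp_zero] at h
  cases s1 with
  | false =>
    obtain ⟨k, hk, h0, h1, h2, h3, h4, h5⟩ := h
    refine ⟨forall6 (key (h0.mono (by norm_num))) (key (h1.mono (by norm_num)))
      (key (h2.mono (by norm_num))) (key (h3.bdd (constB hc _))) (key (h4.bdd (constB hc _)))
      (key (h5.bdd (constB hc _))), 5, val_of_cg hc hk h5⟩
  | true =>
    obtain ⟨k, hk, h0, h1, h2, h3, h4, h5⟩ := h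
    refine ⟨forall6 (key (h0.bdd (constB hc _))) (key (h1.mono (by norm_num)))
      (key (h2.bdd (constB hc _))) (key (h3.mono (by norm_num))) (key (h4.mono (by norm_num)))
      (key (h5.mono (by norm_num))), 2, val_of_cg hc hk h2⟩

/-- The starting point. -/
def x0 (K : Type*) [Field K] : Fin 6 → K := ![0, 0, 0, 2, 0, 1]

lemma iter_zero {t : K} (ht : v t = exp (-1)) (ht0 : t ≠ 0)
    (hc : ∀ c : ℂ, c ≠ 0 → v (algebraMap ℂ K c) = 1) (n : ℕ) :
    ∃ y', (step t)^[n] (x0 K) = t ^ (mm n) • y' ∧ Inv0 v (sg n) y' := by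
  induction n with
  | zero =>
    refine ⟨x0 K, by simp [mm], 1, one_ne_zero, B.zero _, B.zero _, B.zero _, ?_, ?_, ?_⟩
    · change B v (-2) (2 - _)
      rw [one_mul, Nat.cast_ofNat, map_ofNat, sub_self]; exact B.zero _
    · change B v (-2) (0 - _)
      rw [Nat.cast_zero, mul_zero, map_zero, sub_self]; exact B.zero _
    · change B v (-2) (1 - _)
      rw [map_one, sub_self]; exact B.zero _
  | succ n ih =>
    obtain ⟨y', h1, h2⟩ := ih
    obtain ⟨y'', h3, h4⟩ := inv0_next ht ht0 hc _ _ h2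
    refine ⟨y'', ?_, ?_⟩
    · rw [Function.iterate_succ_apply', h1, step_smul, h3, smul_smul, mm]
      congr 1
      rw [← pow_mul, ← pow_add]; congr 1; ring
    · rw [sg_succ]; exact h4

lemma sInf_zero {t : K} (ht : v t = exp (-1)) (ht0 : t ≠ 0)
    (hc : ∀ c : ℂ, c ≠ 0 → v (algebraMap ℂ K c) = 1) (n : ℕ) :
    sInf {m : ℤ | ∀ i, v ((step t)^[n] (x0 K) i) ≤ exp m} = -(mm n : ℤ) := by
  obtain ⟨y', h1, h2⟩ := iter_zero ht ht0 hc n
  obtain ⟨h3, i, h4⟩ := inv0_max hc _ _ h2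
  have e : v (t ^ (mm n)) = exp (-(mm n : ℤ)) := by
    rw [map_pow, ht, ← exp_nsmul]; congr 1; simp
  apply sInf_eq
  · intro j
    rw [h1, Pi.smul_apply, smul_eq_mul, map_mul, e]
    exact mul_le_of_le_one_right' (h3 j)
  · refine ⟨i, ?_⟩
    rw [h1, Pi.smul_apply, smul_eq_mul, map_mul, e, h4, mul_one]

lemma sInf_unit {t : K} (ht : v t = 1)
    (hc : ∀ c : ℂ, c ≠ 0 → v (algebraMap ℂ K c) = 1) (n : ℕ) :
    sInf {m : ℤ | ∀ i, v ((step t)^[n] (x0 K) i) ≤ exp m} = 0 := by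
  have h : (∀ i, v ((step t)^[n] (x0 K) i) ≤ 1) ∧ ∃ i, v ((step t)^[n] (x0 K) i) = 1 := by
    induction n with
    | zero =>
      refine ⟨forall6 ?_ ?_ ?_ ?_ ?_ ?_, 5, ?_⟩
      · change v 0 ≤ 1; simp
      · change v 0 ≤ 1; simp
      · change v 0 ≤ 1; simp
      · change v 2 ≤ 1
        have := hc 2 two_ne_zero
        rw [map_ofNat] at this
        exact this.le
      · change v 0 ≤ 1; simp
      · change v 1 ≤ 1; simp
      · change v 1 = 1; simp
    | succ n ih =>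
      rw [Function.iterate_succ_apply']
      exact unit_step ht ih.1 ih.2
  apply sInf_eq
  · simpa using h.1
  · simpa using h.2

lemma sInf_inf {t : K} (ht : v t = exp 1)
    (hc : ∀ c : ℂ, c ≠ 0 → v (algebraMap ℂ K c) = 1) (n : ℕ) :
    sInf {m : ℤ | ∀ i, v ((step t)^[n] (x0 K) i) ≤ exp m} = 2 ^ n - 1 := by
  have h2' : v (2 : K) = 1 := by
    have := hc 2 two_ne_zero
    rwa [map_ofNat] at this
  cases n with
  | zero =>
    apply sInf_eq
    · rw [pow_zero, sub_self, exp_zero]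
      refine forall6 ?_ ?_ ?_ ?_ ?_ ?_
      · change v 0 ≤ 1; simp
      · change v 0 ≤ 1; simp
      · change v 0 ≤ 1; simp
      · change v 2 ≤ 1
        exact h2'.le
      · change v 0 ≤ 1; simp
      · change v 1 ≤ 1; simp
    · refine ⟨5, ?_⟩
      change v 1 = _
      simp
  | succ n =>
    have h : InvInf v (2 ^ (n + 1) - 1) ((step t)^[n + 1] (x0 K)) := by
      induction n with
      | zero =>
        have e0 : step t (x0 K) 0 = - (t * 2) := by
          change t * ((0 : K) ^ 2 - (2 * (2 - 1) - 0 ^ 2)) = _; ring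
        have e1 : step t (x0 K) 1 = t * 2 := by
          change t * ((2 : K) ^ 2 - (2 * (0 + 1) - 0 ^ 2)) = _; ring
        have e2 : step t (x0 K) 2 = - t := by
          change t * ((1 : K) ^ 2 - (2 * 1 - 0 ^ 2)) = _; ring
        have e3 : step t (x0 K) 3 = 2 := by
          change (2 : K) * (2 - 1) - 0 ^ 2 = _; ring
        have e4 : step t (x0 K) 4 = 2 := by
          change (2 : K) * (0 + 1) - 0 ^ 2 = _; ring
        have e5 : step t (x0 K) 5 = 2 := by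
          change (2 : K) * 1 - 0 ^ 2 = _; ring
        have d : (2 : ℤ) ^ (0 + 1) - 1 = 1 := by norm_num
        rw [d]
        change InvInf v 1 (step t (x0 K))
        unfold InvInf B
        rw [e0, e1, e2, e3, e4, e5, Valuation.map_neg, Valuation.map_neg, map_mul, ht, h2']
        simp
      | succ n ih =>
        rw [Function.iterate_succ_apply']
        have := inf_step ht ih
        have e : (2 : ℤ) ^ (n + 1 + 1) - 1 = 2 * (2 ^ (n + 1) - 1) + 1 := by ring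
        rw [e]; exact this
    obtain ⟨h3, h4⟩ := h.max
    exact sInf_eq h3 h4

end Zero

end Pool.Agent.H3.CanHt
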