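import Mathlib

/-! # Lacunary rational sequences detecting irrational numbers (for `MP_4ffaa3_nt`) -/

open Filter

namespace Pool.Agent.H3.LacFrac

/-- If `{θ j}` avoids `[1-ε,1)` for `N ≤ j < 2N`, then `θ` is very close to a rational with
small denominator. -/
lemma keyA {ε θ : ℝ} {Q M : ℕ} (hQ0 : 0 < Q) (hQ : 1 / ((Q : ℝ) + 1) < ε)
    (h : ∀ j : ℕ, Q * M + 1 ≤ j → j < 2 * (Q * M + 1) → Int.fract (θ * j) < 1 - ε) :
    ∃ a q : ℤ, 0 < q ∧ q ≤ Q ∧ (M : ℝ) * |q * θ - a| < 1 := by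
  obtain ⟨a, q, hq0, hqQ, hs⟩ := Real.exists_int_int_abs_mul_sub_le θ hQ0
  refine ⟨a, q, hq0, hqQ, ?_⟩
  obtain ⟨p, rfl⟩ : ∃ p : ℕ, q = p := ⟨q.toNat, (Int.toNat_of_nonneg hq0.le).symm⟩
  have hpQ : p ≤ Q := by exact_mod_cast hqQ
  obtain ⟨s, hsdef⟩ : ∃ s : ℝ, s = ((p : ℤ) : ℝ) * θ - a := ⟨_, rfl⟩
  rw [← hsdef] at hs ⊢
  have hsε : |s| < ε := lt_of_le_of_lt hs hQ
  obtain ⟨x, hx⟩ : ∃ x : ℝ, x = Int.fract (θ * ((Q * M + 1 : ℕ) : ℝ)) := ⟨_, rfl⟩
  have hx0 : 0 ≤ x := by rw [hx]; exact Int.fract_nonneg _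
  have hx1 : x < 1 := by rw [hx]; exact Int.fract_lt_one _
  have hfr : ∀ i : ℕ, i ≤ M → Int.fract (x + i * s) < 1 - ε := by
    intro i hi
    have h1 := h (Q * M + 1 + p * i) (by omega) (by nlinarith [Nat.mul_le_mul hpQ hi])
    have e : θ * ((Q * M + 1 + p * i : ℕ) : ℝ) =
        (x + i * s) + ((⌊θ * ((Q * M + 1 : ℕ) : ℝ)⌋ + i * a : ℤ) : ℝ) := by
      have h2 : θ * ((Q * M + 1 : ℕ) : ℝ) = ⌊θ * ((Q * M + 1 : ℕ) : ℝ)⌋ + x := by
        rw [hx]; exact (Int.floor_add_fract _).symm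
      have h3 : θ * ((Q * M + 1 + p * i : ℕ) : ℝ) = θ * ((Q * M + 1 : ℕ) : ℝ) + i * (p * θ) := by
        push_cast; ring
      have h4 : (p : ℝ) * θ = s + a := by
        rw [hsdef]; push_cast; ring
      rw [h3, h4]
      push_cast at h2 ⊢
      linarith
    rw [e, Int.fract_add_intCast] at h1
    exact h1
  rcases le_or_gt 0 s with hs0 | hs0
  · have key : ∀ i : ℕ, i ≤ M → x + i * s < 1 - ε := by
      intro i
      induction i with
      | zero =>
        intro hi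
        have := hfr 0 hi
        rw [Nat.cast_zero, zero_mul, add_zero] at this ⊢
        rwa [Int.fract_eq_self.mpr ⟨hx0, hx1⟩] at this
      | succ i ih =>
        intro hi
        have h1 := ih (by omega)
        have h2 := hfr (i + 1) hi
        have h3 : 0 ≤ x + ((i + 1 : ℕ) : ℝ) * s := by positivity
        have h4 : x + ((i + 1 : ℕ) : ℝ) * s < 1 := by
          push_cast
          have := (abs_lt.mp hsε).2
          linarith
        rwa [Int.fract_eq_self.mpr ⟨h3, h4⟩] at h2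
    have h1 := key M le_rfl
    have hε : 0 < ε := lt_of_le_of_lt (abs_nonneg _) hsε
    rw [abs_of_nonneg hs0]
    linarith
  · have key : ∀ i : ℕ, i ≤ M → 0 ≤ x + i * s := by
      intro i
      induction i with
      | zero => intro _; simpa using hx0
      | succ i ih =>
        intro hi
        have h1 := ih (by omega)
        have h2 := hfr (i + 1) hi
        by_contra hneg
        rw [not_le] at hneg
        have h3 : -ε < x + ((i + 1 : ℕ) : ℝ) * s := by
          push_cast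
          have := (abs_lt.mp hsε).1
          linarith
        have hi1 : ((i + 1 : ℕ) : ℝ) * s ≤ s := by
          push_cast
          nlinarith [Nat.cast_nonneg (α := ℝ) i]
        have h5 : -1 ≤ x + ((i + 1 : ℕ) : ℝ) * s ∨ x + ((i + 1 : ℕ) : ℝ) * s < -1 := le_or_gt _ _
        have hεle : ε ≤ 1 := by
          have := Int.fract_nonneg (x + ((i + 1 : ℕ) : ℝ) * s)
          linarith
        have h6 : Int.fract (x + ((i + 1 : ℕ) : ℝ) * s) = x + ((i + 1 : ℕ) : ℝ) * s + 1 := by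
          rw [Int.fract_eq_iff]
          refine ⟨by linarith, by linarith, -1, ?_⟩
          push_cast; ring
        rw [h6] at h2
        linarith
    have h1 := key M le_rfl
    rw [abs_of_neg hs0]
    linarith

/-- Main rigidity statement. -/
lemma rational_of_small {ε ξ : ℝ} {Q M k0 : ℕ} (hQ0 : 0 < Q) (hQ : 1 / ((Q : ℝ) + 1) < ε)
    (hM : 3 * Q ≤ M)
    (h : ∀ k ≥ k0, ∀ j : ℕ, Q * M + 1 ≤ j → j < 2 * (Q * M + 1) →
      Int.fract (ξ * 2 ^ k * j) < 1 - ε) :
    ∃ r : ℚ, ξ = r := by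
  have hM0 : 0 < M := by omega
  have hMr : (0 : ℝ) < M := by exact_mod_cast hM0
  have hA : ∀ k : ℕ, ∃ a q : ℤ, 0 < q ∧ q ≤ Q ∧
      (M : ℝ) * |q * (ξ * 2 ^ (k0 + k)) - a| < 1 := fun k =>
    keyA hQ0 hQ (h (k0 + k) (by omega))
  choose a q hq0 hqQ hs using hA
  have step : ∀ k, 2 * q (k + 1) * a k = q k * a (k + 1) := by
    intro k
    have h1 := hs k
    have h2 := hs (k + 1)
    have e2 : ξ * 2 ^ (k0 + (k + 1)) = 2 * (ξ * 2 ^ (k0 + k)) := by
      rw [← add_assoc, pow_succ]; ring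
    rw [e2] at h2
    obtain ⟨θ, hθ⟩ : ∃ θ : ℝ, θ = ξ * 2 ^ (k0 + k) := ⟨_, rfl⟩
    rw [← hθ] at h1 h2
    have hq1 : (0 : ℝ) < q k := by exact_mod_cast hq0 k
    have hq2 : (0 : ℝ) < q (k + 1) := by exact_mod_cast hq0 (k + 1)
    have hQ1 : (q k : ℝ) ≤ Q := by exact_mod_cast hqQ k
    have hQ2 : (q (k + 1) : ℝ) ≤ Q := by exact_mod_cast hqQ (k + 1)
    have hMQ : 3 * (Q : ℝ) ≤ M := by exact_mod_cast hM
    have h3 : |((2 * q (k + 1) * a k - q k * a (k + 1) : ℤ) : ℝ)| < 1 := by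
      have e : ((2 * q (k + 1) * a k - q k * a (k + 1) : ℤ) : ℝ) =
          -(2 * q (k + 1) * (q k * θ - a k)) + q k * (q (k + 1) * (2 * θ) - a (k + 1)) := by
        push_cast; ring
      rw [e]
      have t1 : |-(2 * (q (k + 1) : ℝ) * (q k * θ - a k))| ≤ 2 * Q * |q k * θ - a k| := by
        rw [abs_neg, abs_mul, abs_of_pos (by positivity : (0 : ℝ) < 2 * q (k + 1))]
        gcongr
      have t2 : |(q k : ℝ) * (q (k + 1) * (2 * θ) - a (k + 1))| ≤
          Q * |q (k + 1) * (2 * θ) - a (k + 1)| := by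
        rw [abs_mul, abs_of_pos hq1]
        gcongr
      have t3 := abs_add_le (-(2 * (q (k + 1) : ℝ) * (q k * θ - a k)))
        ((q k : ℝ) * (q (k + 1) * (2 * θ) - a (k + 1)))
      have hQr : (0 : ℝ) < Q := by exact_mod_cast hQ0
      have u1 : |(q k : ℝ) * θ - a k| < 1 / M := by
        rw [lt_div_iff₀ hMr, mul_comm]; exact h1
      have u2 : |(q (k + 1) : ℝ) * (2 * θ) - a (k + 1)| < 1 / M := by
        rw [lt_div_iff₀ hMr, mul_comm]; exact h2
      calc _ ≤ _ := t3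
        _ ≤ 2 * Q * |q k * θ - a k| + Q * |q (k + 1) * (2 * θ) - a (k + 1)| := add_le_add t1 t2
        _ < 2 * Q * (1 / M) + Q * (1 / M) := by
            apply add_lt_add
            · exact mul_lt_mul_of_pos_left u1 (by positivity)
            · exact mul_lt_mul_of_pos_left u2 hQr
        _ = (3 * Q) / M := by ring
        _ ≤ 1 := by rw [div_le_one hMr]; exact hMQ
    have h4 : |2 * q (k + 1) * a k - q k * a (k + 1)| < 1 := by exact_mod_cast h3
    have h5 := Int.abs_lt_one_iff.mp h4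
    linarith
  have ratio : ∀ k, (a k : ℝ) / q k = 2 ^ k * ((a 0 : ℝ) / q 0) := by
    intro k
    induction k with
    | zero => simp
    | succ k ih =>
      have hq1 : (q k : ℝ) ≠ 0 := by exact_mod_cast (hq0 k).ne'
      have hq2 : (q (k + 1) : ℝ) ≠ 0 := by exact_mod_cast (hq0 (k + 1)).ne'
      have h1 : (2 : ℝ) * q (k + 1) * a k = q k * a (k + 1) := by exact_mod_cast step k
      have h2 : (a (k + 1) : ℝ) / q (k + 1) = 2 * ((a k : ℝ) / q k) := by
        field_simp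
        linarith
      rw [h2, ih, pow_succ]; ring
  have bound : ∀ k : ℕ, 2 ^ k * |ξ * 2 ^ k0 - (a 0 : ℝ) / q 0| ≤ 1 := by
    intro k
    have h1 := hs k
    have hq1 : (1 : ℝ) ≤ q k := by exact_mod_cast hq0 k
    have hq1' : (q k : ℝ) ≠ 0 := by positivity
    have hMone : (1 : ℝ) ≤ M := by exact_mod_cast hM0
    have e : (q k : ℝ) * (ξ * 2 ^ (k0 + k)) - a k =
        q k * (2 ^ k * (ξ * 2 ^ k0 - (a 0 : ℝ) / q 0)) := by
      have : (a k : ℝ) = q k * ((a k : ℝ) / q k) := by field_simp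
      rw [this, ratio k, pow_add]; ring
    rw [e, abs_mul, abs_mul, abs_of_pos (by positivity : (0 : ℝ) < q k),
      abs_of_pos (by positivity : (0 : ℝ) < 2 ^ k)] at h1
    obtain ⟨y, hy⟩ : ∃ y : ℝ, y = 2 ^ k * |ξ * 2 ^ k0 - (a 0 : ℝ) / q 0| := ⟨_, rfl⟩
    rw [← hy] at h1 ⊢
    have hy0 : 0 ≤ y := by rw [hy]; positivity
    have h2 : y ≤ q k * y := le_mul_of_one_le_left hy0 hq1
    have h3 : (q k : ℝ) * y ≤ M * (q k * y) := le_mul_of_one_le_left (by positivity) hMone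
    linarith
  have hz : ξ * 2 ^ k0 - (a 0 : ℝ) / q 0 = 0 := by
    by_contra hne
    have hpos : 0 < |ξ * 2 ^ k0 - (a 0 : ℝ) / q 0| := abs_pos.mpr hne
    obtain ⟨k, hk⟩ := pow_unbounded_of_one_lt (1 / |ξ * 2 ^ k0 - (a 0 : ℝ) / q 0|)
      (by norm_num : (1 : ℝ) < 2)
    rw [div_lt_iff₀ hpos] at hk
    linarith [bound k]
  refine ⟨((a 0 : ℚ) / q 0) / 2 ^ k0, ?_⟩
  push_cast
  rw [eq_div_iff (by positivity)]
  linarith

/-- The sequence. -/
def seq (N n : ℕ) : ℕ := 2 ^ (n / N) * (N + n % N)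

lemma seq_pos {N : ℕ} (hN : 0 < N) (n : ℕ) : 0 < seq N n := by
  unfold seq; positivity

lemma seq_step {N : ℕ} (hN : 0 < N) (n : ℕ) :
    (1 + 1 / (2 * (N : ℝ))) * (seq N n : ℝ) < (seq N (n + 1) : ℝ) := by
  have hNr : (0 : ℝ) < N := by exact_mod_cast hN
  have hmod := Nat.mod_lt n hN
  have h1 : seq N n + 2 ^ (n / N) ≤ seq N (n + 1) := by
    unfold seq
    by_cases hlast : n % N + 1 = N
    · have e1 : (n + 1) / N = n / N + 1 := by
        rw [Nat.succ_div]
        have : N ∣ n + 1 := by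
          refine ⟨n / N + 1, ?_⟩
          have := Nat.div_add_mod n N
          rw [mul_add, mul_one]; omega
        rw [if_pos this]
      have e2 : (n + 1) % N = 0 := by
        apply Nat.mod_eq_zero_of_dvd
        refine ⟨n / N + 1, ?_⟩
        have := Nat.div_add_mod n N
        rw [mul_add, mul_one]; omega
      rw [e1, e2, pow_succ]
      have : N + n % N + 1 = 2 * N := by omega
      calc 2 ^ (n / N) * (N + n % N) + 2 ^ (n / N) = 2 ^ (n / N) * (N + n % N + 1) := by ring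
        _ = 2 ^ (n / N) * 2 * (N + 0) := by rw [this]; ring
        _ ≤ _ := le_rfl
    · have e0 : n + 1 = N * (n / N) + (n % N + 1) := by
        have := Nat.div_add_mod n N
        omega
      have e1 : (n + 1) / N = n / N := by
        have hc : n / N * N = N * (n / N) := mul_comm _ _
        apply Nat.div_eq_of_lt_le
        · omega
        · rw [add_mul, one_mul]; omega
      have e2 : (n + 1) % N = n % N + 1 := by
        rw [Nat.add_mod, Nat.mod_eq_of_lt (a := 1) (by omega)]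
        exact Nat.mod_eq_of_lt (by omega)
      rw [e1, e2]
      apply le_of_eq; ring
  have h2 : (seq N n : ℝ) + 2 ^ (n / N) ≤ seq N (n + 1) := by exact_mod_cast h1
  have h3 : (seq N n : ℝ) < 2 ^ (n / N) * (2 * N) := by
    have : seq N n < 2 ^ (n / N) * (2 * N) := by
      unfold seq
      exact Nat.mul_lt_mul_of_pos_left (by omega) (by positivity)
    exact_mod_cast this
  have h4 : 1 / (2 * (N : ℝ)) * (seq N n : ℝ) < 2 ^ (n / N) := by
    rw [one_div, inv_mul_lt_iff₀ (by positivity), mul_comm]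
    exact h3
  linarith [add_mul (1 : ℝ) (1 / (2 * (N : ℝ))) (seq N n : ℝ)]

lemma seq_hit {N : ℕ} (hN : 0 < N) (k j : ℕ) (h1 : N ≤ j) (h2 : j < 2 * N) :
    seq N (N * k + (j - N)) = 2 ^ k * j := by
  unfold seq
  rw [Nat.mul_add_div hN, Nat.div_eq_of_lt (by omega), Nat.mul_add_mod,
    Nat.mod_eq_of_lt (by omega), add_zero]
  congr 1; omega

theorem main (ε : ℝ) (hε : 0 < ε) : ∃ t : ℕ → ℕ, (∀ n, 0 < t n) ∧
    (∃ c > (1 : ℝ), ∀ᶠ k in atTop, c * (t k : ℝ) < (t (k + 1) : ℝ)) ∧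
    ∀ ξ : ℝ, (¬ ∃ r : ℚ, ξ = r) → (1 - ε) ≤ limsup (fun n => Int.fract (ξ * (t n : ℝ))) atTop := by
  obtain ⟨Q0, hQ0⟩ := exists_nat_one_div_lt hε
  obtain ⟨Q, hQ⟩ : ∃ Q, Q = Q0 + 1 := ⟨_, rfl⟩
  have hQpos : 0 < Q := by omega
  have hQε : 1 / ((Q : ℝ) + 1) < ε := by
    refine lt_of_le_of_lt ?_ hQ0
    apply one_div_le_one_div_of_le (by positivity)
    rw [hQ]; push_cast; linarith
  obtain ⟨N, hN⟩ : ∃ N, N = Q * (3 * Q) + 1 := ⟨_, rfl⟩
  have hNpos : 0 < N := by omega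
  refine ⟨seq N, seq_pos hNpos, ⟨1 + 1 / (2 * (N : ℝ)), ?_, Eventually.of_forall
    (seq_step hNpos)⟩, ?_⟩
  · have : (0 : ℝ) < 1 / (2 * (N : ℝ)) := by positivity
    linarith
  · intro ξ hξ
    by_contra hlt
    rw [not_le] at hlt
    have hev := eventually_lt_of_limsup_lt hlt
      (isBoundedUnder_of ⟨1, fun n => (Int.fract_lt_one _).le⟩)
    obtain ⟨n0, hn0⟩ := eventually_atTop.mp hev
    apply hξ
    refine rational_of_small (k0 := n0) hQpos hQε le_rfl ?_
    intro k hk j hj1 hj2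
    rw [← hN] at hj1 hj2
    have h1 := hn0 (N * k + (j - N)) (by nlinarith)
    rw [seq_hit hNpos k j hj1 hj2] at h1
    push_cast at h1
    rwa [← mul_assoc] at h1

end Pool.Agent.H3.LacFrac
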