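import Pool.Agent.H3.PowExpBasic

/-! # From inequalities to exponents (for `MP_9b3446_nt`) -/

namespace Pool.Agent.H3.PowExp

open Polynomial
open scoped NNReal ENNReal

lemma rpow_neg_mul_le {C a b W : ℝ} (hC : 0 < C) (ha : 0 < a) (hW : 0 ≤ W) (h : a ≤ C * b)
    (hb : 0 < b) : C ^ (-W) * b ^ (-W) ≤ a ^ (-W) := by
  rw [← Real.mul_rpow hC.le hb.le]
  exact Real.rpow_le_rpow_of_nonpos ha h (by linarith)

/-- Induction on the degree. -/
lemma lower_bound (x : ℝ) (N : ℕ) (W c : ℝ) (hW : 0 ≤ W) (hc : 0 < c)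
    (h : ∀ H : ℕ, 1 ≤ H → ∃ F : ℤ[X], Irreducible F ∧ 1 ≤ F.natDegree ∧
      c * (ht F : ℝ) ^ (-W) ≤ |aeval x F| ∧
      ∀ P : ℤ[X], P ≠ 0 → P.natDegree ≤ N → ht P ≤ H → ¬ F ∣ P →
        c * (H : ℝ) ^ (-W) ≤ |aeval x P|) :
    ∃ c' : ℝ, 0 < c' ∧ ∀ P : ℤ[X], P ≠ 0 → P.natDegree ≤ N →
      c' * (ht P : ℝ) ^ (-W) ≤ |aeval x P| := by
  have key : ∀ m ≤ N, ∃ c' : ℝ, 0 < c' ∧ ∀ P : ℤ[X], P ≠ 0 → P.natDegree ≤ m →
      c' * (ht P : ℝ) ^ (-W) ≤ |aeval x P| := by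
    intro m
    induction m with
    | zero =>
      intro _
      refine ⟨1, one_pos, fun P hP hdeg => ?_⟩
      have hP' : P = C (P.coeff 0) := eq_C_of_natDegree_le_zero hdeg
      have h0 : P.coeff 0 ≠ 0 := by
        intro h0; rw [h0, C_0] at hP'; exact hP hP'
      have h1 : (1 : ℝ) ≤ |aeval x P| := by
        rw [hP', aeval_C]
        simp only [algebraMap_int_eq, eq_intCast]
        rw [← Int.cast_abs]
        exact_mod_cast Int.one_le_abs h0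
      have h2 : (1 : ℝ) ≤ ht P := by exact_mod_cast one_le_ht hP
      have h3 : (ht P : ℝ) ^ (-W) ≤ 1 := Real.rpow_le_one_of_one_le_of_nonpos h2 (by linarith)
      linarith
    | succ m ih =>
      intro hm
      obtain ⟨cm, hcm, ihm⟩ := ih (by omega)
      set K : ℝ := 2 ^ N * (N + 1) with hK
      have hKpos : 0 < K := by positivity
      have hKW : 0 < K ^ (-W) := Real.rpow_pos_of_pos hKpos _
      refine ⟨min c (c * cm * K ^ (-W)), lt_min hc (by positivity), fun P hP hdeg => ?_⟩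
      obtain ⟨F, hF, hF1, hF2, hF3⟩ := h (ht P) (one_le_ht hP)
      have hhp : (0 : ℝ) < ht P := by exact_mod_cast one_le_ht hP
      have hhpW : 0 < (ht P : ℝ) ^ (-W) := Real.rpow_pos_of_pos hhp _
      by_cases hdiv : F ∣ P
      · obtain ⟨Q, rfl⟩ := hdiv
        have hQ : Q ≠ 0 := right_ne_zero_of_mul hP
        have hF0 : F ≠ 0 := hF.ne_zero
        have hd : (F * Q).natDegree = F.natDegree + Q.natDegree := natDegree_mul hF0 hQ
        have hQd : Q.natDegree ≤ m := by omega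
        have h1 := ihm Q hQ hQd
        have hFh : (0 : ℝ) < ht F := by exact_mod_cast one_le_ht hF0
        have hQh : (0 : ℝ) < ht Q := by exact_mod_cast one_le_ht hQ
        have h2 : (ht F * ht Q : ℝ) ≤ K * ht (F * Q) := ht_mul_le F Q hF0 hQ (hdeg.trans hm)
        have h3 := rpow_neg_mul_le hKpos (mul_pos hFh hQh) hW h2 hhp
        rw [map_mul, abs_mul]
        have hFW : 0 < (ht F : ℝ) ^ (-W) := Real.rpow_pos_of_pos hFh _
        have hQW : 0 < (ht Q : ℝ) ^ (-W) := Real.rpow_pos_of_pos hQh _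
        calc min c (c * cm * K ^ (-W)) * (ht (F * Q) : ℝ) ^ (-W)
            ≤ (c * cm * K ^ (-W)) * (ht (F * Q) : ℝ) ^ (-W) := by
              apply mul_le_mul_of_nonneg_right (min_le_right _ _) hhpW.le
          _ = c * cm * (K ^ (-W) * (ht (F * Q) : ℝ) ^ (-W)) := by ring
          _ ≤ c * cm * (ht F * ht Q : ℝ) ^ (-W) := by gcongr
          _ = (c * (ht F : ℝ) ^ (-W)) * (cm * (ht Q : ℝ) ^ (-W)) := by
              rw [Real.mul_rpow hFh.le hQh.le]; ring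
          _ ≤ |aeval x F| * |aeval x Q| := by gcongr
      · have h1 := hF3 P hP (hdeg.trans hm) le_rfl hdiv
        calc min c (c * cm * K ^ (-W)) * (ht P : ℝ) ^ (-W) ≤ c * (ht P : ℝ) ^ (-W) := by
              apply mul_le_mul_of_nonneg_right (min_le_left _ _) hhpW.le
          _ ≤ _ := h1
  exact key N le_rfl

/-- Bounded heights from `c' h^(-W) ≤ K h^(-w)` with `w > W`. -/
lemma ht_bounded {c' K W w : ℝ} (hc : 0 < c') (hK : 0 < K) (hw : W < w) :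
    ∃ B : ℕ, ∀ h : ℕ, 1 ≤ h → c' * (h : ℝ) ^ (-W) ≤ K * (h : ℝ) ^ (-w) → h ≤ B := by
  refine ⟨⌈(K / c') ^ (1 / (w - W))⌉₊, fun h hh hle => ?_⟩
  have hpos : (0 : ℝ) < h := by exact_mod_cast hh
  have h1 : (h : ℝ) ^ (w - W) ≤ K / c' := by
    rw [le_div_iff₀ hc]
    have e1 : (h : ℝ) ^ (w - W) * (h : ℝ) ^ (-w) = (h : ℝ) ^ (-W) := by
      rw [← Real.rpow_add hpos]; congr 1; ring
    have h2 : 0 < (h : ℝ) ^ (-w) := Real.rpow_pos_of_pos hpos _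
    rw [← e1] at hle
    have : (h : ℝ) ^ (w - W) * c' * (h : ℝ) ^ (-w) ≤ K * (h : ℝ) ^ (-w) := by linarith
    exact le_of_mul_le_mul_right this h2
  have h3 : (h : ℝ) ≤ (K / c') ^ (1 / (w - W)) := by
    have hwW : 0 < w - W := by linarith
    have := Real.rpow_le_rpow (Real.rpow_nonneg hpos.le _) h1 (by positivity : 0 ≤ 1 / (w - W))
    rwa [← Real.rpow_mul hpos.le, mul_one_div_cancel hwW.ne', Real.rpow_one] at this
  exact_mod_cast h3.trans (Nat.le_ceil _)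

lemma wExp_le {n : ℕ} {x : ℝ} {W : ℝ≥0} {c' : ℝ} (hc : 0 < c')
    (h : ∀ P : ℤ[X], P ≠ 0 → P.natDegree ≤ n → c' * (ht P : ℝ) ^ (-(W : ℝ)) ≤ |aeval x P|) :
    wExp n x ≤ W := by
  refine iSup₂_le fun w hw => ?_
  by_contra hlt
  rw [not_le] at hlt
  have hlt' : (W : ℝ) < w := by exact_mod_cast hlt
  apply hw
  obtain ⟨B, hB⟩ := ht_bounded hc one_pos hlt'
  apply (finite_ht n B).subset
  rintro P ⟨h1, h2, h3⟩
  have hP : P ≠ 0 := by rintro rfl; simp at h2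
  refine ⟨h1, hB _ (one_le_ht hP) ?_⟩
  rw [one_mul]
  exact (h P hP h1).trans h3

lemma aeval_real_complex (x : ℝ) (P : ℤ[X]) : |aeval x P| = ‖aeval (x : ℂ) P‖ := by
  have : aeval (x : ℂ) P = ((aeval x P : ℝ) : ℂ) := by
    rw [show (x : ℂ) = algebraMap ℝ ℂ x from rfl, aeval_algebraMap_apply]
    rfl
  rw [this, Complex.norm_real, Real.norm_eq_abs]

lemma wStar_le {n : ℕ} {x : ℝ} {W : ℝ≥0} {c' : ℝ} (hc : 0 < c')
    (h : ∀ P : ℤ[X], P ≠ 0 → P.natDegree ≤ n → c' * (ht P : ℝ) ^ (-(W : ℝ)) ≤ |aeval x P|) :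
    wStar n x ≤ W := by
  refine iSup₂_le fun w hw => ?_
  by_contra hlt
  rw [not_le] at hlt
  have hlt' : (W : ℝ) < w := by exact_mod_cast hlt
  apply hw
  set K : ℝ := (n + 1) ^ 2 * (|x| + 1) ^ n with hK
  have hKpos : 0 < K := by positivity
  obtain ⟨B, hB⟩ := ht_bounded hc hKpos hlt'
  have hfin : (⋃ P ∈ {P : ℤ[X] | P.natDegree ≤ n ∧ ht P ≤ B}, (P.rootSet ℂ)).Finite := by
    apply Set.Finite.biUnion (finite_ht n B)
    intro P _
    exact rootSet_finite P ℂ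
  apply hfin.subset
  rintro α ⟨P, hP, hα, hdeg, h1, h2⟩
  have hP0 := hP.ne_zero
  have hh : (1 : ℝ) ≤ ht P := by exact_mod_cast one_le_ht hP0
  have hpos : (0 : ℝ) < ht P := by linarith
  have hle1 : ‖(x : ℂ) - α‖ ≤ 1 := by
    refine h2.trans (Real.rpow_le_one_of_one_le_of_nonpos hh ?_)
    have := w.2
    linarith
  have hα' : ‖α‖ ≤ |x| + 1 := by
    have : α = (x : ℂ) - ((x : ℂ) - α) := by ring
    rw [this]
    refine (norm_sub_le _ _).trans ?_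
    rw [Complex.norm_real, Real.norm_eq_abs]
    linarith
  have hx' : ‖(x : ℂ)‖ ≤ |x| + 1 := by
    rw [Complex.norm_real, Real.norm_eq_abs]; linarith
  have h3 := norm_aeval_sub_le P hdeg (B := |x| + 1) (by linarith [abs_nonneg x]) hx' hα'
  rw [hα, sub_zero, ← aeval_real_complex] at h3
  refine Set.mem_biUnion (x := P) ⟨hdeg, hB _ (one_le_ht hP0) ?_⟩ ?_
  · calc c' * (ht P : ℝ) ^ (-(W : ℝ)) ≤ |aeval x P| := h P hP0 hdeg
      _ ≤ K * ht P * ‖(x : ℂ) - α‖ := h3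
      _ ≤ K * ht P * (ht P : ℝ) ^ (-(w : ℝ) - 1) := by gcongr
      _ = K * (ht P : ℝ) ^ (-(w : ℝ)) := by
          rw [mul_assoc]
          congr 1
          rw [Real.rpow_sub_one hpos.ne']
          field_simp
  · rw [mem_rootSet]
    exact ⟨hP0, hα⟩

/-- Large `h` satisfy `C h^(-W) ≤ h^(-w)` if `w < W`. -/
lemma ht_large {C W w : ℝ} (hC : 0 < C) (hw : w < W) :
    ∃ B : ℕ, ∀ h : ℕ, B ≤ h → 1 ≤ h → C * (h : ℝ) ^ (-W) ≤ (h : ℝ) ^ (-w) := by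
  refine ⟨⌈C ^ (1 / (W - w))⌉₊, fun h hh h1 => ?_⟩
  have hpos : (0 : ℝ) < h := by exact_mod_cast h1
  have h2 : C ^ (1 / (W - w)) ≤ h := (Nat.le_ceil _).trans (by exact_mod_cast hh)
  have hWw : 0 < W - w := by linarith
  have h3 : C ≤ (h : ℝ) ^ (W - w) := by
    have := Real.rpow_le_rpow (Real.rpow_nonneg hC.le _) h2 hWw.le
    rwa [← Real.rpow_mul hC.le, one_div_mul_cancel hWw.ne', Real.rpow_one] at this
  have e1 : (h : ℝ) ^ (W - w) * (h : ℝ) ^ (-W) = (h : ℝ) ^ (-w) := by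
    rw [← Real.rpow_add hpos]; congr 1; ring
  rw [← e1]
  have h4 : 0 < (h : ℝ) ^ (-W) := Real.rpow_pos_of_pos hpos _
  gcongr

lemma le_wExp {n : ℕ} {x : ℝ} {W : ℝ≥0} {C : ℝ} (hC : 0 < C)
    (h : ∀ B : ℕ, ∃ P : ℤ[X], P.natDegree ≤ n ∧ B ≤ ht P ∧ 0 < |aeval x P| ∧
      |aeval x P| ≤ C * (ht P : ℝ) ^ (-(W : ℝ))) : (W : ℝ≥0∞) ≤ wExp n x := by
  apply le_of_forall_lt
  intro a ha
  obtain ⟨w, hw1, hw2⟩ := ENNReal.lt_iff_exists_nnreal_btwn.mp ha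
  refine lt_of_lt_of_le hw1 ?_
  have hwW : (w : ℝ) < W := by exact_mod_cast hw2
  obtain ⟨B, hB⟩ := ht_large hC hwW
  refine le_iSup₂_of_le w ?_ le_rfl
  intro hfin
  obtain ⟨B', hB'⟩ : ∃ B' : ℕ, ∀ P ∈ wSet n x w, ht P < B' := by
    have := (hfin.image ht).bddAbove
    obtain ⟨b, hb⟩ := this
    exact ⟨b + 1, fun P hP => Nat.lt_succ_of_le (hb ⟨P, hP, rfl⟩)⟩
  obtain ⟨P, h1, h2, h3, h4⟩ := h (max B B')
  have hP : P ≠ 0 := by rintro rfl; simp at h3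
  have : P ∈ wSet n x w :=
    ⟨h1, h3, h4.trans (hB _ ((le_max_left _ _).trans h2) (one_le_ht hP))⟩
  have h5 := hB' P this
  have h6 := (le_max_right B B').trans h2
  omega

lemma le_wStar {n : ℕ} {x : ℝ} {W : ℝ≥0} {C : ℝ} (hC : 0 < C)
    (h : ∀ B : ℕ, ∃ (P : ℤ[X]) (α : ℂ), Irreducible P ∧ aeval α P = 0 ∧ P.natDegree ≤ n ∧
      B ≤ ht P ∧ 0 < ‖(x : ℂ) - α‖ ∧ ‖(x : ℂ) - α‖ ≤ C * (ht P : ℝ) ^ (-(W : ℝ) - 1)) :
    (W : ℝ≥0∞) ≤ wStar n x := by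
  apply le_of_forall_lt
  intro a ha
  obtain ⟨w, hw1, hw2⟩ := ENNReal.lt_iff_exists_nnreal_btwn.mp ha
  refine lt_of_lt_of_le hw1 ?_
  have hwW : (w : ℝ) < W := by exact_mod_cast hw2
  obtain ⟨B, hB⟩ := ht_large (W := (W : ℝ) + 1) (w := (w : ℝ) + 1) hC (by linarith)
  refine le_iSup₂_of_le w ?_ le_rfl
  intro hfin
  -- the distances are bounded below
  obtain ⟨ε, hε, hε'⟩ : ∃ ε : ℝ, 0 < ε ∧ ∀ α ∈ wStarSet n x w, ε ≤ ‖(x : ℂ) - α‖ := by
    rcases (wStarSet n x w).eq_empty_or_nonempty with he | hne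
    · exact ⟨1, one_pos, by rw [he]; simp⟩
    · obtain ⟨α, hα, hmin⟩ := Set.exists_min_image (wStarSet n x w) (fun α => ‖(x : ℂ) - α‖) hfin hne
      obtain ⟨P, _, _, _, hpos, _⟩ := hα
      exact ⟨_, hpos, hmin⟩
  obtain ⟨B', hB'⟩ := exists_nat_gt (C / ε)
  obtain ⟨P, α, h0, h1, h2, h3, h4, h5⟩ := h (max (max B B') 1)
  have hhB : B ≤ ht P := ((le_max_left _ _).trans (le_max_left _ _)).trans h3
  have hhB' : B' ≤ ht P := ((le_max_right _ _).trans (le_max_left _ _)).trans h3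
  have hh1 : 1 ≤ ht P := (le_max_right _ _).trans h3
  have hmem : α ∈ wStarSet n x w := by
    refine ⟨P, h0, h1, h2, h4, h5.trans ?_⟩
    have := hB _ hhB hh1
    rw [show -(W : ℝ) - 1 = -((W : ℝ) + 1) by ring, show -(w : ℝ) - 1 = -((w : ℝ) + 1) by ring]
    exact this
  have h6 := hε' α hmem
  have hpos : (0 : ℝ) < ht P := by exact_mod_cast hh1
  have h7 : (ht P : ℝ) ^ (-(W : ℝ) - 1) ≤ (ht P : ℝ) ^ (-1 : ℝ) := by
    apply Real.rpow_le_rpow_of_exponent_le (by exact_mod_cast hh1)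
    have := W.2
    linarith
  rw [Real.rpow_neg_one] at h7
  have h8 : ε ≤ C * (ht P : ℝ)⁻¹ := by
    calc ε ≤ _ := h6
      _ ≤ _ := h5
      _ ≤ _ := by gcongr
  have h9 : (B' : ℝ) ≤ ht P := by exact_mod_cast hhB'
  rw [div_lt_iff₀ hε] at hB'
  rw [← div_eq_mul_inv, le_div_iff₀ hpos] at h8
  nlinarith

end Pool.Agent.H3.PowExp
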