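import Mathlib

/-! # The exponents of Mahler and Koksma (for `MP_9b3446_nt`) -/

namespace Pool.Agent.H3.PowExp

open Polynomial
open scoped NNReal ENNReal

/-- The height of an integer polynomial: maximum of the absolute values of its coefficients. -/
def ht (P : ℤ[X]) : ℕ := P.support.sup fun i => (P.coeff i).natAbs

/-- Polynomials `P` of degree at most `n` with `0 < |P(x)| ≤ H(P)^(-w)`. -/
def wSet (n : ℕ) (x w : ℝ) : Set ℤ[X] :=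
  {P | P.natDegree ≤ n ∧ 0 < |aeval x P| ∧ |aeval x P| ≤ (ht P : ℝ) ^ (-w)}

/-- Mahler's exponent `w_n(x) ∈ [0, ∞]`. -/
noncomputable def wExp (n : ℕ) (x : ℝ) : ℝ≥0∞ :=
  ⨆ (w : ℝ≥0) (_ : (wSet n x w).Infinite), (w : ℝ≥0∞)

/-- Algebraic numbers `α ∈ ℂ` of degree at most `n` with `0 < |x - α| ≤ H(α)^(-w-1)`; here `P` is
the minimal polynomial of `α` over `ℤ`. -/
def wStarSet (n : ℕ) (x w : ℝ) : Set ℂ :=
  {α | ∃ P : ℤ[X], Irreducible P ∧ aeval α P = 0 ∧ P.natDegree ≤ n ∧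
    0 < ‖(x : ℂ) - α‖ ∧ ‖(x : ℂ) - α‖ ≤ (ht P : ℝ) ^ (-w - 1)}

/-- Koksma's exponent `w_n^*(x) ∈ [0, ∞]`. -/
noncomputable def wStar (n : ℕ) (x : ℝ) : ℝ≥0∞ :=
  ⨆ (w : ℝ≥0) (_ : (wStarSet n x w).Infinite), (w : ℝ≥0∞)

end Pool.Agent.H3.PowExp
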