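import Mathlib
import Pool.Agent.H3.PowExpDefs

/-! # Heights, Liouville and Gelfond inequalities (for `MP_9b3446_nt`) -/

namespace Pool.Agent.H3.PowExp

open Polynomial

lemma coeff_le_ht (P : ℤ[X]) (i : ℕ) : (P.coeff i).natAbs ≤ ht P := by
  by_cases h : i ∈ P.support
  · exact Finset.le_sup (f := fun i => (P.coeff i).natAbs) h
  · rw [Polynomial.mem_support_iff, not_not] at h
    simp [h]

lemma abs_coeff_le_ht (P : ℤ[X]) (i : ℕ) : |((P.coeff i : ℤ) : ℝ)| ≤ ht P := by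
  have := coeff_le_ht P i
  rw [← Int.cast_abs, Int.abs_eq_natAbs]
  exact_mod_cast this

lemma one_le_ht {P : ℤ[X]} (hP : P ≠ 0) : 1 ≤ ht P := by
  have h1 := coeff_le_ht P P.natDegree
  have h2 : P.leadingCoeff ≠ 0 := leadingCoeff_ne_zero.mpr hP
  have h3 : 1 ≤ (P.coeff P.natDegree).natAbs := Nat.one_le_iff_ne_zero.mpr (Int.natAbs_ne_zero.mpr h2)
  omega

lemma ht_le {P : ℤ[X]} {B : ℕ} (h : ∀ i, (P.coeff i).natAbs ≤ B) : ht P ≤ B :=
  Finset.sup_le fun i _ => h i

lemma finite_ht (n B : ℕ) : {P : ℤ[X] | P.natDegree ≤ n ∧ ht P ≤ B}.Finite := by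
  let f : ℤ[X] → (Fin (n + 1) → ℤ) := fun P i => P.coeff i
  apply Set.Finite.of_injOn (f := f)
    (t := Set.pi Set.univ fun _ : Fin (n + 1) => Set.Icc (-(B : ℤ)) (B : ℤ))
  · rintro P ⟨-, hP2⟩ i -
    have := coeff_le_ht P i
    simp only [f, Set.mem_Icc]
    omega
  · rintro P ⟨hP1, -⟩ Q ⟨hQ1, -⟩ hPQ
    ext i
    by_cases hi : i ≤ n
    · exact congrFun hPQ ⟨i, Nat.lt_succ_of_le hi⟩
    · rw [coeff_eq_zero_of_natDegree_lt (by omega), coeff_eq_zero_of_natDegree_lt (by omega)]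
  · exact Set.Finite.pi fun _ => Set.finite_Icc (-(B : ℤ)) (B : ℤ)

lemma norm_aeval_le (P : ℤ[X]) {N : ℕ} (hN : P.natDegree ≤ N) {B : ℝ} (hB : 1 ≤ B) (z : ℂ)
    (hz : ‖z‖ ≤ B) : ‖aeval z P‖ ≤ (N + 1) * ht P * B ^ N := by
  rw [aeval_eq_sum_range' (Nat.lt_succ_of_le hN)]
  refine (norm_sum_le _ _).trans ?_
  have : ∀ i ∈ Finset.range (N + 1), ‖P.coeff i • z ^ i‖ ≤ ht P * B ^ N := by
    intro i hi
    rw [zsmul_eq_mul, norm_mul, norm_pow]
    have h1 : ‖((P.coeff i : ℤ) : ℂ)‖ ≤ ht P := by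
      rw [Complex.norm_intCast]; exact abs_coeff_le_ht P i
    have h2 : ‖z‖ ^ i ≤ B ^ N :=
      (pow_le_pow_left₀ (norm_nonneg _) hz i).trans
        (pow_le_pow_right₀ hB (Nat.lt_succ_iff.mp (Finset.mem_range.mp hi)))
    gcongr
  refine (Finset.sum_le_sum this).trans ?_
  rw [Finset.sum_const, Finset.card_range, nsmul_eq_mul]
  push_cast
  rw [mul_assoc]

lemma norm_pow_sub_le {B : ℝ} (hB : 1 ≤ B) {x y : ℂ} (hx : ‖x‖ ≤ B) (hy : ‖y‖ ≤ B) (i : ℕ) :
    ‖x ^ i - y ^ i‖ ≤ i * B ^ i * ‖x - y‖ := by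
  induction i with
  | zero => simp
  | succ i ih =>
    have e : x ^ (i + 1) - y ^ (i + 1) = x * (x ^ i - y ^ i) + y ^ i * (x - y) := by ring
    rw [e]
    refine (norm_add_le _ _).trans ?_
    rw [norm_mul, norm_mul, norm_pow]
    have h1 : ‖x‖ * ‖x ^ i - y ^ i‖ ≤ B * (i * B ^ i * ‖x - y‖) := by gcongr
    have h2 : ‖y‖ ^ i * ‖x - y‖ ≤ B ^ (i + 1) * ‖x - y‖ := by
      have : ‖y‖ ^ i ≤ B ^ (i + 1) :=
        (pow_le_pow_left₀ (norm_nonneg _) hy i).trans (pow_le_pow_right₀ hB (Nat.le_succ i))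
      gcongr
    calc _ ≤ B * (i * B ^ i * ‖x - y‖) + B ^ (i + 1) * ‖x - y‖ := add_le_add h1 h2
      _ = ((i + 1 : ℕ) : ℝ) * B ^ (i + 1) * ‖x - y‖ := by push_cast; ring

lemma norm_aeval_sub_le (P : ℤ[X]) {N : ℕ} (hN : P.natDegree ≤ N) {B : ℝ} (hB : 1 ≤ B) {x y : ℂ}
    (hx : ‖x‖ ≤ B) (hy : ‖y‖ ≤ B) :
    ‖aeval x P - aeval y P‖ ≤ (N + 1) ^ 2 * B ^ N * ht P * ‖x - y‖ := by
  rw [aeval_eq_sum_range' (Nat.lt_succ_of_le hN), aeval_eq_sum_range' (Nat.lt_succ_of_le hN),
    ← Finset.sum_sub_distrib]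
  refine (norm_sum_le _ _).trans ?_
  have : ∀ i ∈ Finset.range (N + 1), ‖P.coeff i • x ^ i - P.coeff i • y ^ i‖
      ≤ ht P * ((N + 1) * B ^ N * ‖x - y‖) := by
    intro i hi
    rw [← smul_sub, zsmul_eq_mul, norm_mul]
    have h1 : ‖((P.coeff i : ℤ) : ℂ)‖ ≤ ht P := by
      rw [Complex.norm_intCast]; exact abs_coeff_le_ht P i
    have hi' : i ≤ N := Nat.lt_succ_iff.mp (Finset.mem_range.mp hi)
    have h2 : ‖x ^ i - y ^ i‖ ≤ (N + 1) * B ^ N * ‖x - y‖ := by
      refine (norm_pow_sub_le hB hx hy i).trans ?_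
      have h3 : (i : ℝ) ≤ N + 1 := by
        have : (i : ℝ) ≤ N := by exact_mod_cast hi'
        linarith
      have h4 : B ^ i ≤ B ^ N := pow_le_pow_right₀ hB hi'
      gcongr
    gcongr
  refine (Finset.sum_le_sum this).trans ?_
  rw [Finset.sum_const, Finset.card_range, nsmul_eq_mul]
  push_cast
  apply le_of_eq
  ring

lemma dvd_of_common_root {F P : ℤ[X]} (hF : Irreducible F) (hdeg : 1 ≤ F.natDegree) {z : ℂ}
    (h1 : aeval z F = 0) (h2 : aeval z P = 0) : F ∣ P := by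
  have hprim : F.IsPrimitive := hF.isPrimitive (by omega)
  rw [IsPrimitive.Int.dvd_iff_map_cast_dvd_map_cast _ _ hprim]
  have hirr := (IsPrimitive.Int.irreducible_iff_irreducible_map_cast hprim).mp hF
  have h1' : aeval z (F.map (Int.castRingHom ℚ)) = 0 := by
    rw [← algebraMap_int_eq, aeval_map_algebraMap]; exact h1
  have h2' : aeval z (P.map (Int.castRingHom ℚ)) = 0 := by
    rw [← algebraMap_int_eq, aeval_map_algebraMap]; exact h2
  have h3 := minpoly.eq_of_irreducible hirr h1'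
  have h4 := minpoly.dvd ℚ z h2'
  exact (Dvd.intro _ h3).trans h4

lemma multiset_prod_le (s : Multiset ℝ) {M : ℝ} (h : ∀ x ∈ s, 0 ≤ x ∧ x ≤ M) :
    s.prod ≤ M ^ (Multiset.card s) ∧ 0 ≤ s.prod := by
  induction s using Multiset.induction_on with
  | empty => simp
  | cons a s ih =>
    have h1 := ih fun x hx => h x (Multiset.mem_cons_of_mem hx)
    have h2 := h a (Multiset.mem_cons_self a s)
    rw [Multiset.prod_cons, Multiset.card_cons, pow_succ, mul_comm (M ^ _)]
    exact ⟨mul_le_mul h2.2 h1.1 h1.2 (h2.1.trans h2.2), mul_nonneg h2.1 h1.2⟩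

/-- Liouville's inequality. -/
lemma liouville (F P : ℤ[X]) (hF : Irreducible F) (hdeg : 1 ≤ F.natDegree) {B : ℝ} (hB : 1 ≤ B)
    (hroots : ∀ z : ℂ, aeval z F = 0 → ‖z‖ ≤ B) {N : ℕ} (hN : P.natDegree ≤ N) (hdiv : ¬ F ∣ P)
    (y : ℂ) (hy : aeval y F = 0) :
    1 ≤ |(F.leadingCoeff : ℝ)| ^ N * ((N + 1) * ht P * B ^ N) ^ (F.natDegree - 1)
      * ‖aeval y P‖ := by
  set ι := Int.castRingHom ℂ with hι
  have hinj : Function.Injective ι := Int.cast_injective
  have hFd : (F.map ι).natDegree = F.natDegree := natDegree_map_eq_of_injective hinj F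
  have hF0 : F.map ι ≠ 0 := by
    rw [Ne, Polynomial.map_eq_zero_iff hinj]; exact hF.ne_zero
  have hres := resultant_eq_prod_eval (F.map ι) (P.map ι) N (natDegree_map_le.trans hN)
    (IsAlgClosed.splits _)
  rw [hFd, resultant_map_map] at hres
  set r : ℤ := resultant F P F.natDegree N with hr
  have hvalF : ∀ z : ℂ, (F.map ι).eval z = aeval z F := by
    intro z
    rw [eval_map, aeval_def]
    rfl
  have hroot : ∀ z, z ∈ (F.map ι).roots → aeval z F = 0 := by
    intro z hz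
    have := (mem_roots hF0).mp hz
    rw [IsRoot.def, hvalF] at this
    exact this
  have hval : ∀ z : ℂ, (P.map ι).eval z = aeval z P := by
    intro z
    rw [eval_map, aeval_def]
    rfl
  have hr0 : r ≠ 0 := by
    intro h0
    rw [h0, map_zero] at hres
    have hl : (F.map ι).leadingCoeff ^ N ≠ 0 := pow_ne_zero _ (leadingCoeff_ne_zero.mpr hF0)
    have := (mul_eq_zero.mp hres.symm).resolve_left hl
    rw [Multiset.prod_eq_zero_iff, Multiset.mem_map] at this
    obtain ⟨z, hz, hz0⟩ := this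
    rw [hval] at hz0
    exact hdiv (dvd_of_common_root hF hdeg (hroot z hz) hz0)
  have habs : (1 : ℝ) ≤ ‖(ι r : ℂ)‖ := by
    have h1 : ‖(ι r : ℂ)‖ = |(r : ℝ)| := by
      simp [hι, Complex.norm_intCast]
    rw [h1, ← Int.cast_abs]
    exact_mod_cast Int.one_le_abs hr0
  rw [hres, norm_mul, norm_pow] at habs
  have hlead : ‖(F.map ι).leadingCoeff‖ = |(F.leadingCoeff : ℝ)| := by
    rw [leadingCoeff_map_of_injective hinj]
    simp [hι, Complex.norm_intCast]
  rw [hlead] at habs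
  -- the product over the roots
  have hymem : y ∈ (F.map ι).roots := by
    rw [mem_roots hF0, IsRoot.def, hvalF]
    exact hy
  obtain ⟨s, hs⟩ := Multiset.exists_cons_of_mem hymem
  have hcard : Multiset.card s = F.natDegree - 1 := by
    have h1 : Multiset.card (F.map ι).roots = F.natDegree := by
      rw [← hFd]; exact splits_iff_card_roots.mp (IsAlgClosed.splits _)
    rw [hs, Multiset.card_cons] at h1
    omega
  have hprod : ‖((F.map ι).roots.map (P.map ι).eval).prod‖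
      ≤ ‖aeval y P‖ * ((N + 1) * ht P * B ^ N) ^ (F.natDegree - 1) := by
    rw [hs, Multiset.map_cons, Multiset.prod_cons, norm_mul, hval]
    refine mul_le_mul_of_nonneg_left ?_ (norm_nonneg _)
    rw [← hcard]
    have e : ‖(s.map (P.map ι).eval).prod‖ = (s.map fun z => ‖aeval z P‖).prod := by
      have h := map_multiset_prod (normHom : ℂ →*₀ ℝ) (s.map (P.map ι).eval)
      rw [Multiset.map_map] at h
      rw [show ‖(s.map (P.map ι).eval).prod‖ = normHom (s.map (P.map ι).eval).prod from rfl, h]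
      congr 1
      apply Multiset.map_congr rfl
      intro z _
      show ‖(P.map ι).eval z‖ = _
      rw [hval]
    rw [e]
    have := multiset_prod_le (s.map fun z => ‖aeval z P‖) (M := (N + 1) * ht P * B ^ N) (by
      intro x hx
      rw [Multiset.mem_map] at hx
      obtain ⟨z, hz, rfl⟩ := hx
      refine ⟨norm_nonneg _, norm_aeval_le P hN hB z (hroots z (hroot z ?_))⟩
      rw [hs]; exact Multiset.mem_cons_of_mem hz)
    rw [Multiset.card_map] at this
    exact this.1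
  calc (1 : ℝ) ≤ |(F.leadingCoeff : ℝ)| ^ N * ‖((F.map ι).roots.map (P.map ι).eval).prod‖ := habs
    _ ≤ |(F.leadingCoeff : ℝ)| ^ N * (‖aeval y P‖ * ((N + 1) * ht P * B ^ N) ^ (F.natDegree - 1)) := by
        gcongr
    _ = _ := by ring

/-- Gelfond's inequality. -/
lemma ht_mul_le (F Q : ℤ[X]) {N : ℕ} (hF : F ≠ 0) (hQ : Q ≠ 0) (hN : (F * Q).natDegree ≤ N) :
    (ht F * ht Q : ℝ) ≤ 2 ^ N * (N + 1) * ht (F * Q) := by
  set ι := Int.castRingHom ℂ with hι
  have hinj : Function.Injective ι := Int.cast_injective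
  have key : ∀ G : ℤ[X], G ≠ 0 → (ht G : ℝ) ≤ 2 ^ G.natDegree * (G.map ι).mahlerMeasure := by
    intro G hG
    obtain ⟨i, hi, hi'⟩ := Finset.exists_mem_eq_sup G.support
      (Finset.nonempty_iff_ne_empty.mpr (by simpa using hG)) (fun i => (G.coeff i).natAbs)
    have h1 : (ht G : ℝ) = ‖(G.map ι).coeff i‖ := by
      rw [coeff_map]
      simp only [hι, eq_intCast, Complex.norm_intCast]
      rw [ht, hi', ← Int.cast_abs, Int.abs_eq_natAbs]
      simp
    rw [h1]
    refine (norm_coeff_le_choose_mul_mahlerMeasure i _).trans ?_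
    rw [natDegree_map_eq_of_injective hinj]
    refine mul_le_mul_of_nonneg_right ?_ (mahlerMeasure_nonneg _)
    exact_mod_cast Nat.choose_le_two_pow _ _
  have hM : ((F * Q).map ι).mahlerMeasure ≤ (N + 1) * ht (F * Q) := by
    refine (mahlerMeasure_le_sum_norm_coeff _).trans ?_
    rw [Polynomial.sum_over_range _ (by simp)]
    have : ∀ i ∈ Finset.range (((F * Q).map ι).natDegree + 1), ‖((F * Q).map ι).coeff i‖
        ≤ (ht (F * Q) : ℝ) := by
      intro i _
      rw [coeff_map]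
      simp only [hι, eq_intCast, Complex.norm_intCast]
      exact abs_coeff_le_ht _ i
    refine (Finset.sum_le_sum this).trans ?_
    rw [Finset.sum_const, Finset.card_range, nsmul_eq_mul, natDegree_map_eq_of_injective hinj]
    have : (((F * Q).natDegree + 1 : ℕ) : ℝ) ≤ N + 1 := by exact_mod_cast Nat.succ_le_succ hN
    gcongr
  have hd : (F * Q).natDegree = F.natDegree + Q.natDegree := natDegree_mul hF hQ
  calc (ht F * ht Q : ℝ) ≤ (2 ^ F.natDegree * (F.map ι).mahlerMeasure)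
        * (2 ^ Q.natDegree * (Q.map ι).mahlerMeasure) := by
        have := mahlerMeasure_nonneg (F.map ι)
        gcongr
        · exact key F hF
        · exact key Q hQ
    _ = 2 ^ (F * Q).natDegree * ((F * Q).map ι).mahlerMeasure := by
        rw [Polynomial.map_mul, mahlerMeasure_mul, hd, pow_add]; ring
    _ ≤ 2 ^ N * ((N + 1) * ht (F * Q)) := by
        have h1 : (2 : ℝ) ^ (F * Q).natDegree ≤ 2 ^ N := pow_le_pow_right₀ (by norm_num) hN
        have := mahlerMeasure_nonneg ((F * Q).map ι)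
        gcongr
    _ = _ := by ring

end Pool.Agent.H3.PowExp
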