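import Mathlib

/-! # The nested interval construction (for `MP_9b3446_nt`) -/

namespace Pool.Agent.H3.PowExp

lemma exists_frac {k κ : ℕ} (hκ : 1 ≤ κ) (hκk : κ ≤ k) (t1 t2 : ℝ) (h1 : 1 < t1) (h12 : t1 < t2)
    (h2 : t2 ≤ 2) :
    ∃ (a b : ℕ) (α : ℝ), a.Prime ∧ 0 < b ∧ t1 ≤ α ∧ α ≤ t2 ∧ (b : ℝ) * α ^ κ = a ∧
      1 / (t2 - t1) ≤ a ∧ (a : ℝ) ≤ 4 ^ (k + 1) / (t2 - t1) := by
  have hd : 0 < t2 - t1 := by linarith
  have hd1 : t2 - t1 ≤ 1 := by linarith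
  set Q : ℝ := 4 ^ κ / (t2 - t1) with hQ
  have h4 : (1 : ℝ) ≤ 4 ^ κ := one_le_pow₀ (by norm_num)
  have hQ1 : 1 ≤ Q := by
    rw [hQ, le_div_iff₀ hd]; linarith
  set M := ⌈Q⌉₊ with hM
  have hM1 : Q ≤ M := Nat.le_ceil _
  have hM2 : (M : ℝ) < Q + 1 := Nat.ceil_lt_add_one (by linarith)
  have hM0 : M ≠ 0 := by
    intro h0; rw [h0] at hM1; norm_num at hM1; linarith
  obtain ⟨a, ha, ha1, ha2⟩ := Nat.exists_prime_lt_and_le_two_mul M hM0
  have ha1' : Q < a := lt_of_le_of_lt hM1 (by exact_mod_cast ha1)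
  have ha2' : (a : ℝ) ≤ 2 * M := by exact_mod_cast ha2
  have ha0 : (0 : ℝ) < a := by linarith
  have ht2 : 0 < t2 := by linarith
  have ht1 : 0 < t1 := by linarith
  set b := ⌈(a : ℝ) / t2 ^ κ⌉₊ with hb
  have hb1 : (a : ℝ) / t2 ^ κ ≤ b := Nat.le_ceil _
  have hb2 : (b : ℝ) < a / t2 ^ κ + 1 := Nat.ceil_lt_add_one (by positivity)
  have hb0 : 0 < b := Nat.ceil_pos.mpr (by positivity)
  have hb0' : (0 : ℝ) < b := by exact_mod_cast hb0
  -- `b ≤ a / t1 ^ κ`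
  have hpow : t2 - t1 ≤ t2 ^ κ - t1 ^ κ := by
    obtain ⟨m, rfl⟩ : ∃ m, κ = m + 1 := ⟨κ - 1, by omega⟩
    have e1 : t1 ^ m ≤ t2 ^ m := pow_le_pow_left₀ ht1.le h12.le m
    have e2 : 1 ≤ t2 ^ m := one_le_pow₀ (by linarith)
    have e3 : t1 ^ m * t1 ≤ t2 ^ m * t1 := by gcongr
    rw [pow_succ, pow_succ]
    nlinarith
  have hp1 : 0 < t1 ^ κ := by positivity
  have hp2 : 0 < t2 ^ κ := by positivity
  have hp12 : t1 ^ κ * t2 ^ κ ≤ 4 ^ κ := by
    rw [← mul_pow]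
    apply pow_le_pow_left₀ (by positivity)
    nlinarith
  have hb3 : (b : ℝ) * t1 ^ κ ≤ a := by
    have e1 : (a : ℝ) / t2 ^ κ + 1 ≤ a / t1 ^ κ := by
      have e2 : (a : ℝ) / t1 ^ κ - a / t2 ^ κ = a * (t2 ^ κ - t1 ^ κ) / (t1 ^ κ * t2 ^ κ) := by
        field_simp
      have e3 : 1 ≤ a * (t2 ^ κ - t1 ^ κ) / (t1 ^ κ * t2 ^ κ) := by
        rw [le_div_iff₀ (by positivity), one_mul]
        calc t1 ^ κ * t2 ^ κ ≤ 4 ^ κ := hp12
          _ = Q * (t2 - t1) := by rw [hQ]; field_simp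
          _ ≤ a * (t2 ^ κ - t1 ^ κ) := by
              apply mul_le_mul ha1'.le hpow hd.le ha0.le
      linarith
    have e2 : (b : ℝ) ≤ a / t1 ^ κ := by linarith
    rwa [le_div_iff₀ hp1] at e2
  have hb4 : (a : ℝ) ≤ b * t2 ^ κ := by rwa [div_le_iff₀ hp2] at hb1
  set α : ℝ := ((a : ℝ) / b) ^ ((κ : ℝ)⁻¹) with hα
  have hα0 : 0 ≤ α := by positivity
  have hακ : α ^ κ = a / b := Real.rpow_inv_natCast_pow (by positivity) (by omega)
  refine ⟨a, b, α, ha, hb0, ?_, ?_, ?_, ?_, ?_⟩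
  · rw [← pow_le_pow_iff_left₀ ht1.le hα0 (by omega : κ ≠ 0), hακ, le_div_iff₀ hb0']
    linarith
  · rw [← pow_le_pow_iff_left₀ hα0 ht2.le (by omega : κ ≠ 0), hακ, div_le_iff₀ hb0']
    linarith
  · rw [hακ]; field_simp
  · have : 1 / (t2 - t1) ≤ Q := by rw [hQ]; gcongr
    linarith
  · have e1 : (a : ℝ) ≤ 4 * Q := by linarith
    calc (a : ℝ) ≤ 4 * Q := e1
      _ = 4 ^ (κ + 1) / (t2 - t1) := by rw [hQ, pow_succ]; ring
      _ ≤ 4 ^ (k + 1) / (t2 - t1) := by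
          have : (4 : ℝ) ^ (κ + 1) ≤ 4 ^ (k + 1) := pow_le_pow_right₀ (by norm_num) (by omega)
          gcongr

lemma exists_seq {S : Type*} (Inv : ℕ → S → Prop) (Rel : ℕ → S → S → Prop) (s0 : S)
    (h0 : Inv 0 s0) (step : ∀ j s, Inv j s → ∃ s', Inv (j + 1) s' ∧ Rel j s s') :
    ∃ f : ℕ → S, ∀ j, Inv j (f j) ∧ Rel j (f j) (f (j + 1)) := by
  classical
  choose! g hg using step
  let f : ℕ → S := fun j => Nat.rec s0 (fun j s => g j s) j
  have hf : ∀ j, f (j + 1) = g j (f j) := fun j => rfl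
  have hInv : ∀ j, Inv j (f j) := by
    intro j
    induction j with
    | zero => exact h0
    | succ j ih => rw [hf]; exact (hg j _ ih).1
  refine ⟨f, fun j => ⟨hInv j, ?_⟩⟩
  rw [hf]
  exact (hg j _ (hInv j)).2

/-- The data of one step: `b α ^ κ = a`. -/
structure Pt where
  a : ℕ
  b : ℕ
  α : ℝ

/-- Main construction. `kap j` is `κ_j`, `e j` the exponent at step `j`. -/
theorem exists_points {k : ℕ} (kap : ℕ → ℕ) (hkap : ∀ j, 1 ≤ kap j ∧ kap j ≤ k) (e : ℕ → ℝ)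
    (he : ∀ j, 1 ≤ e j) (x : ℕ → ℝ) (A0 : ℝ) (hA0 : 8 ≤ A0) :
    ∃ (f : ℕ → Pt) (ξ : ℝ), (∀ j, ξ ≠ x j) ∧ (∀ j, (f j).a.Prime ∧ 0 < (f j).b ∧
      ((f j).b : ℝ) * (f j).α ^ kap j = (f j).a ∧ A0 ≤ (f j).a ∧ 5 / 4 ≤ (f j).α ∧ (f j).α ≤ 2 ∧
      (f j).α + ((f j).a : ℝ) ^ (-(e j + 1)) ≤ ξ ∧
      ξ ≤ (f j).α + 2 * ((f j).a : ℝ) ^ (-(e j + 1)) ∧
      ((f (j + 1)).a : ℝ) ≤ 4 ^ (k + 2) * ((f j).a : ℝ) ^ (e j + 1) ∧
      2 * (f j).a ≤ (f (j + 1)).a) ∧ ξ ≤ 2 := by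
  let R : ℕ → Pt → ℝ := fun j p => (p.a : ℝ) ^ (-(e j + 1))
  let Inv : ℕ → Pt → Prop := fun j p => p.a.Prime ∧ 0 < p.b ∧ (p.b : ℝ) * p.α ^ kap j = p.a ∧
    A0 ≤ p.a ∧ 5 / 4 ≤ p.α ∧ p.α + 2 * R j p ≤ 2
  let Rel : ℕ → Pt → Pt → Prop := fun j p q =>
    p.α + R j p ≤ q.α + R (j + 1) q ∧ q.α + 2 * R (j + 1) q ≤ p.α + 2 * R j p ∧
    (q.a : ℝ) ≤ 4 ^ (k + 2) * (p.a : ℝ) ^ (e j + 1) ∧ 2 * p.a ≤ q.a ∧
    ¬ (q.α + R (j + 1) q ≤ x j ∧ x j ≤ q.α + 2 * R (j + 1) q)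
  have hRle : ∀ j (p : Pt), A0 ≤ p.a → 0 < R j p ∧ R j p ≤ ((p.a : ℝ) ^ 2)⁻¹ := by
    intro j p hp
    have hpa : (1 : ℝ) ≤ p.a := by linarith
    refine ⟨Real.rpow_pos_of_pos (by linarith) _, ?_⟩
    simp only [R]
    rw [← Real.rpow_natCast, ← Real.rpow_neg (by linarith)]
    apply Real.rpow_le_rpow_of_exponent_le hpa
    have := he j
    push_cast
    linarith
  -- initial point
  obtain ⟨a, b, α, h1, h2, h3, h4, h5, h6, h7⟩ := exists_frac (hkap 0).1 (hkap 0).2 (5 / 4)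
    (5 / 4 + 1 / A0) (by norm_num) (by linarith [show 0 < 1 / A0 by positivity])
    (by have : 1 / A0 ≤ 1 / 8 := by gcongr
        linarith)
  have hinit : Inv 0 ⟨a, b, α⟩ := by
    have ha : A0 ≤ a := by
      have : 1 / (5 / 4 + 1 / A0 - 5 / 4) = A0 := by
        field_simp
        ring
      linarith
    have hr := hRle 0 ⟨a, b, α⟩ ha
    refine ⟨h1, h2, h5, ha, h3, ?_⟩
    have : 1 / A0 ≤ 1 / 8 := by gcongr
    have h8 : ((a : ℝ) ^ 2)⁻¹ ≤ 1 / 8 := by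
      rw [inv_eq_one_div]
      apply one_div_le_one_div_of_le (by norm_num)
      nlinarith
    have := hr.2
    simp only at this ⊢
    linarith
  have hstep : ∀ j p, Inv j p → ∃ q, Inv (j + 1) q ∧ Rel j p q := by
    rintro j p ⟨g1, g2, g3, g4, g5, g6⟩
    obtain ⟨hR0, hR1⟩ := hRle j p g4
    have hpa : (8 : ℝ) ≤ p.a := by linarith
    have hR8 : R j p ≤ 1 / 8 := by
      refine hR1.trans ?_
      rw [inv_eq_one_div]
      apply one_div_le_one_div_of_le (by norm_num)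
      nlinarith
    have hRa : 1 / R j p = (p.a : ℝ) ^ (e j + 1) := by
      simp only [R]
      rw [Real.rpow_neg (by linarith), one_div, inv_inv]
    have hRa' : (p.a : ℝ) ≤ 1 / R j p := by
      rw [hRa]
      calc (p.a : ℝ) = (p.a : ℝ) ^ (1 : ℝ) := (Real.rpow_one _).symm
        _ ≤ _ := by
          apply Real.rpow_le_rpow_of_exponent_le (by linarith)
          linarith [he j]
    -- choose the subinterval
    obtain ⟨t1, ht1, ht1', hx⟩ : ∃ t1, p.α + R j p ≤ t1 ∧ t1 + R j p / 4 + R j p / 4 ≤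
        p.α + 2 * R j p ∧ (x j < t1 ∨ t1 + R j p / 4 + R j p / 4 ≤ x j) := by
      rcases lt_or_ge (x j) (p.α + R j p + R j p / 2) with h | h
      · exact ⟨p.α + R j p + R j p / 2, by linarith, by linarith, Or.inl h⟩
      · exact ⟨p.α + R j p, by linarith, by linarith, Or.inr (by linarith)⟩
    obtain ⟨a', b', α', h1, h2, h3, h4, h5, h6, h7⟩ := exists_frac (hkap (j + 1)).1
      (hkap (j + 1)).2 t1 (t1 + R j p / 4) (by linarith) (by linarith) (by linarith)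
    have hsub : t1 + R j p / 4 - t1 = R j p / 4 := by ring
    rw [hsub] at h6 h7
    have h6' : 4 * (1 / R j p) ≤ a' := by
      have : 1 / (R j p / 4) = 4 * (1 / R j p) := by field_simp
      linarith
    have ha' : 4 * (p.a : ℝ) ≤ a' := by linarith
    have hA0' : A0 ≤ a' := by linarith
    obtain ⟨hR0', hR1'⟩ := hRle (j + 1) ⟨a', b', α'⟩ hA0'
    simp only at hR1'
    have ha'0 : (0 : ℝ) < a' := by linarith
    have hR' : 2 * R (j + 1) ⟨a', b', α'⟩ < R j p / 4 := by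
      have e1 : 1 / R j p ≤ a' := by
        have : 0 < 1 / R j p := by positivity
        linarith
      have e2 : ((a' : ℝ) ^ 2)⁻¹ ≤ R j p ^ 2 := by
        rw [inv_le_comm₀ (by positivity) (by positivity)]
        rw [← one_div, ← one_div_pow]
        exact pow_le_pow_left₀ (by positivity) e1 2
      have e3 : ((a' : ℝ) ^ 2)⁻¹ ≤ R j p ^ 2 / 16 := by
        rw [inv_le_comm₀ (by positivity) (by positivity)]
        have : (R j p ^ 2 / 16)⁻¹ = (4 * (1 / R j p)) ^ 2 := by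
          field_simp
          norm_num
        rw [this]
        exact pow_le_pow_left₀ (by positivity) h6' 2
      nlinarith
    refine ⟨⟨a', b', α'⟩, ⟨h1, h2, h5, hA0', by simp only; linarith, by simp only; linarith⟩, ?_, ?_, ?_, ?_, ?_⟩
    · simp only; linarith
    · simp only; linarith
    · simp only
      refine h7.trans (le_of_eq ?_)
      rw [← hRa]
      field_simp
      ring
    · simp only
      have : (2 * p.a : ℝ) ≤ a' := by linarith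
      exact_mod_cast this
    · rintro ⟨q1, q2⟩
      simp only at q1 q2
      rcases hx with h | h <;> linarith
  obtain ⟨f, hf⟩ := exists_seq Inv Rel _ hinit hstep
  have hInv := fun j => (hf j).1
  have hRel := fun j => (hf j).2
  have hmono : Monotone fun j => (f j).α + R j (f j) := monotone_nat_of_le_succ fun j => (hRel j).1
  have hanti : Antitone fun j => (f j).α + 2 * R j (f j) :=
    antitone_nat_of_succ_le fun j => (hRel j).2.1
  have hpos : ∀ j, 0 < R j (f j) := fun j => (hRle j (f j) (hInv j).2.2.2.1).1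
  have hle : ∀ j, (f j).α + R j (f j) ≤ (f j).α + 2 * R j (f j) := fun j => by
    linarith [hpos j]
  have hmem := hmono.ciSup_mem_iInter_Icc_of_antitone hanti hle
  set ξ := ⨆ j, ((f j).α + R j (f j)) with hξ
  rw [Set.mem_iInter] at hmem
  refine ⟨f, ξ, ?_, fun j => ?_, ?_⟩
  · intro j hj
    have h1 := hmem (j + 1)
    apply (hRel j).2.2.2.2
    rw [← hj]
    exact h1
  · obtain ⟨g1, g2, g3, g4, g5, g6⟩ := hInv j
    obtain ⟨r1, r2, r3, r4, r5⟩ := hRel j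
    exact ⟨g1, g2, g3, g4, g5, by linarith [hpos j], (hmem j).1, (hmem j).2, r3, r4⟩
  · exact (hmem 0).2.trans (hInv 0).2.2.2.2.2

end Pool.Agent.H3.PowExp
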