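import Pool.Agent.H3.PowExpAbs
import Pool.Agent.H3.PowExpSeq

/-! # Assembly of the construction (for `MP_9b3446_nt`) -/

namespace Pool.Agent.H3.PowExp

open Polynomial
open scoped NNReal ENNReal

/-- `b X^κ - a`. -/
noncomputable def binP (b a κ : ℕ) : ℤ[X] := C (b : ℤ) * X ^ κ - C (a : ℤ)

section binP

variable {b a κ : ℕ}

lemma coeff_binP (i : ℕ) :
    (binP b a κ).coeff i = (if i = κ then (b : ℤ) else 0) - (if i = 0 then (a : ℤ) else 0) := by
  rw [binP, coeff_sub, coeff_C_mul, coeff_X_pow, coeff_C]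
  simp

lemma natDegree_binP (hb : 0 < b) : (binP b a κ).natDegree = κ := by
  rw [binP, natDegree_sub_C, natDegree_C_mul_X_pow]
  exact_mod_cast hb.ne'

lemma leadingCoeff_binP (hb : 0 < b) (hκ : 1 ≤ κ) : (binP b a κ).leadingCoeff = b := by
  rw [leadingCoeff, natDegree_binP hb, coeff_binP]
  simp [show κ ≠ 0 by omega]

lemma ht_binP (hba : b ≤ a) (hκ : 1 ≤ κ) : ht (binP b a κ) = a := by
  apply le_antisymm
  · apply ht_le
    intro i
    rw [coeff_binP]
    split_ifs with h1 h2 h2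
    · omega
    · simp; exact hba
    · simp
    · simp
  · have := coeff_le_ht (binP b a κ) 0
    rw [coeff_binP] at this
    simp [show (0 : ℕ) ≠ κ by omega] at this
    exact this

lemma aeval_binP {R : Type*} [CommRing R] (x : R) :
    aeval x (binP b a κ) = b * x ^ κ - a := by
  simp [binP]

lemma binP_ne_zero (hb : 0 < b) (hκ : 1 ≤ κ) : binP b a κ ≠ 0 := by
  intro h
  have := leadingCoeff_binP (a := a) hb hκ
  rw [h] at this
  simp at this
  omega

lemma binP_primitive (hb : 0 < b) (hκ : 1 ≤ κ) (hco : Nat.Coprime b a) :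
    (binP b a κ).IsPrimitive := by
  rw [isPrimitive_iff_isUnit_of_C_dvd]
  intro r hr
  rw [C_dvd_iff_dvd_coeff] at hr
  have h1 := hr κ
  have h2 := hr 0
  rw [coeff_binP] at h1 h2
  simp [show κ ≠ 0 by omega, show (0 : ℕ) ≠ κ by omega] at h1 h2
  have h3 : IsCoprime (b : ℤ) (a : ℤ) := Nat.isCoprime_iff_coprime.mpr hco
  exact h3.isUnit_of_dvd' h1 h2

lemma irreducible_binP (ha : a.Prime) (hb : 0 < b) (hba : b < a) (hκ : 1 ≤ κ) :
    Irreducible (binP b a κ) := by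
  have hco : Nat.Coprime b a := (Nat.coprime_of_lt_prime (by omega) hba ha).symm
  have hap : Prime (a : ℤ) := Nat.prime_iff_prime_int.mp ha
  have hP : (Ideal.span {(a : ℤ)}).IsPrime := by
    rw [Ideal.span_singleton_prime hap.ne_zero]; exact hap
  apply irreducible_of_eisenstein_criterion hP
  · rw [leadingCoeff_binP hb hκ, Ideal.mem_span_singleton]
    intro h
    have : a ∣ b := by exact_mod_cast h
    exact absurd (Nat.le_of_dvd hb this) (by omega)
  · intro i hi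
    rw [Polynomial.degree_eq_natDegree (binP_ne_zero hb hκ), natDegree_binP hb] at hi
    have hi' : i < κ := by exact_mod_cast hi
    rw [coeff_binP, Ideal.mem_span_singleton]
    rw [if_neg (by omega)]
    split_ifs <;> simp
  · rw [Polynomial.degree_eq_natDegree (binP_ne_zero hb hκ), natDegree_binP hb]
    exact_mod_cast hκ
  · rw [coeff_binP, Ideal.span_singleton_pow, Ideal.mem_span_singleton]
    simp only [show (0 : ℕ) ≠ κ by omega, if_false, if_true, zero_sub, dvd_neg]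
    intro h
    have h1 : a ^ 2 ∣ a := by exact_mod_cast h
    have h2 := Nat.le_of_dvd ha.pos h1
    have := ha.one_lt
    nlinarith
  · exact binP_primitive hb hκ hco

lemma irreducible_binP_one (hb : 0 < b) (hco : Nat.Coprime b a) :
    Irreducible (binP b a 1) := by
  apply irreducible_of_degree_eq_one_of_isRelPrime_coeff
  · rw [Polynomial.degree_eq_natDegree (binP_ne_zero hb le_rfl), natDegree_binP hb]; rfl
  · rw [coeff_binP, coeff_binP]
    simp
    rw [isRelPrime_comm]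
    exact (Nat.isCoprime_iff_coprime.mpr hco).neg_right.isRelPrime

lemma roots_binP (hb : 0 < b) (hκ : 1 ≤ κ) {B : ℝ} (hB : 0 ≤ B) (hab : (a : ℝ) ≤ b * B ^ κ) (z : ℂ)
    (hz : aeval z (binP b a κ) = 0) : ‖z‖ ≤ B := by
  rw [aeval_binP, sub_eq_zero] at hz
  have h1 := congrArg norm hz
  rw [norm_mul, norm_pow, Complex.norm_natCast, Complex.norm_natCast] at h1
  have hb' : (0 : ℝ) < b := by exact_mod_cast hb
  have h2 : ‖z‖ ^ κ ≤ B ^ κ := by
    rw [← h1] at hab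
    exact le_of_mul_le_mul_left hab hb'
  exact (pow_le_pow_iff_left₀ (norm_nonneg z) hB (by omega)).mp h2

end binP

lemma pow_diff {α ξ : ℝ} (h1 : 1 ≤ α) (h2 : α ≤ ξ) (h3 : ξ ≤ 2) {m : ℕ} (hm : 1 ≤ m) :
    ξ - α ≤ ξ ^ m - α ^ m ∧ ξ ^ m - α ^ m ≤ m * 2 ^ m * (ξ - α) := by
  constructor
  · obtain ⟨m, rfl⟩ : ∃ m', m = m' + 1 := ⟨m - 1, by omega⟩
    have e1 : α ^ m ≤ ξ ^ m := pow_le_pow_left₀ (by linarith) h2 m
    have e2 : 1 ≤ ξ ^ m := one_le_pow₀ (by linarith)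
    have e3 : α ^ m * α ≤ ξ ^ m * α := by gcongr
    rw [pow_succ, pow_succ]
    nlinarith
  · have h := norm_pow_sub_le (B := 2) (by norm_num) (x := (ξ : ℂ)) (y := (α : ℂ))
      (by rw [Complex.norm_real, Real.norm_eq_abs, abs_of_nonneg (by linarith)]; exact h3)
      (by rw [Complex.norm_real, Real.norm_eq_abs, abs_of_nonneg (by linarith)]; linarith) m
    have e1 : ‖(ξ : ℂ) ^ m - (α : ℂ) ^ m‖ = |ξ ^ m - α ^ m| := by
      rw [← Complex.ofReal_pow, ← Complex.ofReal_pow, ← Complex.ofReal_sub, Complex.norm_real,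
        Real.norm_eq_abs]
    have e2 : ‖(ξ : ℂ) - (α : ℂ)‖ = ξ - α := by
      rw [← Complex.ofReal_sub, Complex.norm_real, Real.norm_eq_abs, abs_of_nonneg (by linarith)]
    rw [e1, e2] at h
    exact (le_abs_self _).trans h

lemma sel (A : ℕ → ℝ) (k N : ℕ) (u w C : ℝ) (hA0 : 1 ≤ A 0) (hA : ∀ j, 2 * A j ≤ A (j + 1))
    (hC : 0 < C) (hAC : ∀ j, A (j + 1) ≤ C * A j ^ (w + 1)) (hu : (N : ℝ) + 1 ≤ u)
    (hnum : (k : ℝ) * (N * (w + 1)) ≤ (u - (k - 1)) * (u - N)) (hku : (k : ℝ) - 1 ≤ u)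
    (hw : 0 ≤ w) :
    ∃ C' : ℝ, 0 < C' ∧ ∀ H : ℕ, 1 ≤ H → ∃ j, (H : ℝ) ^ k ≤ A j ^ (u - N) ∧
      A j ^ N ≤ C' * (H : ℝ) ^ (u - (k - 1)) := by
  have hA1 : ∀ j, 2 ^ j ≤ A j := by
    intro j
    induction j with
    | zero => simpa using hA0
    | succ j ih => rw [pow_succ]; linarith [hA j]
  have hA1' : ∀ j, 1 ≤ A j := fun j => (one_le_pow₀ (by norm_num)).trans (hA1 j)
  refine ⟨A 0 ^ N + C ^ N, by have := hA1' 0; positivity, fun H hH => ?_⟩
  have hHr : (1 : ℝ) ≤ H := by exact_mod_cast hH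
  have hH0 : (0 : ℝ) < H := by linarith
  classical
  have hex : ∃ j, (H : ℝ) ^ k ≤ A j ^ (u - N) := by
    refine ⟨H ^ k, ?_⟩
    calc (H : ℝ) ^ k = ((H ^ k : ℕ) : ℝ) := by push_cast; rfl
      _ ≤ ((2 ^ (H ^ k) : ℕ) : ℝ) := by exact_mod_cast (Nat.lt_two_pow_self).le
      _ = 2 ^ (H ^ k) := by push_cast; rfl
      _ ≤ A (H ^ k) := hA1 _
      _ = A (H ^ k) ^ (1 : ℝ) := (Real.rpow_one _).symm
      _ ≤ A (H ^ k) ^ (u - N) := Real.rpow_le_rpow_of_exponent_le (hA1' _) (by linarith)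
  have hHpow : 1 ≤ (H : ℝ) ^ (u - (k - 1)) := Real.one_le_rpow hHr (by linarith)
  refine ⟨Nat.find hex, Nat.find_spec hex, ?_⟩
  rcases Nat.eq_zero_or_pos (Nat.find hex) with h0 | h0
  · rw [h0]
    have h1 := hA1' 0
    have h2 : 0 < A 0 ^ N := by positivity
    have h3 : 0 < C ^ N := by positivity
    nlinarith
  · obtain ⟨i, hi⟩ : ∃ i, Nat.find hex = i + 1 := ⟨Nat.find hex - 1, by omega⟩
    have hlt : A i ^ (u - N) < (H : ℝ) ^ k := by
      have := Nat.find_min hex (m := i) (by omega)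
      exact not_le.mp this
    rw [hi]
    have hAi := hA1' i
    have hAi0 : 0 < A i := by linarith
    have huN : 0 < u - N := by linarith
    have e1 : A (i + 1) ^ N ≤ C ^ N * (A i ^ (w + 1)) ^ N := by
      rw [← mul_pow]
      exact pow_le_pow_left₀ (by linarith [hA1' (i + 1)]) (hAC i) N
    have e2 : (A i ^ (w + 1)) ^ N = (A i ^ (u - N)) ^ (N * (w + 1) / (u - N)) := by
      rw [← Real.rpow_natCast, ← Real.rpow_mul hAi0.le, ← Real.rpow_mul hAi0.le]
      congr 1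
      field_simp
    have e3 : (A i ^ (u - N)) ^ (N * (w + 1) / (u - N)) ≤ ((H : ℝ) ^ k) ^ (N * (w + 1) / (u - N)) := by
      apply Real.rpow_le_rpow (by positivity) hlt.le (by positivity)
    have e4 : ((H : ℝ) ^ k) ^ (N * (w + 1) / (u - N)) ≤ (H : ℝ) ^ (u - (k - 1)) := by
      rw [← Real.rpow_natCast, ← Real.rpow_mul hH0.le]
      apply Real.rpow_le_rpow_of_exponent_le hHr
      rw [← mul_div_assoc, div_le_iff₀ huN]
      exact hnum
    have h1 := hA1' 0
    calc A (i + 1) ^ N ≤ C ^ N * (A i ^ (w + 1)) ^ N := e1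
      _ ≤ C ^ N * (H : ℝ) ^ (u - (k - 1)) := by
          rw [e2]
          gcongr
          exact e3.trans e4
      _ ≤ (A 0 ^ N + C ^ N) * (H : ℝ) ^ (u - (k - 1)) := by
          gcongr
          have : 0 ≤ A 0 ^ N := by positivity
          linarith

/-- Liouville transferred to a nearby point. -/
lemma transfer (F P : ℤ[X]) (hF : Irreducible F) (hdeg : 1 ≤ F.natDegree) {k : ℕ}
    (hk : F.natDegree ≤ k) {B : ℝ} (hB : 1 ≤ B) (hroots : ∀ z : ℂ, aeval z F = 0 → ‖z‖ ≤ B) {M : ℕ}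
    (hM : P.natDegree ≤ M) (hP : P ≠ 0) {H : ℕ} (hH : ht P ≤ H) (hdiv : ¬ F ∣ P) {x y : ℝ}
    (hx : |x| ≤ B) (hy : |y| ≤ B) (hFy : aeval (y : ℂ) F = 0) {L K : ℝ}
    (hL : |(F.leadingCoeff : ℝ)| ^ M ≤ L) (hK : (M + 1) ^ 2 * B ^ M ≤ K)
    (hsmall : L * (K * H) ^ k * |x - y| ≤ 1 / 2) :
    1 / 2 ≤ L * (K * H) ^ (k - 1) * |aeval x P| := by
  have hL0 : 0 ≤ L := le_trans (by positivity) hL
  have hB0 : 0 < B := by linarith
  have hBM : 1 ≤ B ^ M := one_le_pow₀ hB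
  have hK0 : 1 ≤ K := by
    refine le_trans ?_ hK
    have : (1 : ℝ) ≤ (M + 1) ^ 2 := one_le_pow₀ (by linarith [(Nat.cast_nonneg M : (0 : ℝ) ≤ M)])
    nlinarith
  have hHt : (ht P : ℝ) ≤ H := by exact_mod_cast hH
  have hH1 : (1 : ℝ) ≤ H := by
    have : 1 ≤ H := (one_le_ht hP).trans hH
    exact_mod_cast this
  have hKH : 1 ≤ K * H := by nlinarith
  have h1 := liouville F P hF hdeg hB hroots hM hdiv (y : ℂ) hFy
  have h2 : ((M : ℝ) + 1) * ht P * B ^ M ≤ K * H := by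
    have e1 : ((M : ℝ) + 1) ≤ (M + 1) ^ 2 := by
      have : (0 : ℝ) ≤ M := Nat.cast_nonneg M
      nlinarith
    calc ((M : ℝ) + 1) * ht P * B ^ M ≤ (M + 1) ^ 2 * H * B ^ M := by gcongr
      _ = ((M + 1) ^ 2 * B ^ M) * H := by ring
      _ ≤ K * H := by gcongr
  have h3 : (((M : ℝ) + 1) * ht P * B ^ M) ^ (F.natDegree - 1) ≤ (K * H) ^ (k - 1) := by
    calc (((M : ℝ) + 1) * ht P * B ^ M) ^ (F.natDegree - 1) ≤ (K * H) ^ (F.natDegree - 1) := by
          apply pow_le_pow_left₀ (by positivity) h2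
      _ ≤ (K * H) ^ (k - 1) := pow_le_pow_right₀ hKH (by omega)
  have h4 : ‖aeval (y : ℂ) P‖ ≤ |aeval x P| + K * H * |x - y| := by
    have hxc : ‖(x : ℂ)‖ ≤ B := by rw [Complex.norm_real, Real.norm_eq_abs]; exact hx
    have hyc : ‖(y : ℂ)‖ ≤ B := by rw [Complex.norm_real, Real.norm_eq_abs]; exact hy
    have e1 := norm_aeval_sub_le P hM hB hyc hxc
    have e2 : ‖(y : ℂ) - (x : ℂ)‖ = |x - y| := by
      rw [← Complex.ofReal_sub, Complex.norm_real, Real.norm_eq_abs, abs_sub_comm]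
    rw [e2] at e1
    have e3 : ((M : ℝ) + 1) ^ 2 * B ^ M * ht P * |x - y| ≤ K * H * |x - y| := by gcongr
    have e4 : aeval (y : ℂ) P = (aeval (y : ℂ) P - aeval (x : ℂ) P) + aeval (x : ℂ) P := by ring
    rw [e4]
    refine (norm_add_le _ _).trans ?_
    rw [← aeval_real_complex]
    linarith
  have h5 : 1 ≤ L * (K * H) ^ (k - 1) * (|aeval x P| + K * H * |x - y|) := by
    calc (1 : ℝ) ≤ _ := h1
      _ ≤ L * (K * H) ^ (k - 1) * (|aeval x P| + K * H * |x - y|) := by gcongr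
  have hk1 : (K * H) ^ k = (K * H) ^ (k - 1) * (K * H) := by
    rw [← pow_succ]
    congr 1
    omega
  rw [hk1] at hsmall
  nlinarith

end Pool.Agent.H3.PowExp
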