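import Pool.Agent.H3.PowExpFin

/-! # Main proof (for `MP_9b3446_nt`) -/

namespace Pool.Agent.H3.PowExp

open Polynomial
open scoped NNReal ENNReal

/-- Numeric core: smallness condition. -/
lemma small_core {A u e K T H : ℝ} {N k : ℕ} (hA : 1 ≤ A) (he : u ≤ e) (hK : 0 ≤ K) (hT : 0 ≤ T)
    (hH : 0 ≤ H) (hAK : 2 * T * K ^ k ≤ A) (hHk : H ^ k ≤ A ^ (u - N)) {L d : ℝ}
    (hL : L ≤ A ^ N) (hL0 : 0 ≤ L) (hd : d ≤ T * A ^ (-(e + 1))) (hd0 : 0 ≤ d) :
    L * (K * H) ^ k * d ≤ 1 / 2 := by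
  have hA0 : 0 < A := by linarith
  have e1 : A ^ (-(e + 1)) ≤ A ^ (-(u + 1)) := Real.rpow_le_rpow_of_exponent_le hA (by linarith)
  have e2 : A ^ N * A ^ (u - N) * A ^ (-(u + 1)) * A = 1 := by
    rw [← Real.rpow_natCast A N, ← Real.rpow_add hA0, ← Real.rpow_add hA0]
    nth_rewrite 2 [← Real.rpow_one A]
    rw [← Real.rpow_add hA0]
    have : (N : ℝ) + (u - N) + -(u + 1) + 1 = 0 := by ring
    rw [this, Real.rpow_zero]
  have hAN : 0 < A ^ N := by positivity
  have hAu : 0 < A ^ (u - N) := Real.rpow_pos_of_pos hA0 _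
  have hAu1 : 0 < A ^ (-(u + 1)) := Real.rpow_pos_of_pos hA0 _
  have hKk : 0 ≤ K ^ k := by positivity
  have hHk0 : 0 ≤ H ^ k := by positivity
  rw [mul_pow]
  calc L * (K ^ k * H ^ k) * d
      ≤ A ^ N * (K ^ k * A ^ (u - N)) * (T * A ^ (-(u + 1))) := by
        have : d ≤ T * A ^ (-(u + 1)) := hd.trans (by gcongr)
        gcongr
    _ = (T * K ^ k) * (A ^ N * A ^ (u - N) * A ^ (-(u + 1))) := by ring
    _ ≤ (A / 2) * (A ^ N * A ^ (u - N) * A ^ (-(u + 1))) := by
        have : T * K ^ k ≤ A / 2 := by linarith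
        gcongr
    _ = 1 / 2 := by linarith

/-- Numeric core: final lower bound. -/
lemma final_core {L K H C' u v : ℝ} {k : ℕ} (hk : 1 ≤ k) (hK : 0 < K) (hH : 1 ≤ H) (hC' : 0 < C')
    (hL0 : 0 < L) (hL : L ≤ C' * H ^ (u - (k - 1))) (h : 1 / 2 ≤ L * (K * H) ^ (k - 1) * v) :
    1 / (2 * C' * K ^ (k - 1)) * H ^ (-u) ≤ v := by
  have hH0 : 0 < H := by linarith
  have e1 : H ^ (u - (k - 1)) * H ^ (k - 1) = H ^ u := by
    rw [← Real.rpow_natCast H (k - 1), ← Real.rpow_add hH0]
    congr 1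
    push_cast [Nat.cast_sub hk]
    ring
  have hHu : 0 < H ^ u := Real.rpow_pos_of_pos hH0 _
  have hv : 0 < v := by
    by_contra hv
    rw [not_lt] at hv
    have : L * (K * H) ^ (k - 1) * v ≤ 0 := by
      apply mul_nonpos_of_nonneg_of_nonpos _ hv
      positivity
    linarith
  have e2 : 1 / 2 ≤ C' * K ^ (k - 1) * H ^ u * v := by
    calc (1 : ℝ) / 2 ≤ L * (K * H) ^ (k - 1) * v := h
      _ ≤ (C' * H ^ (u - (k - 1))) * (K * H) ^ (k - 1) * v := by gcongr
      _ = C' * K ^ (k - 1) * (H ^ (u - (k - 1)) * H ^ (k - 1)) * v := by rw [mul_pow]; ring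
      _ = _ := by rw [e1]
  rw [Real.rpow_neg hH0.le, ← one_div, div_mul_div_comm, div_le_iff₀ (by positivity)]
  linarith

lemma lower_of_upper_rpow {A : ℝ} {e : ℝ} (hA : 0 < A) : A * A ^ (-(e + 1)) = A ^ (-e) := by
  nth_rewrite 1 [← Real.rpow_one A]
  rw [← Real.rpow_add hA]
  congr 1
  ring

theorem main (n k : ℕ) (hn : 1 ≤ n) (hk : 2 ≤ k) (δ : ℝ≥0) :
    ∃ ξ : ℝ, Transcendental ℤ ξ ∧ ∃ u : ℝ≥0,
      wExp n (ξ ^ k) = u ∧ wExp (k * n) ξ = (u + δ : ℝ≥0) ∧
      wStar n (ξ ^ k) = u ∧ wStar (k * n) ξ = (u + δ : ℝ≥0) := by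
  classical
  set N := k * n with hN
  set u : ℝ≥0 := 4 * k * N + k + 2 * N + δ + 1 with hu
  set w : ℝ≥0 := u + δ with hw
  have hur : (u : ℝ) = 4 * k * N + k + 2 * N + δ + 1 := by rw [hu]; push_cast; ring
  have hwr : (w : ℝ) = u + δ := by rw [hw]; push_cast; ring
  have hδ0 : (0 : ℝ) ≤ δ := δ.2
  have hk2 : (2 : ℝ) ≤ k := by exact_mod_cast hk
  have hNk : (2 : ℝ) ≤ N := by
    have : 2 ≤ N := by rw [hN]; nlinarith
    exact_mod_cast this
  have hnN : n ≤ N := by rw [hN]; nlinarith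
  have hkN : (0 : ℝ) ≤ k * N := by positivity
  have huw : (u : ℝ) ≤ w := by rw [hwr]; linarith
  have hu1 : (1 : ℝ) ≤ u := by rw [hur]; nlinarith
  have huN : (N : ℝ) + 1 ≤ u := by rw [hur]; nlinarith
  -- sequences
  let kap : ℕ → ℕ := fun j => if Even j then k else 1
  let co : ℕ → ℕ := fun j => if Even j then 1 else k
  let e : ℕ → ℝ := fun j => if Even j then (u : ℝ) else w
  have hkap : ∀ j, 1 ≤ kap j ∧ kap j ≤ k := by
    intro j; simp only [kap]; split_ifs <;> omega
  have hco : ∀ j, 1 ≤ co j ∧ co j ≤ k := by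
    intro j; simp only [co]; split_ifs <;> omega
  have hkc : ∀ j, kap j * co j = k := by
    intro j; simp only [co, kap]; split_ifs <;> simp
  have heu : ∀ j, (u : ℝ) ≤ e j := by
    intro j; simp only [e]; split_ifs
    · exact le_rfl
    · exact huw
  have hew : ∀ j, e j ≤ w := by
    intro j; simp only [e]; split_ifs
    · exact huw
    · exact le_rfl
  have he1 : ∀ j, 1 ≤ e j := fun j => hu1.trans (heu j)
  -- constants
  set K1 : ℝ := (N + 1) ^ 2 * 2 ^ N with hK1
  set K2 : ℝ := (n + 1) ^ 2 * ((2 : ℝ) ^ k) ^ n with hK2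
  set T1 : ℝ := 2 with hT1
  set T2 : ℝ := k * 2 ^ k * 2 with hT2
  have hK1p : 0 < K1 := by positivity
  have hK2p : 0 < K2 := by positivity
  have hT2p : 0 < T2 := by positivity
  set A0 : ℝ := 8 + 2 * T1 * K1 ^ k + 2 * T2 * K2 ^ k with hA0
  have hA08 : 8 ≤ A0 := by rw [hA0]; have : 0 ≤ 2 * T1 * K1 ^ k := by positivity
                           have : 0 ≤ 2 * T2 * K2 ^ k := by positivity
                           linarith
  have hA0K1 : 2 * T1 * K1 ^ k ≤ A0 := by
    rw [hA0]; have : 0 ≤ 2 * T2 * K2 ^ k := by positivity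
    linarith
  have hA0K2 : 2 * T2 * K2 ^ k ≤ A0 := by
    rw [hA0]; have : 0 ≤ 2 * T1 * K1 ^ k := by positivity
    linarith
  -- enumeration of the algebraic numbers
  obtain ⟨x, hx⟩ : ∃ x : ℕ → ℝ, {y : ℝ | IsAlgebraic ℤ y} = Set.range x :=
    (Algebraic.countable ℤ ℝ).exists_eq_range ⟨0, isAlgebraic_zero⟩
  obtain ⟨f, ξ, hξx, hf, hξ2⟩ := exists_points kap hkap e he1 x A0 hA08
  choose g1 g2 g3 g4 g5 g6 g7 g8 g9 g10 using hf
  have htr : Transcendental ℤ ξ := by
    intro h
    have : ξ ∈ Set.range x := by rw [← hx]; exact h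
    obtain ⟨j, hj⟩ := this
    exact hξx j hj.symm
  -- real versions
  let A : ℕ → ℝ := fun j => (f j).a
  let R : ℕ → ℝ := fun j => A j ^ (-(e j + 1))
  have hA8 : ∀ j, 8 ≤ A j := fun j => hA08.trans (g4 j)
  have hA1 : ∀ j, 1 ≤ A j := fun j => by linarith [hA8 j]
  have hApos : ∀ j, 0 < A j := fun j => by linarith [hA8 j]
  have hRpos : ∀ j, 0 < R j := fun j => Real.rpow_pos_of_pos (hApos j) _
  have hα1 : ∀ j, 1 ≤ (f j).α := fun j => by linarith [g5 j]
  have hαξ : ∀ j, (f j).α ≤ ξ := fun j => by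
    have := g7 j; have := hRpos j; simp only [R, A] at this; linarith
  have hdiff1 : ∀ j, R j ≤ ξ - (f j).α := fun j => by
    have := g7 j; simp only [R, A]; linarith
  have hdiff2 : ∀ j, ξ - (f j).α ≤ 2 * R j := fun j => by
    have := g8 j; simp only [R, A]; linarith
  have hξ1 : 1 ≤ ξ := (hα1 0).trans (hαξ 0)
  have hbpos : ∀ j, (0 : ℝ) < (f j).b := fun j => by exact_mod_cast g2 j
  have hba : ∀ j, (f j).b < (f j).a := by
    intro j
    have h1 : (1 : ℝ) < (f j).α ^ kap j :=
      one_lt_pow₀ (by linarith [g5 j]) (by have := (hkap j).1; omega)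
    have h2 : ((f j).b : ℝ) < (f j).a := by
      rw [← g3 j]
      have := hbpos j
      nlinarith
    exact_mod_cast h2
  have hbA : ∀ j, ((f j).b : ℝ) ≤ A j := by
    intro j
    show ((f j).b : ℝ) ≤ ((f j).a : ℝ)
    exact_mod_cast (hba j).le
  have hba2 : ∀ j, A j ≤ (f j).b * 2 ^ kap j := by
    intro j
    simp only [A]
    rw [← g3 j]
    have : (f j).α ^ kap j ≤ 2 ^ kap j := pow_le_pow_left₀ (by linarith [hα1 j]) (g6 j) _
    have := hbpos j
    gcongr
  have hcop : ∀ j, Nat.Coprime (f j).b (f j).a := fun j =>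
    (Nat.coprime_of_lt_prime (by have := g2 j; omega) (hba j) (g1 j)).symm
  -- the two families of polynomials
  let F : ℕ → ℤ[X] := fun j => binP (f j).b (f j).a (kap j)
  let G : ℕ → ℤ[X] := fun j => binP ((f j).b ^ co j) ((f j).a ^ co j) 1
  have hFirr : ∀ j, Irreducible (F j) := fun j => irreducible_binP (g1 j) (g2 j) (hba j) (hkap j).1
  have hbco : ∀ j, 0 < (f j).b ^ co j := fun j => Nat.pow_pos (g2 j)
  have hGirr : ∀ j, Irreducible (G j) := fun j =>
    irreducible_binP_one (hbco j) (Nat.Coprime.pow _ _ (hcop j))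
  have hFdeg : ∀ j, (F j).natDegree = kap j := fun j => natDegree_binP (g2 j)
  have hGdeg : ∀ j, (G j).natDegree = 1 := fun j => natDegree_binP (hbco j)
  have hFht : ∀ j, ht (F j) = (f j).a := fun j => ht_binP (hba j).le (hkap j).1
  have hGht : ∀ j, ht (G j) = (f j).a ^ co j := fun j =>
    ht_binP (Nat.pow_le_pow_left (hba j).le _) le_rfl
  -- values at `ξ` and `ξ ^ k`
  have hFval : ∀ j, aeval ξ (F j) = (f j).b * (ξ ^ kap j - (f j).α ^ kap j) := by
    intro j
    simp only [F]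
    rw [aeval_binP, mul_sub, g3 j]
  have hbk : ∀ j, ((f j).b : ℝ) ^ co j * (f j).α ^ k = (f j).a ^ co j := by
    intro j
    rw [← hkc j, pow_mul, ← mul_pow, g3 j]
  have hGval : ∀ j, aeval (ξ ^ k) (G j) = ((f j).b : ℝ) ^ co j * (ξ ^ k - (f j).α ^ k) := by
    intro j
    simp only [G]
    rw [aeval_binP, mul_sub, hbk j]
    push_cast
    ring
  have hFlow : ∀ j, 1 / 2 ^ k * A j ^ (-e j) ≤ |aeval ξ (F j)| := by
    intro j
    have h1 := (pow_diff (hα1 j) (hαξ j) hξ2 (hkap j).1).1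
    have h2 : R j ≤ ξ ^ kap j - (f j).α ^ kap j := (hdiff1 j).trans h1
    have h3 : 1 / 2 ^ k * A j ≤ (f j).b := by
      rw [div_mul_eq_mul_div, one_mul, div_le_iff₀ (by positivity)]
      refine (hba2 j).trans ?_
      have : (2 : ℝ) ^ kap j ≤ 2 ^ k := pow_le_pow_right₀ (by norm_num) (hkap j).2
      have := hbpos j
      gcongr
    rw [hFval, abs_of_nonneg (by have := hbpos j; have := hRpos j; nlinarith)]
    rw [← lower_of_upper_rpow (hApos j), ← mul_assoc]
    have := hApos j
    have := hRpos j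
    calc 1 / 2 ^ k * A j * A j ^ (-(e j + 1)) ≤ (f j).b * R j := by
          simp only [R]; gcongr
      _ ≤ _ := by have := hbpos j; gcongr
  have hFup : ∀ j, |aeval ξ (F j)| ≤ (k * 2 ^ k * 2) * A j ^ (-e j) := by
    intro j
    have h1 := (pow_diff (hα1 j) (hαξ j) hξ2 (hkap j).1).2
    have h0 := (pow_diff (hα1 j) (hαξ j) hξ2 (hkap j).1).1
    have hb := hbpos j
    have hR := hRpos j
    have hd1 := hdiff1 j
    have hd2 := hdiff2 j
    rw [hFval, abs_of_nonneg (by nlinarith)]
    have h3 : ((f j).b : ℝ) ≤ A j := hbA j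
    have h4 : (kap j : ℝ) * 2 ^ kap j ≤ k * 2 ^ k := by
      have e1 : (kap j : ℝ) ≤ k := by exact_mod_cast (hkap j).2
      have e2 : (2 : ℝ) ^ kap j ≤ 2 ^ k := pow_le_pow_right₀ (by norm_num) (hkap j).2
      gcongr
    have hA := hApos j
    calc ((f j).b : ℝ) * (ξ ^ kap j - (f j).α ^ kap j)
        ≤ A j * (k * 2 ^ k * (2 * R j)) := by
          have e1 : ξ ^ kap j - (f j).α ^ kap j ≤ k * 2 ^ k * (2 * R j) := by
            calc _ ≤ kap j * 2 ^ kap j * (ξ - (f j).α) := h1
              _ ≤ k * 2 ^ k * (2 * R j) := by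
                have : 0 ≤ ξ - (f j).α := by linarith
                gcongr
          have e2 : 0 ≤ ξ ^ kap j - (f j).α ^ kap j := by linarith
          gcongr
      _ = (k * 2 ^ k * 2) * (A j * A j ^ (-(e j + 1))) := by simp only [R]; ring
      _ = _ := by rw [lower_of_upper_rpow hA]
  have hk1 : 1 ≤ k := by omega
  have hGlow : ∀ j, 1 / 2 ^ k * ((A j) ^ co j * R j) ≤ |aeval (ξ ^ k) (G j)| := by
    intro j
    have h1 := (pow_diff (hα1 j) (hαξ j) hξ2 hk1).1
    have h2 : R j ≤ ξ ^ k - (f j).α ^ k := (hdiff1 j).trans h1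
    have hb := hbpos j
    have hR := hRpos j
    have h3 : 1 / 2 ^ k * A j ^ co j ≤ ((f j).b : ℝ) ^ co j := by
      rw [div_mul_eq_mul_div, one_mul, div_le_iff₀ (by positivity)]
      have := pow_le_pow_left₀ (hApos j).le (hba2 j) (co j)
      rw [mul_pow, ← pow_mul, hkc j] at this
      exact this
    have hbc : 0 < ((f j).b : ℝ) ^ co j := by positivity
    rw [hGval, abs_of_nonneg (by nlinarith)]
    calc 1 / 2 ^ k * ((A j) ^ co j * R j) = (1 / 2 ^ k * A j ^ co j) * R j := by ring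
      _ ≤ ((f j).b : ℝ) ^ co j * (ξ ^ k - (f j).α ^ k) := by gcongr
  have hGdiff : ∀ j, |ξ ^ k - (f j).α ^ k| ≤ T2 * R j := by
    intro j
    have h := pow_diff (hα1 j) (hαξ j) hξ2 hk1
    have hd1 := hdiff1 j
    have hd2 := hdiff2 j
    have hR := hRpos j
    rw [abs_of_nonneg (by linarith [h.1])]
    calc _ ≤ _ := h.2
      _ ≤ k * 2 ^ k * (2 * R j) := by gcongr
      _ = T2 * R j := by rw [hT2]; ring
  -- selection
  obtain ⟨C', hC', hsel⟩ := sel A k N u w (4 ^ (k + 2)) (hA1 0)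
    (fun j => by have := g10 j; simp only [A]; exact_mod_cast this)
    (by positivity)
    (fun j => (g9 j).trans (by
      have := hew j
      have h1 := hA1 j
      simp only [A] at h1 ⊢
      gcongr))
    huN
    (by
      have e1 : (w : ℝ) + 1 ≤ 2 * u := by rw [hwr, hur]; nlinarith
      have e2 : (u : ℝ) / 2 ≤ u - N := by rw [hur]; nlinarith
      have e3 : 4 * (k : ℝ) * N ≤ u - (k - 1) := by rw [hur]; nlinarith
      have hu0 : (0 : ℝ) ≤ u := by linarith
      calc (k : ℝ) * (N * (w + 1)) ≤ k * (N * (2 * u)) := by gcongr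
        _ = (4 * k * N) * (u / 2) := by ring
        _ ≤ (u - (k - 1)) * (u - N) := by
            apply mul_le_mul e3 e2 (by linarith) (by nlinarith))
    (by rw [hur]; nlinarith)
    (by rw [hwr]; linarith)
  -- unbounded
  have hA2 : ∀ j : ℕ, (j : ℝ) ≤ A j := by
    have h : ∀ j : ℕ, (2 : ℝ) ^ j ≤ A j := by
      intro j
      induction j with
      | zero => simpa using hA1 0
      | succ j ih =>
        have : (2 : ℝ) * A j ≤ A (j + 1) := by
          have := g10 j; simp only [A]; exact_mod_cast this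
        rw [pow_succ]; linarith
    intro j
    refine le_trans ?_ (h j)
    exact_mod_cast (Nat.lt_two_pow_self (n := j)).le
  have hunb : ∀ B : ℕ, ∀ j, B ≤ j → B ≤ (f j).a := by
    intro B j hj
    have h1 : (B : ℝ) ≤ A j := le_trans (by exact_mod_cast hj) (hA2 j)
    simp only [A] at h1
    exact_mod_cast h1
  -- lower bound for `|P(ξ)|`
  have hP1 : ∃ c' : ℝ, 0 < c' ∧ ∀ P : ℤ[X], P ≠ 0 → P.natDegree ≤ N →
      c' * (ht P : ℝ) ^ (-(w : ℝ)) ≤ |aeval ξ P| := by
    set c : ℝ := min (1 / 2 ^ k) (1 / (2 * C' * K1 ^ (k - 1))) with hc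
    have hcpos : 0 < c := lt_min (by positivity) (by positivity)
    apply lower_bound ξ N w c (by linarith) hcpos
    intro H hH
    obtain ⟨j, hj1, hj2⟩ := hsel H hH
    refine ⟨F j, hFirr j, by rw [hFdeg]; exact (hkap j).1, ?_, fun P hP hPd hPh hdiv => ?_⟩
    · rw [hFht]
      refine le_trans ?_ (hFlow j)
      have h1 : A j ^ (-(w : ℝ)) ≤ A j ^ (-e j) :=
        Real.rpow_le_rpow_of_exponent_le (hA1 j) (by linarith [hew j])
      have h2 : 0 < A j ^ (-(w : ℝ)) := Real.rpow_pos_of_pos (hApos j) _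
      have h3 : c ≤ 1 / 2 ^ k := min_le_left _ _
      calc c * ((f j).a : ℝ) ^ (-(w : ℝ)) = c * A j ^ (-(w : ℝ)) := rfl
        _ ≤ 1 / 2 ^ k * A j ^ (-e j) := by gcongr
    · have hHr : (1 : ℝ) ≤ H := by exact_mod_cast hH
      have hlead : (F j).leadingCoeff = (f j).b := leadingCoeff_binP (g2 j) (hkap j).1
      have hL : |((F j).leadingCoeff : ℝ)| ^ N ≤ A j ^ N := by
        rw [hlead]
        have h3 : ((f j).b : ℝ) ≤ A j := hbA j
        have := hbpos j
        rw [Int.cast_natCast, abs_of_pos this]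
        gcongr
      have ht := transfer (F j) P (hFirr j) (by rw [hFdeg]; exact (hkap j).1)
        (by rw [hFdeg]; exact (hkap j).2) (B := 2) (by norm_num)
        (roots_binP (g2 j) (hkap j).1 (by norm_num) (hba2 j)) hPd hP hPh hdiv
        (x := ξ) (y := (f j).α)
        (by rw [abs_of_nonneg (by linarith)]; exact hξ2)
        (by rw [abs_of_nonneg (by linarith [hα1 j])]; exact g6 j)
        (by
          simp only [F]
          rw [aeval_binP, sub_eq_zero]
          have := g3 j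
          exact_mod_cast this)
        hL (K := K1) le_rfl
        (small_core (hA1 j) (heu j) hK1p.le (by norm_num : (0 : ℝ) ≤ T1) (by positivity)
          (hA0K1.trans (g4 j)) hj1 le_rfl (by have := hApos j; positivity)
          (by
            rw [abs_of_nonneg (by linarith [hαξ j])]
            exact hdiff2 j)
          (abs_nonneg _))
      have h5 := final_core hk1 hK1p hHr hC' (by have := hApos j; positivity) hj2 ht
      refine le_trans ?_ h5
      have h6 : (H : ℝ) ^ (-(w : ℝ)) ≤ (H : ℝ) ^ (-(u : ℝ)) :=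
        Real.rpow_le_rpow_of_exponent_le hHr (by linarith)
      have h7 : 0 < (H : ℝ) ^ (-(w : ℝ)) := Real.rpow_pos_of_pos (by linarith) _
      have h8 : c ≤ 1 / (2 * C' * K1 ^ (k - 1)) := min_le_right _ _
      gcongr
  -- lower bound for `|Q(ξ^k)|`
  have hP2 : ∃ c' : ℝ, 0 < c' ∧ ∀ P : ℤ[X], P ≠ 0 → P.natDegree ≤ n →
      c' * (ht P : ℝ) ^ (-(u : ℝ)) ≤ |aeval (ξ ^ k) P| := by
    set c : ℝ := min (1 / 2 ^ k) (1 / (2 * C' * K2 ^ (k - 1))) with hc
    have hcpos : 0 < c := lt_min (by positivity) (by positivity)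
    apply lower_bound (ξ ^ k) n u c (by linarith) hcpos
    intro H hH
    obtain ⟨j, hj1, hj2⟩ := hsel H hH
    refine ⟨G j, hGirr j, by rw [hGdeg], ?_, fun P hP hPd hPh hdiv => ?_⟩
    · rw [hGht]
      refine le_trans ?_ (hGlow j)
      have h3 : c ≤ 1 / 2 ^ k := min_le_left _ _
      have h1 : (((f j).a ^ co j : ℕ) : ℝ) ^ (-(u : ℝ)) ≤ A j ^ co j * R j := by
        have e0 : (((f j).a ^ co j : ℕ) : ℝ) = A j ^ co j := by simp only [A]; push_cast; rfl
        rw [e0, ← Real.rpow_natCast (A j) (co j), ← Real.rpow_mul (hApos j).le]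
        simp only [R]
        rw [← Real.rpow_add (hApos j)]
        apply Real.rpow_le_rpow_of_exponent_le (hA1 j)
        simp only [co, e]
        split_ifs
        · push_cast; linarith
        · rw [hwr]
          have : (δ : ℝ) ≤ u := by rw [hur]; nlinarith
          nlinarith
      have h2 : 0 ≤ (((f j).a ^ co j : ℕ) : ℝ) ^ (-(u : ℝ)) := by positivity
      gcongr
    · have hHr : (1 : ℝ) ≤ H := by exact_mod_cast hH
      have hlead : (G j).leadingCoeff = ((f j).b ^ co j : ℕ) := leadingCoeff_binP (hbco j) le_rfl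
      have hL : |((G j).leadingCoeff : ℝ)| ^ n ≤ A j ^ N := by
        rw [hlead]
        have h3 : ((f j).b : ℝ) ≤ A j := hbA j
        have hb := hbpos j
        rw [Int.cast_natCast, abs_of_nonneg (by positivity)]
        push_cast
        rw [← pow_mul]
        calc ((f j).b : ℝ) ^ (co j * n) ≤ A j ^ (co j * n) := by gcongr
          _ ≤ A j ^ N := by
            apply pow_le_pow_right₀ (hA1 j)
            rw [hN]
            exact Nat.mul_le_mul_right _ (hco j).2
      have hαk : (f j).α ^ k ≤ 2 ^ k := pow_le_pow_left₀ (by linarith [hα1 j]) (g6 j) _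
      have hαk0 : 0 ≤ (f j).α ^ k := by have := hα1 j; positivity
      have ht := transfer (G j) P (hGirr j) (by rw [hGdeg])
        (by rw [hGdeg]; exact hk1) (B := 2 ^ k) (one_le_pow₀ (by norm_num))
        (roots_binP (hbco j) le_rfl (by positivity) (by
          push_cast
          rw [← hbk j, pow_one]
          have := hbpos j
          gcongr)) hPd hP hPh hdiv
        (x := ξ ^ k) (y := (f j).α ^ k)
        (by rw [abs_of_nonneg (by positivity)]; exact pow_le_pow_left₀ (by linarith) hξ2 _)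
        (by rw [abs_of_nonneg hαk0]; exact hαk)
        (by
          simp only [G]
          rw [aeval_binP, sub_eq_zero]
          have := hbk j
          push_cast
          rw [pow_one]
          exact_mod_cast this)
        hL (K := K2) le_rfl
        (small_core (hA1 j) (heu j) hK2p.le hT2p.le (by positivity)
          (hA0K2.trans (g4 j)) hj1 le_rfl (by have := hApos j; positivity)
          (hGdiff j)
          (abs_nonneg _))
      have h5 := final_core hk1 hK2p hHr hC' (by have := hApos j; positivity) hj2 ht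
      refine le_trans ?_ h5
      have h7 : 0 < (H : ℝ) ^ (-(u : ℝ)) := Real.rpow_pos_of_pos (by linarith) _
      have h8 : c ≤ 1 / (2 * C' * K2 ^ (k - 1)) := min_le_right _ _
      gcongr
  obtain ⟨c1, hc1, hc1'⟩ := hP1
  obtain ⟨c2, hc2, hc2'⟩ := hP2
  have hξpos : ∀ j, 0 < ξ - (f j).α := fun j => lt_of_lt_of_le (hRpos j) (hdiff1 j)
  refine ⟨ξ, htr, u, ?_, ?_, ?_, ?_⟩
  · apply le_antisymm (wExp_le hc2 hc2')
    apply le_wExp (C := T2) hT2p
    intro B
    have hev : Even (2 * B) := even_two_mul B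
    have hc1 : co (2 * B) = 1 := by simp [co, hev]
    have heE : e (2 * B) = u := by simp [e, hev]
    refine ⟨G (2 * B), by rw [hGdeg]; exact hn, ?_, ?_, ?_⟩
    · rw [hGht, hc1, pow_one]
      exact hunb B _ (by omega)
    · refine lt_of_lt_of_le ?_ (hGlow (2 * B))
      have := hApos (2 * B)
      have := hRpos (2 * B)
      positivity
    · rw [hGht, hc1, pow_one, hGval, hc1, pow_one, abs_mul, abs_of_pos (hbpos _)]
      have h3 : ((f (2 * B)).b : ℝ) ≤ A (2 * B) := hbA _
      have hA := hApos (2 * B)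
      calc ((f (2 * B)).b : ℝ) * |ξ ^ k - (f (2 * B)).α ^ k|
          ≤ A (2 * B) * (T2 * R (2 * B)) := by
            have := hGdiff (2 * B)
            gcongr
        _ = T2 * (A (2 * B) * A (2 * B) ^ (-(e (2 * B) + 1))) := by simp only [R]; ring
        _ = _ := by rw [lower_of_upper_rpow hA, heE]
  · apply le_antisymm (wExp_le hc1 hc1')
    apply le_wExp (C := k * 2 ^ k * 2) (by positivity)
    intro B
    have hev : ¬ Even (2 * B + 1) := Nat.not_even_two_mul_add_one B
    have hkp : kap (2 * B + 1) = 1 := by simp only [kap]; rw [if_neg hev]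
    have heE : e (2 * B + 1) = w := by simp only [e]; rw [if_neg hev]
    refine ⟨F (2 * B + 1), by rw [hFdeg, hkp]; omega, ?_, ?_, ?_⟩
    · rw [hFht]
      exact hunb B _ (by omega)
    · refine lt_of_lt_of_le ?_ (hFlow (2 * B + 1))
      have := hApos (2 * B + 1)
      positivity
    · rw [hFht]
      have := hFup (2 * B + 1)
      rw [heE] at this
      exact this
  · apply le_antisymm (wStar_le hc2 hc2')
    apply le_wStar (C := T2) hT2p
    intro B
    have hev : Even (2 * B) := even_two_mul B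
    have hc1 : co (2 * B) = 1 := by simp [co, hev]
    have heE : e (2 * B) = u := by simp [e, hev]
    have hnorm : ‖((ξ ^ k : ℝ) : ℂ) - (((f (2 * B)).α ^ k : ℝ) : ℂ)‖ = |ξ ^ k - (f (2 * B)).α ^ k| := by
      rw [← Complex.ofReal_sub, Complex.norm_real, Real.norm_eq_abs]
    refine ⟨G (2 * B), (((f (2 * B)).α ^ k : ℝ) : ℂ), hGirr _, ?_, by rw [hGdeg]; exact hn, ?_, ?_, ?_⟩
    · simp only [G]
      rw [aeval_binP, sub_eq_zero]
      have := hbk (2 * B)
      push_cast
      rw [pow_one]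
      exact_mod_cast this
    · rw [hGht, hc1, pow_one]
      exact hunb B _ (by omega)
    · rw [hnorm, abs_pos]
      have := (pow_diff (hα1 (2 * B)) (hαξ _) hξ2 hk1).1
      have := hξpos (2 * B)
      linarith
    · rw [hnorm, hGht, hc1, pow_one]
      have := hGdiff (2 * B)
      simp only [R] at this
      rw [heE] at this
      rw [show -(u : ℝ) - 1 = -((u : ℝ) + 1) by ring]
      exact this
  · apply le_antisymm (wStar_le hc1 hc1')
    apply le_wStar (C := 2) (by norm_num)
    intro B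
    have hev : ¬ Even (2 * B + 1) := Nat.not_even_two_mul_add_one B
    have hkp : kap (2 * B + 1) = 1 := by simp only [kap]; rw [if_neg hev]
    have heE : e (2 * B + 1) = w := by simp only [e]; rw [if_neg hev]
    have hnorm : ‖(ξ : ℂ) - ((f (2 * B + 1)).α : ℂ)‖ = ξ - (f (2 * B + 1)).α := by
      rw [← Complex.ofReal_sub, Complex.norm_real, Real.norm_eq_abs, abs_of_pos (hξpos _)]
    refine ⟨F (2 * B + 1), ((f (2 * B + 1)).α : ℂ), hFirr _, ?_, by rw [hFdeg, hkp]; omega, ?_, ?_, ?_⟩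
    · simp only [F]
      rw [aeval_binP, sub_eq_zero]
      have := g3 (2 * B + 1)
      exact_mod_cast this
    · rw [hFht]
      exact hunb B _ (by omega)
    · rw [hnorm]
      exact hξpos _
    · rw [hnorm, hFht]
      have := hdiff2 (2 * B + 1)
      simp only [R] at this
      rw [heE] at this
      rw [show -(w : ℝ) - 1 = -((w : ℝ) + 1) by ring]
      exact this

end Pool.Agent.H3.PowExp
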