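import Mathlib

/-! # Algebraic core for `MP_d071c2_nt`: integral pairs of binary forms with unit resultant
away from `2` are Zariski dense. -/

namespace Pool.Agent.H3.Shaf

open Polynomial

/-- Key structural property giving good reduction away from `2`. -/
def Good2 {d : ℕ} (m : Fin 2 → Fin (d + 1) → ℤ) : Prop :=
  ∃ (lam : Fin d → ℤ) (k : ℕ) (t : Fin d → ℕ) (A : ℤ[X]), A.natDegree ≤ d ∧
    (∀ j : Fin (d + 1), m 0 j = A.coeff j) ∧
    (∀ j : Fin (d + 1), m 1 j = 2 ^ k * (∏ i, (X - C (lam i)) : ℤ[X]).coeff j) ∧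
    ∀ i, A.eval (lam i) = 2 ^ t i

lemma sum_form {L : Type*} [Field L] {d : ℕ} (Q : L[X]) (hQ : Q.natDegree ≤ d) (x y : L)
    (hy : y ≠ 0) :
    ∑ j : Fin (d + 1), Q.coeff j * x ^ (j : ℕ) * y ^ (d - j) = y ^ d * Q.eval (x / y) := by
  rw [Polynomial.eval_eq_sum_range' (Nat.lt_succ_of_le hQ), Finset.mul_sum,
    ← Fin.sum_univ_eq_sum_range (fun i => y ^ d * (Q.coeff i * (x / y) ^ i))]
  refine Finset.sum_congr rfl fun j _ => ?_
  have hj : (j : ℕ) ≤ d := Nat.lt_succ_iff.mp j.2
  have : y ^ d = y ^ (d - j) * y ^ (j : ℕ) := by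
    rw [← pow_add, Nat.sub_add_cancel hj]
  rw [this, div_pow]
  have hyj : y ^ (j : ℕ) ≠ 0 := pow_ne_zero _ hy
  field_simp

lemma good2_noZero {d : ℕ} {m : Fin 2 → Fin (d + 1) → ℤ} (hm : Good2 m) (hd : 1 ≤ d)
    {L : Type*} [Field L] (h2 : (2 : L) ≠ 0) (x y : L)
    (h0 : ∑ j : Fin (d + 1), (m 0 j : L) * x ^ (j : ℕ) * y ^ (d - j) = 0)
    (h1 : ∑ j : Fin (d + 1), (m 1 j : L) * x ^ (j : ℕ) * y ^ (d - j) = 0) :
    x = 0 ∧ y = 0 := by
  obtain ⟨lam, k, t, A, hA, hm0, hm1, hA1⟩ := hm
  set g : ℤ[X] := ∏ i, (X - C (lam i)) with hg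
  have hgdeg : g.natDegree = d := by
    rw [hg, Polynomial.natDegree_finsetProd_X_sub_C_eq_card]
    simp
  have hgmonic : g.Monic := Polynomial.monic_prod_X_sub_C _ _
  by_cases hy : y = 0
  · subst hy
    refine ⟨?_, rfl⟩
    have hlast : ∑ j : Fin (d + 1), (m 1 j : L) * x ^ (j : ℕ) * (0 : L) ^ (d - j)
        = (m 1 (Fin.last d) : L) * x ^ d := by
      rw [Finset.sum_eq_single (Fin.last d)]
      · simp
      · intro b _ hb
        have : d - (b : ℕ) ≠ 0 := by
          have hb' : (b : ℕ) ≠ d := fun h => hb (Fin.ext (by simpa using h))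
          have := b.2
          omega
        rw [zero_pow this, mul_zero]
      · simp
    rw [hlast, hm1] at h1
    have hc : g.coeff ((Fin.last d : Fin (d + 1)) : ℕ) = 1 := by
      have := hgmonic.coeff_natDegree
      rw [hgdeg] at this
      simpa using this
    rw [hc] at h1
    push_cast at h1
    rw [mul_one] at h1
    have := (mul_eq_zero.mp h1).resolve_left (pow_ne_zero _ h2)
    exact pow_eq_zero_iff (by omega) |>.mp this
  · exfalso
    -- second form
    have e1 : ∑ j : Fin (d + 1), (m 1 j : L) * x ^ (j : ℕ) * y ^ (d - j)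
        = y ^ d * ((C ((2 : L) ^ k) * g.map (Int.castRingHom L)).eval (x / y)) := by
      rw [← sum_form _ _ x y hy]
      · refine Finset.sum_congr rfl fun j _ => ?_
        rw [hm1, coeff_C_mul, coeff_map]
        push_cast
        simp
      · refine (natDegree_C_mul_le _ _).trans ?_
        refine natDegree_map_le.trans hgdeg.le
    rw [e1] at h1
    have h1' := (mul_eq_zero.mp h1).resolve_left (pow_ne_zero _ hy)
    rw [eval_mul, eval_C] at h1'
    have h1'' := (mul_eq_zero.mp h1').resolve_left (pow_ne_zero _ h2)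
    rw [hg, Polynomial.map_prod, eval_prod, Finset.prod_eq_zero_iff] at h1''
    obtain ⟨i, _, hi⟩ := h1''
    have hxi : x / y = (lam i : L) := by
      simpa [sub_eq_zero] using hi
    have e0 : ∑ j : Fin (d + 1), (m 0 j : L) * x ^ (j : ℕ) * y ^ (d - j)
        = y ^ d * ((A.map (Int.castRingHom L)).eval (x / y)) := by
      rw [← sum_form _ _ x y hy]
      · refine Finset.sum_congr rfl fun j _ => ?_
        rw [hm0, coeff_map]
        simp
      · exact natDegree_map_le.trans hA
    rw [e0, hxi] at h0
    have h0' := (mul_eq_zero.mp h0).resolve_left (pow_ne_zero _ hy)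
    have : (A.map (Int.castRingHom L)).eval (lam i : L) = ((A.eval (lam i) : ℤ) : L) := by
      rw [Polynomial.eval_intCast_map]; simp
    rw [this, hA1] at h0'
    push_cast at h0'
    exact pow_ne_zero _ h2 h0'

/-- For a nonzero integer `δ` there are `s` and `m > 0` with `δ ∣ 2^s (2^(m t) - 1)` for all `t`. -/
lemma exists_exp (δ : ℤ) (hδ : δ ≠ 0) :
    ∃ s m : ℕ, 0 < m ∧ ∀ t : ℕ, δ ∣ 2 ^ s * (2 ^ (m * t) - 1) := by
  have hn : δ.natAbs ≠ 0 := Int.natAbs_ne_zero.mpr hδ
  obtain ⟨s, N, hN, hs⟩ := Nat.exists_eq_two_pow_mul_odd hn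
  refine ⟨s, N.totient, Nat.totient_pos.mpr hN.pos, fun t => ?_⟩
  rw [← Int.natAbs_dvd, hs]
  push_cast
  refine mul_dvd_mul_left _ ?_
  have h : Nat.Coprime 2 N := (Nat.coprime_two_left).mpr hN
  have h1 : 2 ^ N.totient ≡ 1 [MOD N] := Nat.ModEq.pow_totient h
  have h2 : 2 ^ (N.totient * t) ≡ 1 [MOD N] := by
    rw [pow_mul]
    simpa using h1.pow t
  have h3 := (Nat.modEq_iff_dvd).mp h2.symm
  simpa using h3

/-- Grid lemma: a polynomial that is nonzero somewhere on the image of a polynomial map is nonzero
somewhere on the image of a grid with infinite sides. -/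
lemma grid {Ω : Type*} [Field Ω] {σ τ : Type*} (P : MvPolynomial τ Ω)
    (g : τ → MvPolynomial σ Ω) (V : MvPolynomial σ Ω) (hV : V ≠ 0) (x0 : σ → Ω)
    (h : MvPolynomial.eval (fun t => MvPolynomial.eval x0 (g t)) P ≠ 0)
    (s : σ → Set Ω) (hs : ∀ i, (s i).Infinite) :
    ∃ x : σ → Ω, (∀ i, x i ∈ s i) ∧
      MvPolynomial.eval (fun t => MvPolynomial.eval x (g t)) P ≠ 0 ∧
      MvPolynomial.eval x V ≠ 0 := by
  have key : ∀ x : σ → Ω, MvPolynomial.eval x (MvPolynomial.aeval g P)
      = MvPolynomial.eval (fun t => MvPolynomial.eval x (g t)) P := by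
    intro x
    have := MvPolynomial.comp_aeval_apply (f := g) (MvPolynomial.aeval (R := Ω) x) P
    simpa [MvPolynomial.aeval_eq_eval, MvPolynomial.coe_aeval_eq_eval] using this
  have hR : MvPolynomial.aeval g P ≠ 0 := by
    intro h0
    apply h
    rw [← key, h0, map_zero]
  have hRV : MvPolynomial.aeval g P * V ≠ 0 := mul_ne_zero hR hV
  by_contra hcon
  push Not at hcon
  apply hRV
  refine MvPolynomial.funext_set s hs fun x hx => ?_
  rw [map_mul, map_zero, key]
  by_cases hx1 : MvPolynomial.eval (fun t => MvPolynomial.eval x (g t)) P = 0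
  · rw [hx1, zero_mul]
  · rw [hcon x (fun i => hx i (Set.mem_univ i)) hx1, mul_zero]


/-- Split a polynomial of exact degree `d` over an algebraically closed field. -/
lemma exists_roots {Ω : Type*} [Field Ω] [IsAlgClosed Ω] (q : Polynomial Ω) {d : ℕ}
    (hq : q.natDegree = d) :
    ∃ ρ : Fin d → Ω, q = C q.leadingCoeff * ∏ i, (X - C (ρ i)) := by
  have hs := IsAlgClosed.splits q
  have hcard : q.roots.card = d := by
    rw [← hq]; exact (Polynomial.splits_iff_card_roots.mp hs)
  obtain ⟨l, hl⟩ := Quot.exists_rep q.roots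
  have hl' : (l : Multiset Ω) = q.roots := hl
  have hlen : l.length = d := by
    rw [← hcard, ← hl']; rfl
  subst hlen
  refine ⟨fun i => l.get i, ?_⟩
  conv_lhs => rw [hs.eq_prod_roots]
  rw [← hl', Multiset.map_coe, Multiset.prod_coe]
  congr 1
  rw [← List.prod_ofFn]
  congr 1
  apply List.ext_get
  · simp
  · intro n h1 h2
    simp

open MvPolynomial in
/-- Main density theorem. -/
theorem exists_good {Ω : Type*} [Field Ω] [CharZero Ω] [IsAlgClosed Ω] {d : ℕ} (hd : 1 ≤ d)
    (P : MvPolynomial (Fin 2 × Fin (d + 1)) Ω) (hP : P ≠ 0) :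
    ∃ m : Fin 2 → Fin (d + 1) → ℤ, Good2 m ∧
      MvPolynomial.eval (fun p => (m p.1 p.2 : Ω)) P ≠ 0 := by
  classical
  -- base point
  obtain ⟨c0, hc0⟩ : ∃ c0 : Fin 2 × Fin (d + 1) → Ω,
      MvPolynomial.eval c0 (P * MvPolynomial.X (1, Fin.last d)) ≠ 0 := by
    by_contra hcon
    push Not at hcon
    have : P * MvPolynomial.X (1, Fin.last d) = 0 :=
      MvPolynomial.funext fun x => by rw [hcon x, map_zero]
    exact (mul_ne_zero hP (MvPolynomial.X_ne_zero _)) this
  rw [map_mul, MvPolynomial.eval_X] at hc0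
  have hP0 : MvPolynomial.eval c0 P ≠ 0 := left_ne_zero_of_mul hc0
  have hbd : c0 (1, Fin.last d) ≠ 0 := right_ne_zero_of_mul hc0
  -- the second form as a polynomial
  set q : Polynomial Ω := ∑ j : Fin (d + 1), Polynomial.C (c0 (1, j)) * Polynomial.X ^ (j : ℕ) with hq
  have hqc : ∀ j : Fin (d + 1), q.coeff j = c0 (1, j) := by
    intro j
    rw [hq, Polynomial.finsetSum_coeff]
    simp only [Polynomial.coeff_C_mul, Polynomial.coeff_X_pow]
    rw [Finset.sum_eq_single j]
    · simp
    · intro b _ hb
      have : ¬ ((j : ℕ) = (b : ℕ)) := fun h => hb (Fin.ext h.symm)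
      simp [this]
    · simp
  have hqdeg : q.natDegree = d := by
    apply le_antisymm
    · rw [hq]
      refine Polynomial.natDegree_sum_le_of_forall_le _ _ fun j _ => ?_
      refine (Polynomial.natDegree_C_mul_X_pow_le _ _).trans (Nat.lt_succ_iff.mp j.2)
    · apply Polynomial.le_natDegree_of_ne_zero
      have := hqc (Fin.last d)
      simp only [Fin.val_last] at this
      rw [this]; exact hbd
  have hq0 : q ≠ 0 := by
    intro h
    have := hqc (Fin.last d)
    rw [h] at this
    simp at this
    exact hbd this.symm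
  obtain ⟨ρ, hρ⟩ := exists_roots q hqdeg
  -- Step 1: choose the roots and the leading coefficient of the second form
  let σ := Option (Fin d)
  let Q : Polynomial (MvPolynomial σ Ω) :=
    ∏ i : Fin d, (Polynomial.X - Polynomial.C (MvPolynomial.X (some i)))
  let g1 : Fin 2 × Fin (d + 1) → MvPolynomial σ Ω := fun p =>
    if p.1 = 0 then MvPolynomial.C (c0 p) else MvPolynomial.X none * Q.coeff p.2
  have hQ : ∀ (x : σ → Ω) (j : ℕ), MvPolynomial.eval x (Q.coeff j)
      = (∏ i : Fin d, (Polynomial.X - Polynomial.C (x (some i)))).coeff j := by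
    intro x j
    have : (Q.map (MvPolynomial.eval x)) = ∏ i : Fin d, (Polynomial.X - Polynomial.C (x (some i))) := by
      simp only [Q]
      rw [Polynomial.map_prod]
      simp
    rw [← this, Polynomial.coeff_map]
  let V : MvPolynomial σ Ω :=
    ∏ p ∈ (Finset.univ : Finset (Fin d × Fin d)).filter (fun p => p.1 ≠ p.2),
      (MvPolynomial.X (some p.1) - MvPolynomial.X (some p.2))
  have hV : V ≠ 0 := by
    simp only [V]
    rw [Finset.prod_ne_zero_iff]
    intro p hp
    rw [Finset.mem_filter] at hp
    intro h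
    have h' := sub_eq_zero.mp h
    have := MvPolynomial.X_injective h'
    exact hp.2 (Option.some_injective _ this)
  have hx0 : MvPolynomial.eval (fun t => MvPolynomial.eval
      (fun o : σ => o.elim q.leadingCoeff ρ) (g1 t)) P ≠ 0 := by
    have : (fun t => MvPolynomial.eval (fun o : σ => o.elim q.leadingCoeff ρ) (g1 t)) = c0 := by
      funext t
      obtain ⟨i, j⟩ := t
      simp only [g1]
      split_ifs with h
      · simp
      · have hi : i = 1 := by omega
        subst hi
        rw [map_mul, MvPolynomial.eval_X, hQ]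
        simp only [Option.elim_none, Option.elim_some]
        rw [← hqc j, ← Polynomial.coeff_C_mul, ← hρ]
    rw [this]; exact hP0
  have hZinf : (Set.range (fun n : ℤ => (n : Ω))).Infinite :=
    Set.infinite_range_of_injective Int.cast_injective
  have h2inf : (Set.range (fun n : ℕ => ((2 : Ω) ^ n))).Infinite := by
    apply Set.infinite_range_of_injective
    intro a b hab
    have : ((2 ^ a : ℕ) : Ω) = ((2 ^ b : ℕ) : Ω) := by push_cast; exact hab
    exact Nat.pow_right_injective (le_refl 2) (Nat.cast_injective this)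
  obtain ⟨x, hxs, hx1, hxV⟩ := grid P g1 V hV _ hx0
    (fun o : σ => o.elim (Set.range (fun n : ℕ => ((2 : Ω) ^ n)))
      (fun _ => Set.range (fun n : ℤ => (n : Ω))))
    (by rintro (_ | i) <;> simp only [Option.elim_none, Option.elim_some] <;> assumption)
  have hlam : ∀ i : Fin d, ∃ n : ℤ, (n : Ω) = x (some i) := fun i => hxs (some i)
  choose lam hlam using hlam
  obtain ⟨k, hk⟩ : ∃ k : ℕ, (2 : Ω) ^ k = x none := hxs none
  have hinj : Function.Injective lam := by
    intro i j hij
    by_contra hne
    apply hxV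
    simp only [V]
    rw [map_prod]
    apply Finset.prod_eq_zero (i := (i, j))
    · simp [hne]
    · simp only [map_sub, MvPolynomial.eval_X]
      rw [← hlam i, ← hlam j, hij, sub_self]
  -- Step 2: the first form
  set g : ℤ[X] := ∏ i, (Polynomial.X - Polynomial.C (lam i)) with hg
  have hgdeg : g.natDegree = d := by
    rw [hg, Polynomial.natDegree_finsetProd_X_sub_C_eq_card]
    simp
  have hgmonic : g.Monic := Polynomial.monic_prod_X_sub_C _ _
  let B : Fin d → ℤ[X] := fun i => ∏ j ∈ Finset.univ.erase i, (Polynomial.X - Polynomial.C (lam j))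
  have hBdeg : ∀ i, (B i).natDegree = d - 1 := by
    intro i
    simp only [B]
    rw [Polynomial.natDegree_finsetProd_X_sub_C_eq_card]
    simp
  let δ : Fin d → ℤ := fun i => ∏ j ∈ Finset.univ.erase i, (lam i - lam j)
  have hBi : ∀ i, (B i).eval (lam i) = δ i := by
    intro i; simp only [B, δ]; rw [Polynomial.eval_prod]; simp
  have hBij : ∀ i j, i ≠ j → (B i).eval (lam j) = 0 := by
    intro i j hij
    simp only [B]
    rw [Polynomial.eval_prod]
    apply Finset.prod_eq_zero (i := j)
    · simp [hij.symm]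
    · simp
  have hδ : ∀ i, δ i ≠ 0 := by
    intro i
    simp only [δ]
    rw [Finset.prod_ne_zero_iff]
    intro j hj
    rw [sub_ne_zero]
    intro h
    exact (Finset.ne_of_mem_erase hj) (hinj h).symm
  obtain ⟨s, mm, hmm, hdiv⟩ := exists_exp (∏ i, δ i) (Finset.prod_ne_zero_iff.mpr fun i _ => hδ i)
  have hdiv' : ∀ (i : Fin d) (t : ℕ), ∃ e : ℤ, 2 ^ s * (2 ^ (mm * t) - 1) = δ i * e := by
    intro i t
    exact (Finset.dvd_prod_of_mem δ (Finset.mem_univ i)).trans (hdiv t)
  choose e he using hdiv'
  have heinf : ∀ i, (Set.range (fun t : ℕ => ((e i t : ℤ) : Ω))).Infinite := by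
    intro i
    apply Set.infinite_range_of_injective
    intro a b hab
    have hab' : e i a = e i b := Int.cast_injective hab
    have h1 := he i a
    rw [hab', ← he i b] at h1
    have h2 : (2 : ℤ) ^ (mm * a) = 2 ^ (mm * b) := by
      have := mul_left_cancel₀ (pow_ne_zero s (two_ne_zero)) h1
      linarith
    have h3 : mm * a = mm * b := by
      have h2' : (2 : ℕ) ^ (mm * a) = 2 ^ (mm * b) := by exact_mod_cast h2
      exact Nat.pow_right_injective (le_refl 2) h2'
    exact Nat.eq_of_mul_eq_mul_left hmm h3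
  -- integral family of first forms
  let F : (Option (Fin d) → ℤ) → ℤ[X] := fun w =>
    Polynomial.C (2 ^ s) + ∑ i, Polynomial.C (w (some i)) * B i + Polynomial.C (w none) * g
  let FΩ : (Option (Fin d) → Ω) → Polynomial Ω := fun w =>
    Polynomial.C (2 ^ s) + ∑ i, Polynomial.C (w (some i)) * (B i).map (Int.castRingHom Ω)
      + Polynomial.C (w none) * g.map (Int.castRingHom Ω)
  let g2 : Fin 2 × Fin (d + 1) → MvPolynomial σ Ω := fun p =>
    if p.1 = 0 then
      MvPolynomial.C ((Polynomial.C ((2 : Ω) ^ s)).coeff p.2)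
        + ∑ i, MvPolynomial.X (some i) * MvPolynomial.C (((B i).coeff p.2 : ℤ) : Ω)
        + MvPolynomial.X none * MvPolynomial.C ((g.coeff p.2 : ℤ) : Ω)
    else MvPolynomial.C ((2 : Ω) ^ k * ((g.coeff p.2 : ℤ) : Ω))
  have hg2 : ∀ (w : σ → Ω) (j : Fin (d + 1)), MvPolynomial.eval w (g2 (0, j)) = (FΩ w).coeff j := by
    intro w j
    simp only [g2, FΩ, if_true]
    simp [Polynomial.coeff_add, Polynomial.finsetSum_coeff, Polynomial.coeff_C_mul]
  -- the base point for step 2
  set a0 : Polynomial Ω := ∑ j : Fin (d + 1), Polynomial.C (c0 (0, j)) * Polynomial.X ^ (j : ℕ) with ha0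
  have ha0c : ∀ j : Fin (d + 1), a0.coeff j = c0 (0, j) := by
    intro j
    rw [ha0, Polynomial.finsetSum_coeff]
    simp only [Polynomial.coeff_C_mul, Polynomial.coeff_X_pow]
    rw [Finset.sum_eq_single j]
    · simp
    · intro b _ hb
      have : ¬ ((j : ℕ) = (b : ℕ)) := fun h => hb (Fin.ext h.symm)
      simp [this]
    · simp
  have ha0deg : a0.natDegree ≤ d := by
    rw [ha0]
    refine Polynomial.natDegree_sum_le_of_forall_le _ _ fun j _ => ?_
    refine (Polynomial.natDegree_C_mul_X_pow_le _ _).trans (Nat.lt_succ_iff.mp j.2)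
  let w0 : σ → Ω := fun o => o.elim (a0.coeff d)
    (fun i => (a0.eval ((lam i : ℤ) : Ω) - 2 ^ s) / ((δ i : ℤ) : Ω))
  have hF0 : FΩ w0 = a0 := by
    have hz : a0 - FΩ w0 = 0 := by
      apply Polynomial.eq_zero_of_natDegree_lt_card_of_eval_eq_zero (a0 - FΩ w0)
        (f := fun i : Fin d => ((lam i : ℤ) : Ω))
      · intro i j hij
        exact hinj (Int.cast_injective hij)
      · intro i
        simp only [FΩ, w0, Option.elim_none, Option.elim_some]
        simp only [Polynomial.eval_sub, Polynomial.eval_add, Polynomial.eval_finsetSum,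
          Polynomial.eval_mul, Polynomial.eval_C, Polynomial.eval_intCast_map, Int.cast_id]
        rw [Finset.sum_eq_single i]
        · rw [hBi]
          have hgi : g.eval (lam i) = 0 := by
            rw [hg, Polynomial.eval_prod]
            apply Finset.prod_eq_zero (Finset.mem_univ i)
            simp
          rw [hgi]
          have : ((δ i : ℤ) : Ω) ≠ 0 := by exact_mod_cast hδ i
          simp only [eq_intCast, Int.cast_zero, mul_zero, add_zero]
          field_simp
          ring
        · intro j _ hj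
          rw [hBij j i hj]
          simp
        · simp
      · rw [Fintype.card_fin]
        have hle : (a0 - FΩ w0).natDegree ≤ d := by
          refine (Polynomial.natDegree_sub_le _ _).trans (max_le ha0deg ?_)
          simp only [FΩ]
          refine (Polynomial.natDegree_add_le _ _).trans (max_le ?_ ?_)
          · refine (Polynomial.natDegree_add_le _ _).trans (max_le ?_ ?_)
            · simp
            · refine Polynomial.natDegree_sum_le_of_forall_le _ _ fun i _ => ?_
              refine (Polynomial.natDegree_C_mul_le _ _).trans ?_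
              refine (Polynomial.natDegree_map_le).trans ?_
              rw [hBdeg]; omega
          · refine (Polynomial.natDegree_C_mul_le _ _).trans ?_
            refine (Polynomial.natDegree_map_le).trans hgdeg.le
        have hcd : (a0 - FΩ w0).coeff d = 0 := by
          simp only [FΩ, w0, Option.elim_none, Option.elim_some]
          rw [Polynomial.coeff_sub, Polynomial.coeff_add, Polynomial.coeff_add,
            Polynomial.finsetSum_coeff, Polynomial.coeff_C_mul, Polynomial.coeff_map]
          have h1 : g.coeff d = 1 := by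
            have := hgmonic.coeff_natDegree
            rwa [hgdeg] at this
          have h2 : ∀ i, (B i).coeff d = 0 := by
            intro i
            apply Polynomial.coeff_eq_zero_of_natDegree_lt
            rw [hBdeg]; omega
          have h3 : (Polynomial.C ((2 : Ω) ^ s)).coeff d = 0 := by
            rw [Polynomial.coeff_C, if_neg (by omega)]
          rw [h1, h3]
          simp [Polynomial.coeff_C_mul, Polynomial.coeff_map, h2]
        rcases lt_or_eq_of_le hle with h | h
        · exact h
        · exfalso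
          have : (a0 - FΩ w0).leadingCoeff = 0 := by
            rw [Polynomial.leadingCoeff, h, hcd]
          rw [Polynomial.leadingCoeff_eq_zero] at this
          rw [this] at h
          simp at h
          omega
    exact (sub_eq_zero.mp hz).symm
  have hstep2 : MvPolynomial.eval (fun t => MvPolynomial.eval w0 (g2 t)) P ≠ 0 := by
    have : (fun t => MvPolynomial.eval w0 (g2 t)) = fun t => MvPolynomial.eval x (g1 t) := by
      funext t
      obtain ⟨i, j⟩ := t
      by_cases hi : i = 0
      · subst hi
        rw [hg2, hF0, ha0c]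
        simp [g1]
      · have hi : i = 1 := by omega
        subst hi
        simp only [g1, g2, one_ne_zero, if_false]
        rw [MvPolynomial.eval_C, map_mul (MvPolynomial.eval x), MvPolynomial.eval_X, hQ, ← hk]
        congr 1
        have : (∏ i : Fin d, (Polynomial.X - Polynomial.C (x (some i))) : Polynomial Ω)
            = g.map (Int.castRingHom Ω) := by
          rw [hg, Polynomial.map_prod]
          refine Finset.prod_congr rfl fun i _ => ?_
          rw [← hlam i]
          simp
        rw [this, Polynomial.coeff_map]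
        simp
    rw [this]; exact hx1
  obtain ⟨y, hys, hy1, -⟩ := grid P g2 1 one_ne_zero w0 hstep2
    (fun o : σ => o.elim (Set.range (fun n : ℤ => (n : Ω)))
      (fun i => Set.range (fun t : ℕ => ((e i t : ℤ) : Ω))))
    (by
      rintro (_ | i)
      · simpa using hZinf
      · simpa using heinf i)
  have hy' : ∀ i : Fin d, ∃ t : ℕ, ((e i t : ℤ) : Ω) = y (some i) := fun i => hys (some i)
  choose t ht using hy'
  obtain ⟨c', hc'⟩ : ∃ n : ℤ, (n : Ω) = y none := hys none
  let w : Option (Fin d) → ℤ := fun o => o.elim c' (fun i => e i (t i))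
  have hFw : (F w).map (Int.castRingHom Ω) = FΩ y := by
    simp only [F, FΩ, w, Option.elim_none, Option.elim_some]
    rw [Polynomial.map_add, Polynomial.map_add, Polynomial.map_sum, Polynomial.map_mul,
      Polynomial.map_C, Polynomial.map_C]
    simp only [Polynomial.map_mul, Polynomial.map_C]
    simp [ht, hc']
  refine ⟨fun i j => if i = 0 then (F w).coeff j else 2 ^ k * g.coeff j,
    ⟨lam, k, fun i => s + mm * t i, F w, ?_, ?_, ?_, ?_⟩, ?_⟩
  · simp only [F]
    refine (Polynomial.natDegree_add_le _ _).trans (max_le ?_ ?_)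
    · refine (Polynomial.natDegree_add_le _ _).trans (max_le ?_ ?_)
      · simp
      · refine Polynomial.natDegree_sum_le_of_forall_le _ _ fun i _ => ?_
        refine (Polynomial.natDegree_C_mul_le _ _).trans ?_
        rw [hBdeg]; omega
    · exact (Polynomial.natDegree_C_mul_le _ _).trans hgdeg.le
  · intro j; simp
  · intro j; simp [hg]
  · intro i
    simp only [F, w, Option.elim_none, Option.elim_some]
    simp only [Polynomial.eval_add, Polynomial.eval_finsetSum,
          Polynomial.eval_mul, Polynomial.eval_C]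
    rw [Finset.sum_eq_single i]
    · rw [hBi]
      have hgi : g.eval (lam i) = 0 := by
        rw [hg, Polynomial.eval_prod]
        apply Finset.prod_eq_zero (Finset.mem_univ i)
        simp
      rw [hgi, mul_comm (e i (t i)), ← he i (t i), pow_add]
      ring
    · intro j _ hj
      rw [hBij j i hj]
      simp
    · simp
  · have : (fun p : Fin 2 × Fin (d + 1) =>
        (((if p.1 = 0 then (F w).coeff p.2 else 2 ^ k * g.coeff p.2 : ℤ)) : Ω))
        = fun t => MvPolynomial.eval y (g2 t) := by
      funext p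
      obtain ⟨i, j⟩ := p
      by_cases hi : i = 0
      · subst hi
        rw [hg2, ← hFw, Polynomial.coeff_map]
        simp
      · have hi : i = 1 := by omega
        subst hi
        simp [g2]
    rw [this]; exact hy1

end Pool.Agent.H3.Shaf
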