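import Mathlib

/-! # Definitions for `MP_d071c2_nt` (case `N = 1`). -/

namespace Pool.Agent.H3.Shaf

open IsDedekindDomain NumberField

/-- Two binary forms of degree `d` over `R`; `c i j` is the coefficient of `x^j y^(d-j)` in the
`i`-th form. -/
abbrev Coef (R : Type*) (d : ℕ) := Fin 2 → Fin (d + 1) → R

section Ring

variable {R : Type*} [CommRing R] {d : ℕ}

/-- The value of the pair of forms at `v = (x, y)`. -/
def ev (c : Coef R d) (v : Fin 2 → R) : Fin 2 → R :=
  fun i => ∑ j : Fin (d + 1), c i j * v 0 ^ (j : ℕ) * v 1 ^ (d - j)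

/-- The pair of forms has no common zero except `(0, 0)`. -/
def NoZero (c : Coef R d) : Prop := ∀ v, ev c v = 0 → v = 0

/-- `A ∘ c' = s • c ∘ A` (as maps on `R²`). -/
def Intertwines (A : Matrix (Fin 2) (Fin 2) R) (s : R) (c c' : Coef R d) : Prop :=
  ∀ v, A.mulVec (ev c' v) = s • ev c (A.mulVec v)

/-- `c'` is a conjugate of `c` by an element `A` of `GL₂(R)`, up to an invertible scalar. -/
def IsConj (c c' : Coef R d) : Prop :=
  ∃ (A : Matrix (Fin 2) (Fin 2) R) (s : R), IsUnit A.det ∧ IsUnit s ∧ Intertwines A s c c'

end Ring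

/-- Apply a map to all coefficients. -/
def mapc {R R' : Type*} {d : ℕ} (φ : R → R') (c : Coef R d) : Coef R' d := fun i j => φ (c i j)

/-- No common zero over an algebraic closure of the field `k`. -/
def GeomNoZero {k : Type*} [Field k] {d : ℕ} (c : Coef k d) : Prop :=
  NoZero (mapc (algebraMap k (AlgebraicClosure k)) c)

/-- The reduction modulo the maximal ideal of a local ring `R` has no common zero over an algebraic
closure of the residue field. -/
def ReducesWell {R : Type*} [CommRing R] [IsLocalRing R] {d : ℕ} (m : Coef R d) : Prop :=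
  GeomNoZero (mapc (IsLocalRing.residue R) m)

/-- Naive good reduction for a valuation subring `A` of `K`: after scaling, the coefficients lie in
`A` and the reduction is a map of the same degree. -/
def NaiveGood {K : Type*} [Field K] {d : ℕ} (A : ValuationSubring K) (c : Coef K d) : Prop :=
  ∃ (s : K) (m : Coef A d), s ≠ 0 ∧ mapc Subtype.val m = s • c ∧ ReducesWell m

/-- Good reduction: some `K`-conjugate has naive good reduction. -/
def Good {K : Type*} [Field K] {d : ℕ} (A : ValuationSubring K) (c : Coef K d) : Prop :=
  ∃ c' : Coef K d, IsConj c c' ∧ NaiveGood A c'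

/-- The local ring (in the number field `K`) at the prime `v`. -/
noncomputable def locRing {K : Type*} [Field K] [NumberField K] (v : HeightOneSpectrum (𝓞 K)) :
    ValuationSubring K := (v.valuation K).valuationSubring

section Moduli

/-- The Zariski topology on the affine space `σ → R`. -/
abbrev zariski (R σ : Type*) [CommSemiring R] : TopologicalSpace (σ → R) :=
  .generateFrom {U | ∃ P : MvPolynomial σ R, U = {x | MvPolynomial.eval x P ≠ 0}}

variable (Ω : Type*) [Field Ω] (d : ℕ)

/-- (The cone over) `End_d^1(Ω)`: pairs of forms without common zero. -/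
def EndCone := {c : Coef Ω d // NoZero c}

/-- The Zariski topology on the cone over `End_d^1`. -/
instance : TopologicalSpace (EndCone Ω d) :=
  .induced (fun c p => c.1 p.1 p.2) (zariski Ω (Fin 2 × Fin (d + 1)))

/-- The moduli space `M_d^1(Ω) = End_d^1(Ω) / PGL₂(Ω)`. -/
def Moduli := Quot (fun c c' : EndCone Ω d => IsConj c.1 c'.1)

/-- `M_d^1` carries the quotient of the Zariski topology. -/
instance : TopologicalSpace (Moduli Ω d) := inferInstanceAs (TopologicalSpace (Quot _))

variable {Ω d}

/-- The class of a map. -/
def cls (c : Coef Ω d) (h : NoZero c) : Moduli Ω d := Quot.mk _ ⟨c, h⟩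

variable {K : Type} [Field K] [NumberField K] (d)

/-- The classes of the maps defined over the number field `K ⊆ Ω` (via `ι`) that have good
reduction at all primes outside `S`. -/
def goodClasses (ι : K →+* Ω) (S : Finset (HeightOneSpectrum (𝓞 K))) : Set (Moduli Ω d) :=
  {x | ∃ (c : Coef K d) (h : NoZero (mapc ι c)), (∀ v ∉ S, Good (locRing v) c) ∧ x = cls _ h}

variable (Ω) in
/-- The Shafarevich dimension `σ_d^1`. -/
noncomputable def shafDim : WithBot ℕ∞ :=
  ⨆ (K : Type) (_ : Field K) (_ : NumberField K) (ι : K →+* Ω)
    (S : Finset (HeightOneSpectrum (𝓞 K))), topologicalKrullDim (closure (goodClasses d ι S))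

end Moduli

end Pool.Agent.H3.Shaf
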