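import Mathlib
import Pool.Agent.H3.ShafAlg
import Pool.Agent.H3.ShafDefs

/-! # Proofs for `MP_d071c2_nt` -/

namespace Pool.Agent.H3.ShafMain

open Pool.Agent.H3.Shaf IsDedekindDomain NumberField

lemma noZero_of_good2 {d : ℕ} (hd : 1 ≤ d) {m : Fin 2 → Fin (d + 1) → ℤ} (hm : Good2 m)
    {L : Type*} [Field L] (h2 : (2 : L) ≠ 0) : NoZero (mapc (Int.cast : ℤ → L) m) := by
  intro v hv
  have h0 := congrFun hv 0
  have h1 := congrFun hv 1
  simp only [ev, mapc, Pi.zero_apply] at h0 h1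
  obtain ⟨hx, hy⟩ := good2_noZero hm hd h2 (v 0) (v 1) h0 h1
  funext i
  fin_cases i
  · exact hx
  · exact hy

section

variable {K : Type*} [Field K] [NumberField K] {d : ℕ}

omit [NumberField K] in
lemma isConj_refl (c : Coef K d) : Pool.Agent.H3.Shaf.IsConj c c := by
  refine ⟨1, 1, by simp, isUnit_one, fun v => ?_⟩
  simp

lemma isUnit_two (v : HeightOneSpectrum (𝓞 K)) (hv : (2 : 𝓞 K) ∉ v.asIdeal) :
    IsUnit (2 : locRing v) := by
  have h1 : v.valuation K (2 : K) = 1 := by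
    have := (HeightOneSpectrum.valuation_eq_one_iff_notMem (K := K) v (r := (2 : 𝓞 K))).mpr hv
    rw [map_ofNat] at this
    exact this
  have h2 : (2 : K)⁻¹ ∈ locRing v := by
    unfold locRing
    rw [Valuation.mem_valuationSubring_iff, map_inv₀, h1, inv_one]
  rw [isUnit_iff_exists_inv]
  refine ⟨⟨(2 : K)⁻¹, h2⟩, ?_⟩
  apply Subtype.ext
  show (2 : K) * 2⁻¹ = 1
  exact mul_inv_cancel₀ two_ne_zero

lemma goodAt_of_good2 (hd : 1 ≤ d) {m : Fin 2 → Fin (d + 1) → ℤ} (hm : Good2 m)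
    (v : HeightOneSpectrum (𝓞 K)) (hv : (2 : 𝓞 K) ∉ v.asIdeal) :
    Good (locRing v) (mapc (Int.cast : ℤ → K) m) := by
  refine ⟨_, isConj_refl _, 1, mapc (Int.cast : ℤ → locRing v) m, one_ne_zero, ?_, ?_⟩
  · rw [one_smul]
    funext i j
    simp [mapc]
  · have h2 : (2 : IsLocalRing.ResidueField (locRing v)) ≠ 0 := by
      have := (isUnit_two v hv).map (IsLocalRing.residue (locRing v))
      rw [map_ofNat] at this
      exact this.ne_zero
    have h2' : (2 : AlgebraicClosure (IsLocalRing.ResidueField (locRing v))) ≠ 0 := by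
      intro h
      apply h2
      apply (algebraMap (IsLocalRing.ResidueField (locRing v))
        (AlgebraicClosure (IsLocalRing.ResidueField (locRing v)))).injective
      rw [map_zero, map_ofNat, ← h]
    have := noZero_of_good2 hd hm h2'
    have he : mapc (algebraMap _ (AlgebraicClosure (IsLocalRing.ResidueField (locRing v))))
        (mapc (IsLocalRing.residue (locRing v)) (mapc (Int.cast : ℤ → locRing v) m))
        = mapc (Int.cast : ℤ → AlgebraicClosure (IsLocalRing.ResidueField (locRing v))) m := by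
      funext i j
      simp [mapc]
    unfold ReducesWell GeomNoZero
    rw [he]
    exact this

end

section

variable {Ω : Type*} [Field Ω] {d : ℕ}

/-- Every nonempty open subset of affine space contains a nonempty basic open set. -/
lemma exists_basic' {σ : Type*} {U : Set (σ → Ω)} (hU : @IsOpen _ (zariski Ω σ) U) {x : σ → Ω}
    (hx : x ∈ U) :
    ∃ P : MvPolynomial σ Ω, MvPolynomial.eval x P ≠ 0 ∧
      ∀ c : σ → Ω, MvPolynomial.eval c P ≠ 0 → c ∈ U := by
  induction hU with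
  | basic s hs =>
    obtain ⟨P, rfl⟩ := hs
    exact ⟨P, hx, fun c hc => hc⟩
  | univ => exact ⟨1, by simp, fun c _ => Set.mem_univ c⟩
  | inter s t _ _ ihs iht =>
    obtain ⟨P, hP, hP'⟩ := ihs hx.1
    obtain ⟨Q, hQ, hQ'⟩ := iht hx.2
    refine ⟨P * Q, ?_, fun c hc => ?_⟩
    · rw [map_mul]; exact mul_ne_zero hP hQ
    · rw [map_mul] at hc
      exact ⟨hP' c (left_ne_zero_of_mul hc), hQ' c (right_ne_zero_of_mul hc)⟩
  | sUnion S _ ih =>
    obtain ⟨s, hs, hxs⟩ := hx
    obtain ⟨P, hP, hP'⟩ := ih s hs hxs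
    exact ⟨P, hP, fun c hc => ⟨s, hs, hP' c hc⟩⟩

/-- Every nonempty open subset of the cone over `End` contains a nonempty basic open set. -/
lemma exists_basic {U : Set (EndCone Ω d)} (hU : IsOpen U) {x : EndCone Ω d} (hx : x ∈ U) :
    ∃ P : MvPolynomial (Fin 2 × Fin (d + 1)) Ω,
      MvPolynomial.eval (fun p => x.1 p.1 p.2) P ≠ 0 ∧
      ∀ c : EndCone Ω d, MvPolynomial.eval (fun p => c.1 p.1 p.2) P ≠ 0 → c ∈ U := by
  obtain ⟨V, hV, rfl⟩ := (@isOpen_induced_iff _ _ (zariski Ω (Fin 2 × Fin (d + 1))) _ _).mp hU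
  obtain ⟨P, hP, hP'⟩ := exists_basic' hV hx
  exact ⟨P, hP, fun c hc => hP' _ hc⟩

/-- The finite set of primes of `K` above `2`. -/
lemma exists_S (K : Type*) [Field K] [NumberField K] :
    ∃ S : Finset (HeightOneSpectrum (𝓞 K)), ∀ v, v ∈ S ↔ (2 : 𝓞 K) ∈ v.asIdeal := by
  have hf : {v : HeightOneSpectrum (𝓞 K) | v.asIdeal ∣ Ideal.span {(2 : 𝓞 K)}}.Finite := by
    apply Ideal.finite_factors
    rw [Ne, Ideal.zero_eq_bot, Ideal.span_singleton_eq_bot]
    exact two_ne_zero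
  refine ⟨hf.toFinset, fun v => ?_⟩
  rw [Set.Finite.mem_toFinset, Set.mem_ofPred_eq, Ideal.dvd_span_singleton]

variable [CharZero Ω] [IsAlgClosed Ω]

theorem dense_good (hd : 1 ≤ d) (S : Finset (HeightOneSpectrum (𝓞 ℚ)))
    (hS : ∀ v, v ∈ S ↔ (2 : 𝓞 ℚ) ∈ v.asIdeal) :
    Dense (goodClasses d (algebraMap ℚ Ω) S) := by
  rw [dense_iff_inter_open]
  rintro U hU ⟨x, hx⟩
  induction x using Quot.ind with
  | mk x =>
  have hV : IsOpen ((Quot.mk _ : EndCone Ω d → Moduli Ω d) ⁻¹' U) :=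
    hU.preimage continuous_quot_mk
  obtain ⟨P, hP, hP'⟩ := exists_basic hV (x := x) hx
  have hP0 : P ≠ 0 := by rintro rfl; simp at hP
  obtain ⟨m, hm, hmP⟩ := exists_good hd P hP0
  have hnz : NoZero (mapc (algebraMap ℚ Ω) (mapc (Int.cast : ℤ → ℚ) m)) := by
    have := noZero_of_good2 (L := Ω) hd hm two_ne_zero
    convert this using 1
    funext i j
    simp [mapc]
  refine ⟨Quot.mk _ ⟨_, hnz⟩, ?_, ?_⟩
  · apply hP' ⟨_, hnz⟩
    have : (fun p : Fin 2 × Fin (d + 1) => mapc (algebraMap ℚ Ω) (mapc (Int.cast : ℤ → ℚ) m) p.1 p.2)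
        = fun p => (m p.1 p.2 : Ω) := by
      funext p; simp [mapc]
    simp only [this]
    exact hmP
  · exact ⟨mapc (Int.cast : ℤ → ℚ) m, hnz,
      fun v hv => goodAt_of_good2 hd hm v (fun h => hv ((hS v).mpr h)), rfl⟩

/-- **Main theorem.** Let `Ω` be an algebraically closed field of characteristic zero, `d ≥ 2`.
The classes of the maps defined over `ℚ` with good reduction at all primes except (possibly) those
above `2` are Zariski dense in `M_d^1`; hence `σ_d^1 = dim M_d^1`. -/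
theorem main (Ω : Type*) [Field Ω] [CharZero Ω] [IsAlgClosed Ω] (d : ℕ) (hd : 2 ≤ d) :
    (∃ S : Finset (HeightOneSpectrum (𝓞 ℚ)), (∀ v ∈ S, (2 : 𝓞 ℚ) ∈ v.asIdeal) ∧
      Dense (goodClasses d (algebraMap ℚ Ω) S)) ∧
    shafDim Ω d = topologicalKrullDim (Moduli Ω d) := by
  obtain ⟨S, hS⟩ := exists_S ℚ
  have hdense := dense_good (Ω := Ω) (d := d) (by omega) S hS
  refine ⟨⟨S, fun v hv => (hS v).mp hv, hdense⟩, le_antisymm ?_ ?_⟩
  · unfold shafDim
    refine iSup_le fun K => iSup_le fun _ => iSup_le fun _ => iSup_le fun ι => iSup_le fun S => ?_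
    exact topologicalKrullDim_subspace_le _ _
  · have h1 : topologicalKrullDim (Moduli Ω d)
        = topologicalKrullDim (closure (goodClasses d (algebraMap ℚ Ω) S)) := by
      rw [hdense.closure_eq]
      exact ((Homeomorph.Set.univ (Moduli Ω d)).symm.isHomeomorph).topologicalKrullDim_eq _
    rw [h1]
    unfold shafDim
    exact le_iSup_of_le ℚ <| le_iSup_of_le inferInstance <| le_iSup_of_le inferInstance <|
      le_iSup_of_le (algebraMap ℚ Ω) <| le_iSup_of_le S le_rfl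

end

end Pool.Agent.H3.ShafMain
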